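import Mathlib

section

/-! Words over the three branches, averages over words, moments and the exchange identity. -/

namespace Pool.Agent.MP_2e2529_nt

open Finset

/-- The words of length `H` in the letters `0, 1, 2`. -/
def wds : ℕ → Finset (List ℕ)
  | 0 => {[]}
  | H + 1 => (range 3 ×ˢ wds H).image fun p => p.1 :: p.2

/-- The offset of a word. -/
def cw : List ℕ → ℕ
  | [] => 0
  | a :: w => 2 ^ a * cw w + min a 1 * 3 ^ w.length

/-- The average over words of length `H`. -/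
noncomputable def EW {K : Type} [Field K] (H : ℕ) (f : List ℕ → K) : K :=
  (∑ w ∈ wds H, f w) / 3 ^ H

theorem mem_wds {H : ℕ} {w : List ℕ} : w ∈ wds H ↔ w.length = H ∧ ∀ a ∈ w, a < 3 := by
  induction H generalizing w with
  | zero =>
    simp only [wds, mem_singleton, List.length_eq_zero_iff]
    exact ⟨fun h => by simp [h], fun h => h.1⟩
  | succ H ih =>
    simp only [wds, mem_image, mem_product, mem_range, Prod.exists]
    constructor
    · rintro ⟨a, v, ⟨h1, h2⟩, rfl⟩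
      obtain ⟨h3, h4⟩ := ih.1 h2
      refine ⟨by simp [h3], fun b hb => ?_⟩
      rcases List.mem_cons.1 hb with rfl | hb
      exacts [h1, h4 b hb]
    · rintro ⟨h1, h2⟩
      cases w with
      | nil => simp at h1
      | cons a v =>
        exact ⟨a, v, ⟨h2 a (by simp), ih.2 ⟨by simpa using h1, fun b hb => h2 b (by simp [hb])⟩⟩,
          rfl⟩

theorem sum_wds_succ {M : Type} [AddCommMonoid M] (H : ℕ) (f : List ℕ → M) :
    ∑ w ∈ wds (H + 1), f w =
      ∑ w ∈ wds H, f (0 :: w) + ∑ w ∈ wds H, f (1 :: w) + ∑ w ∈ wds H, f (2 :: w) := by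
  rw [wds, sum_image, sum_product]
  · simp [sum_range_succ]
  · rintro ⟨a, v⟩ _ ⟨b, u⟩ _ h
    simp only [List.cons.injEq] at h
    exact Prod.ext h.1 h.2

theorem sum_wds_add {M : Type} [AddCommMonoid M] (H L : ℕ) (f : List ℕ → M) :
    ∑ w ∈ wds (H + L), f w = ∑ w ∈ wds H, ∑ v ∈ wds L, f (w ++ v) := by
  induction H generalizing f with
  | zero => simp [wds]
  | succ H ih =>
    rw [show H + 1 + L = H + L + 1 by omega, sum_wds_succ, sum_wds_succ, ih, ih, ih]
    rfl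

theorem card_wds (H : ℕ) : (wds H).card = 3 ^ H := by
  induction H with
  | zero => simp [wds]
  | succ H ih =>
    rw [card_eq_sum_ones, sum_wds_succ, ← card_eq_sum_ones, ih]
    ring

theorem sum_le_of_mem {H : ℕ} {w : List ℕ} (h : w ∈ wds H) : w.sum ≤ 2 * H := by
  obtain ⟨rfl, h2⟩ := mem_wds.1 h
  have := List.sum_le_card_nsmul w 2 fun a ha => by have := h2 a ha; omega
  rw [smul_eq_mul] at this
  omega

theorem cw_append (w v : List ℕ) : cw (w ++ v) = 2 ^ w.sum * cw v + 3 ^ v.length * cw w := by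
  induction w with
  | nil => simp [cw]
  | cons a w ih =>
    simp only [List.cons_append, cw, ih, List.length_append, List.sum_cons]
    ring

theorem cw_le (w : List ℕ) : cw w ≤ 2 ^ w.sum * 3 ^ w.length := by
  induction w with
  | nil => simp [cw]
  | cons a w ih =>
    simp only [cw, List.sum_cons, List.length_cons]
    have h1 : min a 1 * 3 ^ w.length ≤ 2 ^ (a + w.sum) * 3 ^ w.length :=
      Nat.mul_le_mul_right _ ((min_le_right _ _).trans Nat.one_le_two_pow)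
    have h2 : 2 ^ a * cw w ≤ 2 ^ (a + w.sum) * 3 ^ w.length := by
      rw [pow_add, mul_assoc]
      exact Nat.mul_le_mul_left _ ih
    rw [pow_succ 3, ← mul_assoc]
    omega

section Field

variable {K : Type} [Field K] [CharZero K]

omit [CharZero K] in
theorem EW_zero (f : List ℕ → K) : EW 0 f = f [] := by simp [EW, wds]

theorem EW_succ (H : ℕ) (f : List ℕ → K) : EW (H + 1) f =
    (EW H (fun w => f (0 :: w)) + EW H (fun w => f (1 :: w)) + EW H (fun w => f (2 :: w))) / 3 := by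
  simp only [EW, sum_wds_succ]
  field_simp
  ring

theorem EW_append (H L : ℕ) (f : List ℕ → K) :
    EW (H + L) f = EW H fun w => EW L fun v => f (w ++ v) := by
  simp only [EW, sum_wds_add, ← sum_div]
  field_simp
  ring

omit [CharZero K] in
theorem EW_congr {H : ℕ} {f g : List ℕ → K} (h : ∀ w ∈ wds H, f w = g w) : EW H f = EW H g := by
  rw [EW, EW, sum_congr rfl h]

theorem EW_const (H : ℕ) (c : K) : EW H (fun _ => c) = c := by
  simp only [EW, sum_const, card_wds, nsmul_eq_mul]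
  push_cast
  field_simp

omit [CharZero K] in
theorem EW_add (H : ℕ) (f g : List ℕ → K) :
    EW H (fun w => f w + g w) = EW H f + EW H g := by
  simp only [EW, sum_add_distrib, add_div]

omit [CharZero K] in
theorem EW_sub (H : ℕ) (f g : List ℕ → K) :
    EW H (fun w => f w - g w) = EW H f - EW H g := by
  simp only [EW, sum_sub_distrib, sub_div]

omit [CharZero K] in
theorem EW_mul (H : ℕ) (c : K) (f : List ℕ → K) : EW H (fun w => c * f w) = c * EW H f := by
  simp only [EW, ← mul_sum, mul_div_assoc]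

omit [CharZero K] in
theorem EW_mul' (H : ℕ) (c : K) (f : List ℕ → K) : EW H (fun w => f w * c) = EW H f * c := by
  simp only [EW, ← sum_mul]
  ring

omit [CharZero K] in
theorem EW_sum {ι : Type} (H : ℕ) (s : Finset ι) (f : ι → List ℕ → K) :
    EW H (fun w => ∑ i ∈ s, f i w) = ∑ i ∈ s, EW H (f i) := by
  simp only [EW, ← sum_div]
  rw [sum_comm]

omit [CharZero K] in
theorem EW_comm (H L : ℕ) (f : List ℕ → List ℕ → K) :
    EW H (fun w => EW L fun v => f w v) = EW L fun v => EW H fun w => f w v := by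
  simp only [EW, ← sum_div]
  rw [sum_comm]
  ring

theorem EW_pow (H : ℕ) (z : K) : EW H (fun w => z ^ w.sum) = ((1 + z + z ^ 2) / 3) ^ H := by
  induction H with
  | zero => simp [EW_zero]
  | succ H ih =>
    simp only [EW_succ, List.sum_cons, pow_add, EW_mul, ih]
    ring

theorem EW_cw (H : ℕ) : EW H (fun w => (cw w : ℝ)) ≤ 3 ^ H := by
  induction H with
  | zero => simp [EW_zero, cw]
  | succ H ih =>
    rw [EW_succ]
    have h : ∀ a : ℕ, EW H (fun w => (cw (a :: w) : ℝ)) =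
        2 ^ a * EW H (fun w => (cw w : ℝ)) + (min a 1 : ℕ) * 3 ^ H := fun a => by
      rw [← EW_mul, ← EW_const H (((min a 1 : ℕ) : ℝ) * 3 ^ H), ← EW_add]
      refine EW_congr fun w hw => ?_
      rw [cw, (mem_wds.1 hw).1]
      push_cast
      rfl
    rw [h, h, h, pow_succ (3 : ℝ)]
    norm_num
    linarith

theorem exchange (M : ℕ) (h : ℕ → K) :
    EW M (fun w => (w.count 0 : K) * h (w.sum + 1)) = EW M fun w => (w.count 1 : K) * h w.sum := by
  induction M generalizing h with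
  | zero => simp [EW_zero]
  | succ M ih =>
    have h1 := ih fun j => h j
    have h2 := ih fun j => h (j + 1)
    have h3 := ih fun j => h (j + 2)
    simp only [EW_succ, List.sum_cons, List.count_cons]
    norm_num
    simp only [add_mul, one_mul, EW_add, add_comm 1, add_comm 2, add_right_comm _ 2 1] at *
    rw [h1, h2, h3]
    ring

theorem EW_count (M b : ℕ) (hb : b < 3) :
    EW M (fun w => (w.count b : ℝ)) = M / 3 ∧
      EW M (fun w => ((w.count b : ℝ) - M / 3) ^ 2) = (2 * M / 9 : ℝ) := by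
  induction M with
  | zero => simp [EW_zero]
  | succ M ih =>
    obtain ⟨h1, h2⟩ := ih
    have h3 : ∀ c : ℝ, EW M (fun w => (w.count b : ℝ) + c) = M / 3 + c := fun c => by
      rw [EW_add, h1, EW_const]
    have h4 : ∀ c : ℝ, EW M (fun w => ((w.count b : ℝ) + c - (M + 1 : ℕ) / 3) ^ 2) =
        2 * M / 9 + (c - 1 / 3) ^ 2 := fun c => by
      have : ∀ w : List ℕ, ((w.count b : ℝ) + c - (M + 1 : ℕ) / 3) ^ 2 =
          ((w.count b : ℝ) - M / 3) ^ 2 + (2 * (c - 1 / 3) * ((w.count b : ℝ) + (- (M / 3))) +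
            (c - 1 / 3) ^ 2) := fun w => by
        push_cast
        ring
      simp only [this, EW_add, EW_mul, h1, h2, EW_const]
      ring
    simp only [EW_succ, List.count_cons, Nat.cast_add _ (ite _ _ _), h3, h4]
    interval_cases b <;> norm_num <;> constructor <;> ring

end Field

theorem EW_mono {H : ℕ} {f g : List ℕ → ℝ} (h : ∀ w ∈ wds H, f w ≤ g w) : EW H f ≤ EW H g :=
  div_le_div_of_nonneg_right (sum_le_sum h) (by positivity)

theorem EW_nonneg {H : ℕ} {f : List ℕ → ℝ} (h : ∀ w ∈ wds H, 0 ≤ f w) : 0 ≤ EW H f :=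
  div_nonneg (sum_nonneg h) (by positivity)

theorem norm_EW_le (H : ℕ) (f : List ℕ → ℂ) : ‖EW H f‖ ≤ EW H fun w => ‖f w‖ := by
  rw [EW, EW, norm_div, norm_pow, Complex.norm_ofNat]
  exact div_le_div_of_nonneg_right (norm_sum_le _ _) (by positivity)

theorem ofReal_EW (H : ℕ) (f : List ℕ → ℝ) : ((EW H f : ℝ) : ℂ) = EW H fun w => (f w : ℂ) := by
  simp [EW]

/-- The sum of a long word is almost invariant under a shift. -/
theorem shift_le {γ : ℝ} (hγ : 0 < γ) {M : ℕ} (hM : 8 / γ ^ 2 ≤ M) (h : ℕ → ℂ)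
    (hh : ∀ j, ‖h j‖ ≤ 1) : ‖EW M (fun w => h (w.sum + 1)) - EW M (fun w => h w.sum)‖ ≤ γ := by
  have hM0 : (0 : ℝ) < M := lt_of_lt_of_le (by positivity) hM
  have key : ∀ b < 3, ∀ g : List ℕ → ℂ, (∀ w, ‖g w‖ ≤ 1) →
      ‖EW M fun w => ((w.count b : ℂ) - M / 3) * g w‖ ≤ γ * M / 6 := by
    intro b hb g hg
    refine (norm_EW_le _ _).trans ((EW_mono (g := fun w =>
      3 * γ / 8 * ((w.count b : ℝ) - M / 3) ^ 2 + 2 / (3 * γ)) fun w _ => ?_).trans ?_)
    · rw [norm_mul, show ((w.count b : ℂ) - M / 3) = (((w.count b : ℝ) - M / 3 : ℝ) : ℂ) by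
        push_cast; rfl, Complex.norm_real, Real.norm_eq_abs, ← sq_abs]
      generalize hx : |(w.count b : ℝ) - M / 3| = x
      have h0 : 0 ≤ x := hx ▸ abs_nonneg _
      refine (mul_le_of_le_one_right h0 (hg w)).trans ?_
      rw [← sub_nonneg, show 3 * γ / 8 * x ^ 2 + 2 / (3 * γ) - x =
        (3 * γ * x - 4) ^ 2 / (24 * γ) by field_simp; ring]
      positivity
    · rw [EW_add, EW_mul, (EW_count M b hb).2, EW_const]
      rw [div_le_iff₀ (by positivity)] at hM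
      have : 2 / (3 * γ) ≤ γ * M / 12 := by
        rw [div_le_div_iff₀ (by positivity) (by positivity)]
        nlinarith
      linarith
  have h0 := key 0 (by norm_num) (fun w => h (w.sum + 1)) fun w => hh _
  have h1 := key 1 (by norm_num) (fun w => h w.sum) fun w => hh _
  simp only [sub_mul, EW_sub, EW_mul] at h0 h1
  rw [exchange] at h0
  have h2 := (norm_sub_le _ _).trans (add_le_add h1 h0)
  rw [sub_sub_sub_cancel_left, ← mul_sub, norm_mul, norm_div, Complex.norm_natCast,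
    Complex.norm_ofNat] at h2
  have h3 : (M : ℝ) / 3 * ‖EW M (fun w => h (w.sum + 1)) - EW M (fun w => h w.sum)‖ ≤
      M / 3 * γ := by linarith
  exact le_of_mul_le_mul_left h3 (by positivity)

end Pool.Agent.MP_2e2529_nt

end

section

/-! The evolution of Fourier coefficients on `ZMod (2 ^ n)`. -/

namespace Pool.Agent.MP_2e2529_nt

open Finset Real

abbrev R (n : ℕ) : Type := ZMod (2 ^ n)

noncomputable def ee (n : ℕ) : AddChar (R n) ℂ := ZMod.stdAddChar

noncomputable def th (n : ℕ) : R n := (3 : R n)⁻¹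

variable {n : ℕ}

noncomputable def Ev (s : ℕ) (G : ℤ → R n → ℂ) (a : ℤ) (η : R n) : ℂ :=
  EW s fun w => ee n (η * th n ^ s * cw w) * G (a - w.sum) (2 ^ w.sum * th n ^ s * η)

def NB (G : ℤ → R n → ℂ) (η : R n) (q : ℝ) : Prop := ∀ S : Finset ℤ, ∑ a ∈ S, ‖G a η‖ ≤ q

noncomputable def coef (s d : ℕ) (η : R n) : ℂ :=
  EW s fun w => if w.sum = d then ee n (η * th n ^ s * cw w) else 0

noncomputable def Om (m : ℤ) : ℂ := Complex.exp (2 * π * Complex.I * m / 3)

theorem three_th (n : ℕ) : 3 * th n = 1 := by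
  have := ZMod.coe_mul_inv_eq_one (n := 2 ^ n) 3 (Nat.Coprime.pow_right n (by norm_num))
  exact_mod_cast this

theorem pow_th (n s : ℕ) : 3 ^ s * th n ^ s = 1 := by rw [← mul_pow, three_th, one_pow]

theorem th_ne {s : ℕ} {x : R n} (h : x ≠ 0) : th n ^ s * x ≠ 0 := fun e =>
  h (by rw [← one_mul x, ← pow_th n s, mul_assoc, e, mul_zero])

theorem norm_ee (x : R n) : ‖ee n x‖ = 1 := by
  rw [ee, ZMod.stdAddChar_apply, Circle.norm_coe]

theorem ee_add (x y : R n) : ee n (x + y) = ee n x * ee n y := AddChar.map_add_eq_mul _ _ _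

theorem ee_int (W : ℤ) : ee n W = Complex.exp (Complex.I * (2 * π * W / 2 ^ n : ℝ)) := by
  rw [ee, ZMod.stdAddChar_coe]
  congr 1
  push_cast
  ring

theorem ee_sub_one (W : ℤ) : ‖ee n W - 1‖ ≤ 7 * |(W : ℝ)| / 2 ^ n := by
  rw [ee_int]
  refine norm_exp_I_mul_ofReal_sub_one_le.trans ?_
  rw [Real.norm_eq_abs, abs_div, abs_mul, abs_of_pos two_pi_pos,
    abs_of_pos (by positivity : (0 : ℝ) < 2 ^ n)]
  gcongr
  linarith [pi_lt_d2]

theorem norm_Om (m : ℤ) : ‖Om m‖ = 1 := by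
  rw [Om, show 2 * π * Complex.I * m / 3 = (2 * π * m / 3 : ℝ) * Complex.I by push_cast; ring,
    Complex.norm_exp_ofReal_mul_I]

theorem Om_two (m : ℤ) : Om (2 * m) = Om m ^ 2 := by
  rw [Om, Om, ← Complex.exp_nat_mul]
  congr 1
  push_cast
  ring

theorem Om_sum {m : ℤ} (h : ¬ 3 ∣ m) : 1 + Om m + Om m ^ 2 = 0 := by
  have h1 : Om m ^ 3 = 1 := by
    rw [Om, ← Complex.exp_nat_mul, Complex.exp_eq_one_iff]
    exact ⟨m, by push_cast; ring⟩
  have h2 : Om m - 1 ≠ 0 := by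
    rw [sub_ne_zero, Ne, Om, Complex.exp_eq_one_iff]
    rintro ⟨k, hk⟩
    refine h ⟨k, ?_⟩
    have h3 := Complex.two_pi_I_ne_zero
    have : (m : ℂ) = 3 * k := by
      apply mul_left_cancel₀ h3
      linear_combination 3 * hk
    exact_mod_cast this
  apply mul_left_cancel₀ h2
  linear_combination h1

theorem exists_inv3 (n : ℕ) : ∃ j : ℤ, ¬ 3 ∣ j ∧ ∀ W : ℤ,
    ‖ee n (W * th n) - Om (j * W)‖ ≤ 7 * |(W : ℝ)| / (3 * 2 ^ n) := by
  obtain ⟨I, hI⟩ := ZMod.intCast_surjective (th n)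
  have h1 : ((3 * I - 1 : ℤ) : R n) = 0 := by
    push_cast
    rw [hI, three_th, sub_self]
  obtain ⟨j, hj⟩ := (ZMod.intCast_zmod_eq_zero_iff_dvd _ _).1 h1
  refine ⟨j, fun ⟨k, hk⟩ => ?_, fun W => ?_⟩
  · rw [hk, mul_left_comm] at hj
    omega
  · have h2 : ee n (W * th n) =
        Complex.exp (Complex.I * (2 * π * W / (3 * 2 ^ n) : ℝ)) * Om (j * W) := by
      rw [← hI, ← Int.cast_mul, ee_int, Om, ← Complex.exp_add]
      congr 1
      have h3 : (I : ℂ) = (1 + 2 ^ n * j) / 3 := by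
        have : ((3 * I - 1 : ℤ) : ℂ) = (((2 ^ n : ℕ) : ℤ) * j : ℤ) := by rw [hj]
        push_cast at this
        linear_combination this / 3
      push_cast
      rw [h3]
      field_simp
    rw [h2, ← sub_one_mul, norm_mul, norm_Om, mul_one]
    refine norm_exp_I_mul_ofReal_sub_one_le.trans ?_
    rw [Real.norm_eq_abs, abs_div, abs_mul, abs_of_pos two_pi_pos,
      abs_of_pos (by positivity : (0 : ℝ) < 3 * 2 ^ n)]
    gcongr
    linarith [pi_lt_d2]

theorem Ev_zero (G : ℤ → R n → ℂ) : Ev 0 G = G := by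
  funext a η
  simp [Ev, EW_zero, cw]

theorem Ev_add (s l : ℕ) (G : ℤ → R n → ℂ) : Ev (s + l) G = Ev s (Ev l G) := by
  funext a η
  simp only [Ev, EW_append, ← EW_mul]
  refine EW_congr fun w _ => EW_congr fun v hv => ?_
  rw [← mul_assoc, ← ee_add, cw_append, (mem_wds.1 hv).1, List.sum_append]
  push_cast
  congr 2
  · linear_combination η * th n ^ s * cw w * pow_th n l
  · ring
  · ring

theorem Ev_sub (s : ℕ) (G G' : ℤ → R n → ℂ) (a : ℤ) (η : R n) :
    Ev s (fun a η => G a η - G' a η) a η = Ev s G a η - Ev s G' a η := by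
  simp only [Ev, mul_sub, EW_sub]

theorem NB.nonneg {G : ℤ → R n → ℂ} {η : R n} {q : ℝ} (h : NB G η q) : 0 ≤ q := by
  simpa using h ∅

theorem NB.mono {G : ℤ → R n → ℂ} {η : R n} {q q' : ℝ} (h : NB G η q) (hq : q ≤ q') :
    NB G η q' := fun S => (h S).trans hq

theorem NB.shift {G : ℤ → R n → ℂ} {η : R n} {q : ℝ} (h : NB G η q) (S : Finset ℤ) (d : ℤ) :
    ∑ a ∈ S, ‖G (a - d) η‖ ≤ q := by
  have := h (S.image fun a => a - d)
  rwa [sum_image fun a _ b _ e => sub_left_injective e] at this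

theorem NB.sub {G G' : ℤ → R n → ℂ} {η : R n} {q q' : ℝ} (h : NB G η q) (h' : NB G' η q') :
    NB (fun a η => G a η - G' a η) η (q + q') := fun S =>
  (sum_le_sum fun _ _ => norm_sub_le _ _).trans (by rw [sum_add_distrib]; linarith [h S, h' S])

theorem NB_zero {G : ℤ → R n → ℂ} {η : R n} (h : ∀ a, G a η = 0) : NB G η 0 := fun S => by
  simp [h]

theorem NB_word {s : ℕ} {G : ℤ → R n → ℂ} {η : R n} {q : List ℕ → ℝ}
    (h : ∀ w ∈ wds s, NB G (2 ^ w.sum * th n ^ s * η) (q w)) : NB (Ev s G) η (EW s q) := by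
  intro S
  refine (sum_le_sum fun a _ => norm_EW_le _ _).trans ?_
  rw [← EW_sum]
  refine EW_mono fun w hw => ?_
  simp only [norm_mul, norm_ee, one_mul]
  exact (h w hw).shift S _

theorem Ev_coef (s : ℕ) (G : ℤ → R n → ℂ) (a : ℤ) (η : R n) : Ev s G a η =
    ∑ d ∈ range (2 * s + 1), coef s d η * G (a - d) (2 ^ d * th n ^ s * η) := by
  simp only [coef, ← EW_mul', ← EW_sum]
  refine EW_congr fun w hw => ?_
  rw [sum_eq_single_of_mem w.sum (mem_range.2 (Nat.lt_succ_of_le (sum_le_of_mem hw))), if_pos rfl]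
  intro d _ hd
  rw [if_neg (Ne.symm hd), zero_mul]

theorem NB_coef {s : ℕ} {G : ℤ → R n → ℂ} {η : R n} {q g : ℝ}
    (h : ∀ d ≤ 2 * s, NB G (2 ^ d * th n ^ s * η) q)
    (hg : ∑ d ∈ range (2 * s + 1), ‖coef s d η‖ ≤ g) : NB (Ev s G) η (g * q) := by
  intro S
  simp only [Ev_coef]
  refine (sum_le_sum fun a _ => norm_sum_le _ _).trans ?_
  rw [sum_comm]
  refine le_trans (sum_le_sum fun d hd => ?_)
    ((sum_mul _ _ q).symm.le.trans (mul_le_mul_of_nonneg_right hg (h 0 (Nat.zero_le _)).nonneg))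
  simp only [norm_mul, ← mul_sum]
  exact mul_le_mul_of_nonneg_left ((h d (Nat.le_of_lt_succ (mem_range.1 hd))).shift S _)
    (norm_nonneg _)

theorem coef_two (η : R n) : ∑ d ∈ range (2 * 2 + 1), ‖coef 2 d η‖ ≤
    (7 + ‖1 + ee n (2 * th n ^ 2 * η)‖) / 9 := by
  have h3 : ∀ x y z : R n, ‖ee n x + ee n y + ee n z‖ ≤ 3 := fun x y z =>
    norm_add₃_le.trans (by rw [norm_ee, norm_ee, norm_ee]; norm_num)
  have h2 : ∀ x y : R n, ‖ee n x + ee n y‖ ≤ 2 := fun x y =>
    (norm_add_le _ _).trans (by rw [norm_ee, norm_ee]; norm_num)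
  have h1 : ‖ee n (η * th n ^ 2) + ee n (η * th n ^ 2 * 3)‖ = ‖1 + ee n (2 * th n ^ 2 * η)‖ := by
    rw [show η * th n ^ 2 * 3 = η * th n ^ 2 + 2 * th n ^ 2 * η by ring, ee_add, ← mul_one_add,
      norm_mul, norm_ee, one_mul]
  simp only [sum_range_succ, coef, EW_succ, EW_zero, cw]
  norm_num
  simp only [← add_div, norm_div, Complex.norm_ofNat, h1]
  linarith [h3 (η * th n ^ 2) (η * th n ^ 2 * 5) (η * th n ^ 2 * 3),
    h2 (η * th n ^ 2 * 5) (η * th n ^ 2 * 7)]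

theorem coef_block {γ : ℝ} (hγ : 0 < γ) {M : ℕ} (hM : 8 / γ ^ 2 ≤ M) {V : ℤ} (hV : ¬ 3 ∣ V) :
    ∑ d ∈ range (2 * (M + 1) + 1), ‖coef (M + 1) d (3 ^ M * V : R n)‖ ≤
      γ + 14 * 12 ^ M * |(V : ℝ)| / 2 ^ n := by
  choose h hh hc using fun d => Complex.exists_norm_eq_mul_self (coef (M + 1) d (3 ^ M * V : R n))
  obtain ⟨j, hj, hW⟩ := exists_inv3 n
  have e1 : ((∑ d ∈ range (2 * (M + 1) + 1), ‖coef (M + 1) d (3 ^ M * V : R n)‖ : ℝ) : ℂ) =
      EW M fun w => (h w.sum * ee n ((V * cw w : ℤ) : R n) + (h (w.sum + 1) + h (w.sum + 2)) *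
        (ee n ((V * cw w : ℤ) : R n) * ee n (((2 ^ w.sum * V : ℤ) : R n) * th n))) / 3 := by
    have e2 : ∀ (w : List ℕ) (b : ℕ), (3 ^ M * V : R n) * th n ^ (M + 1) * cw (w ++ [b]) =
        ((V * cw w : ℤ) : R n) + (min b 1 : ℕ) * (((2 ^ w.sum * V : ℤ) : R n) * th n) := by
      intro w b
      rw [cw_append]
      simp only [cw, List.length_nil, List.length_cons]
      push_cast
      linear_combination (V * th n * (2 ^ w.sum * (min b 1 : ℕ) + 3 * cw w)) * pow_th n M +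
        V * cw w * three_th n
    rw [Complex.ofReal_sum]
    simp only [hc]
    simp only [coef, ← EW_mul, ← EW_sum]
    rw [EW_congr (g := fun w => h w.sum * ee n ((3 ^ M * V : R n) * th n ^ (M + 1) * cw w)),
      EW_append]
    · refine EW_congr fun w _ => ?_
      simp only [EW_succ, EW_zero, e2, ee_add, List.sum_append]
      norm_num
      ring
    · intro w hw
      rw [sum_eq_single_of_mem w.sum (mem_range.2 (Nat.lt_succ_of_le (sum_le_of_mem hw))),
        if_pos rfl]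
      intro d _ hd
      rw [if_neg (Ne.symm hd), mul_zero]
  have e3 : ‖EW M fun w => (h w.sum + (h (w.sum + 1) + h (w.sum + 2)) *
      Om (j * (2 ^ w.sum * V))) / 3‖ ≤ γ := by
    have a1 := shift_le hγ hM h fun d => (hh d).le
    have a2 := shift_le hγ hM (fun d => h (d + 1)) fun d => (hh _).le
    have a3 := shift_le hγ hM (fun d => h (d + 1) * Om (j * (2 ^ d * V))) fun d => by
      rw [norm_mul, hh, norm_Om, one_mul]
    have a4 : EW M (fun w => h (w.sum + 1 + 1)) +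
        EW M (fun w => h (w.sum + 1 + 1) * Om (j * (2 ^ (w.sum + 1) * V))) +
        EW M (fun w => h (w.sum + 2) * Om (j * (2 ^ w.sum * V))) = 0 := by
      rw [← EW_add, ← EW_add, ← EW_const M (0 : ℂ)]
      refine EW_congr fun w _ => ?_
      have a5 : ¬ 3 ∣ j * (2 ^ w.sum * V) := by
        intro a
        rcases Int.prime_three.dvd_or_dvd a with a | a
        · exact hj a
        · rcases Int.prime_three.dvd_or_dvd a with a | a
          · exact absurd (Int.prime_three.dvd_of_dvd_pow a) (by norm_num)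
          · exact hV a
      rw [show j * (2 ^ (w.sum + 1) * V) = 2 * (j * (2 ^ w.sum * V)) by ring, Om_two]
      linear_combination h (w.sum + 2) * Om_sum a5
    simp only [div_eq_mul_inv, EW_mul', add_mul, EW_add]
    have a6 := norm_add₃_le.trans (add_le_add (add_le_add a1 a2) a3)
    rw [← norm_neg] at a6
    rw [← add_mul, ← add_mul, norm_mul, norm_inv, Complex.norm_ofNat]
    have a7 : ∀ x y : ℂ, x = y → ‖y‖ ≤ γ + γ + γ → ‖x‖ * 3⁻¹ ≤ γ := by
      rintro x y rfl a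
      linarith
    exact a7 _ _ (by linear_combination a4) a6
  have e4 := congrArg (fun z : ℂ => ‖z‖) e1
  rw [Complex.norm_real, Real.norm_of_nonneg (sum_nonneg fun _ _ => norm_nonneg _)] at e4
  rw [e4]
  refine (norm_le_insert' _ _).trans (add_le_add e3 ?_)
  rw [← EW_sub, ← EW_const M (14 * 12 ^ M * |(V : ℝ)| / 2 ^ n)]
  refine (norm_EW_le _ _).trans (EW_mono fun w hw => ?_)
  have b1 : (2 : ℝ) ^ w.sum ≤ 4 ^ M := by
    rw [show (4 : ℝ) = 2 ^ 2 by norm_num, ← pow_mul]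
    exact pow_le_pow_right₀ one_le_two (sum_le_of_mem hw)
  have b2 : (cw w : ℝ) ≤ 12 ^ M := by
    have : (cw w : ℝ) ≤ 2 ^ w.sum * 3 ^ M := by exact_mod_cast (mem_wds.1 hw).1 ▸ cw_le w
    rw [show (12 : ℝ) = 4 * 3 by norm_num, mul_pow]
    exact this.trans (by gcongr)
  have b3 : (4 : ℝ) ^ M ≤ 12 ^ M := by gcongr; norm_num
  have b4 : ‖ee n ((V * cw w : ℤ) : R n) - 1‖ ≤ 7 * 12 ^ M * |(V : ℝ)| / 2 ^ n := by
    refine (ee_sub_one _).trans ?_
    push_cast
    rw [abs_mul, Nat.abs_cast, mul_comm |(V : ℝ)|, ← mul_assoc]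
    gcongr
  have b5 : ‖ee n (((2 ^ w.sum * V : ℤ) : R n) * th n) - Om (j * (2 ^ w.sum * V))‖ ≤
      7 * 12 ^ M * |(V : ℝ)| / 2 ^ n := by
    refine (hW _).trans ?_
    push_cast
    rw [abs_mul, abs_of_pos (by positivity : (0 : ℝ) < 2 ^ w.sum), ← mul_assoc]
    gcongr
    · exact b1.trans b3
    · linarith [show (0 : ℝ) < 2 ^ n by positivity]
  generalize ee n ((V * cw w : ℤ) : R n) = x at *
  have b6 := norm_ee (((2 ^ w.sum * V : ℤ) : R n) * th n)
  generalize ee n (((2 ^ w.sum * V : ℤ) : R n) * th n) = y at *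
  generalize Om (j * (2 ^ w.sum * V)) = o at *
  rw [show (h w.sum * x + (h (w.sum + 1) + h (w.sum + 2)) * (x * y)) / 3 -
      (h w.sum + (h (w.sum + 1) + h (w.sum + 2)) * o) / 3 =
      (h w.sum * (x - 1) + (h (w.sum + 1) + h (w.sum + 2)) * ((x - 1) * y + (y - o))) / 3 by ring,
    norm_div, Complex.norm_ofNat]
  have b7 : ‖h (w.sum + 1) + h (w.sum + 2)‖ ≤ 2 :=
    (norm_add_le _ _).trans (by rw [hh, hh]; norm_num)
  have b8 : ‖(x - 1) * y + (y - o)‖ ≤ ‖x - 1‖ + ‖y - o‖ :=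
    (norm_add_le _ _).trans (by rw [norm_mul, b6, mul_one])
  have b9 := norm_add_le (h w.sum * (x - 1))
    ((h (w.sum + 1) + h (w.sum + 2)) * ((x - 1) * y + (y - o)))
  rw [norm_mul, norm_mul, hh, one_mul] at b9
  have b10 := mul_le_mul b7 b8 (norm_nonneg _) zero_le_two
  have b11 : 14 * 12 ^ M * |(V : ℝ)| / 2 ^ n = 2 * (7 * 12 ^ M * |(V : ℝ)| / 2 ^ n) := by ring
  linarith [norm_nonneg (x - 1)]

end Pool.Agent.MP_2e2529_nt

end

section

/-! Decay of the Fourier coefficients, faster than any power of the level. -/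

namespace Pool.Agent.MP_2e2529_nt

open Finset Real

variable {n : ℕ}

def Adm (G : ℤ → R n → ℂ) : Prop := (∀ η, NB G η 1) ∧ ∀ a η, 2 * η ≠ 0 → G a η = 0

theorem polyK (α : ℕ) {ρ : ℝ} (h0 : 0 < ρ) (h1 : ρ < 1) :
    ∃ K : ℝ, 0 ≤ K ∧ ∀ r : ℕ, ρ ^ r ≤ K / (r + 1) ^ α := by
  obtain ⟨K, hK⟩ := (tendsto_pow_const_mul_const_pow_of_abs_lt_one α
    (show |ρ| < 1 by rwa [abs_of_pos h0])).bddAbove_range
  have h2 : ∀ r : ℕ, ((r : ℝ) + 1) ^ α * ρ ^ (r + 1) ≤ K := fun r => by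
    have := hK (Set.mem_range_self (r + 1))
    push_cast at this
    exact this
  refine ⟨K / ρ, div_nonneg (le_trans (by positivity) (h2 0)) h0.le, fun r => ?_⟩
  rw [le_div_iff₀ (by positivity), le_div_iff₀ h0]
  linarith [h2 r, pow_succ ρ r ▸ h2 r]

theorem tailK (α : ℕ) : ∃ K : ℝ, 0 ≤ K ∧ ∀ r s L x : ℕ, 3 ^ L ≤ 2 ^ r → s ≤ L + 2 →
    9 * r ≤ 10 * x → (7 / 3 : ℝ) ^ s / 2 ^ x ≤ K / (r + 1) ^ α := by
  obtain ⟨K, h0, hK⟩ := polyK α (ρ := 47 / 50) (by norm_num) (by norm_num)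
  refine ⟨6 * K, by positivity, fun r s L x h1 h2 h3 => ?_⟩
  have h4 : (7 / 3 : ℝ) ^ L / 2 ^ x ≤ (47 / 50) ^ r := by
    refine (pow_le_pow_iff_left₀ (by positivity) (by positivity) (show 10 ≠ 0 by norm_num)).1 ?_
    have a1 : ((7 / 3 : ℝ) ^ L) ^ 10 ≤ (2 ^ r) ^ 8 := by
      have : ((3 : ℝ) ^ L) ^ 8 ≤ (2 ^ r) ^ 8 := by
        gcongr
        exact_mod_cast h1
      refine le_trans ?_ this
      rw [← pow_mul, ← pow_mul, mul_comm L, mul_comm L, pow_mul, pow_mul]
      gcongr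
      norm_num
    have a2 : ((2 : ℝ) ^ r) ^ 9 ≤ (2 ^ x) ^ 10 := by
      rw [← pow_mul, ← pow_mul]
      exact pow_le_pow_right₀ one_le_two (by omega)
    have a3 : (1 : ℝ) ≤ ((47 / 50) ^ r) ^ 10 * 2 ^ r := by
      rw [← pow_mul, mul_comm r, pow_mul, ← mul_pow]
      exact one_le_pow₀ (by norm_num)
    rw [div_pow, div_le_iff₀ (by positivity)]
    calc ((7 / 3 : ℝ) ^ L) ^ 10 ≤ 1 * (2 ^ r) ^ 8 := by rwa [one_mul]
      _ ≤ (((47 / 50) ^ r) ^ 10 * 2 ^ r) * (2 ^ r) ^ 8 := by gcongr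
      _ = ((47 / 50) ^ r) ^ 10 * (2 ^ r) ^ 9 := by ring
      _ ≤ _ := by gcongr
  calc (7 / 3 : ℝ) ^ s / 2 ^ x ≤ (7 / 3) ^ (L + 2) / 2 ^ x := by gcongr; norm_num
    _ = (7 / 3) ^ 2 * ((7 / 3) ^ L / 2 ^ x) := by ring
    _ ≤ 6 * (K / (r + 1) ^ α) :=
      mul_le_mul (by norm_num) (h4.trans (hK r)) (by positivity) (by norm_num)
    _ = _ := by ring

theorem lv_ne {r d r' s : ℕ} {η : R n} (h : 2 ^ r * η ≠ 0) (hr : d + r' ≤ r) :
    2 ^ r' * (2 ^ d * th n ^ s * η) ≠ 0 := by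
  obtain ⟨c, rfl⟩ := Nat.exists_eq_add_of_le hr
  intro e
  exact th_ne (s := s) h (by linear_combination 2 ^ c * e)

theorem Adm.one {G : ℤ → R n → ℂ} (h : Adm G) (l : ℕ) (η : R n) : NB (Ev l G) η 1 := by
  rw [← EW_const l (1 : ℝ)]
  exact NB_word fun w _ => h.1 _

theorem Adm.small {G : ℤ → R n → ℂ} (h : Adm G) (l : ℕ) {r : ℕ} {η : R n} (hη : 2 ^ r * η ≠ 0) :
    NB (Ev l G) η ((7 / 3) ^ l / 2 ^ r) := by
  have := EW_pow l (2 : ℝ)
  norm_num at this
  rw [← this, div_eq_mul_inv, ← EW_mul']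
  refine NB_word fun w _ => ?_
  by_cases e : r ≤ w.sum
  · refine (h.1 _).mono ?_
    rw [← div_eq_mul_inv, one_le_div (by positivity)]
    exact pow_le_pow_right₀ one_le_two e
  · refine (NB_zero fun a => h.2 a _ ?_).mono (by positivity)
    simpa using lv_ne (d := w.sum) (r' := 1) (s := l) hη (by omega)

theorem white {t ε : ℝ} (h1 : |t| ≤ 1 / 2) (h2 : ε ≤ |t|) (h3 : 0 ≤ ε) :
    ‖1 + Complex.exp (Complex.I * (2 * π * t : ℝ))‖ ≤ 2 - 4 * ε ^ 2 := by
  have a1 : |2 * π * t| ≤ π := by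
    rw [abs_mul, abs_of_pos two_pi_pos]
    nlinarith [pi_pos]
  have a2 := cos_le_one_sub_mul_cos_sq a1
  rw [show 2 / π ^ 2 * (2 * π * t) ^ 2 = 8 * t ^ 2 by field_simp; ring] at a2
  have a3 : ε ^ 2 ≤ t ^ 2 := by rw [← sq_abs t]; gcongr
  refine le_trans (le_abs_self _) (abs_le_of_sq_le_sq ?_ (by nlinarith))
  rw [Complex.sq_norm, Complex.normSq_apply, mul_comm Complex.I]
  simp only [Complex.add_re, Complex.one_re, Complex.exp_ofReal_mul_I_re, Complex.add_im,
    Complex.one_im, Complex.exp_ofReal_mul_I_im]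
  nlinarith [sin_sq_add_cos_sq (2 * π * t), sq_nonneg (ε ^ 2)]

section

variable {G : ℤ → R n → ℂ} {φ : ℕ → ℝ} {l r r' : ℕ} {η : R n}

theorem gain (ih : ∀ l' < l, ∀ η r, 2 ^ r * η ≠ 0 → NB (Ev l' G) η (φ r)) (hη : 2 ^ r * η ≠ 0)
    {j : ℕ} {κ : ℝ} (hj : j + 2 ≤ l) (hr : 2 * j + 4 + r' ≤ r)
    (h : ‖1 + ee n (th n ^ j * (2 * th n ^ 2 * η))‖ ≤ 2 - κ) :
    NB (Ev l G) η ((1 - κ / 9 * (1 / 3) ^ j) * φ r') := by
  obtain ⟨l', rfl⟩ := Nat.exists_eq_add_of_le hj
  have := EW_pow j (0 : ℝ)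
  norm_num at this
  rw [← this, ← EW_mul, ← EW_const j (1 : ℝ), ← EW_sub, ← EW_mul', add_assoc, Ev_add, Ev_add]
  refine NB_word fun w hw => NB_coef (fun d hd => ih l' (by omega) _ r' ?_) ((coef_two _).trans ?_)
  · have := sum_le_of_mem hw
    exact lv_ne (lv_ne (r' := d + r') hη (by omega)) le_rfl
  · by_cases e : w.sum = 0
    · rw [e, show 2 * th n ^ 2 * (2 ^ 0 * th n ^ j * η) = th n ^ j * (2 * th n ^ 2 * η) by ring]
      simp only [pow_zero]
      linarith
    · rw [zero_pow e]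
      have := norm_add_le 1 (ee n (2 * th n ^ 2 * (2 ^ w.sum * th n ^ j * η)))
      rw [norm_one, norm_ee] at this
      linarith

theorem long (hG : Adm G) (ih : ∀ l' < l, ∀ η r, 2 ^ r * η ≠ 0 → NB (Ev l' G) η (φ r))
    (hη : 2 ^ r * η ≠ 0) {γ : ℝ} (hγ : 0 < γ) {M L s x : ℕ} (hM : 8 / γ ^ 2 ≤ M) {Z : ℤ}
    (hZ : ¬ 3 ∣ Z) (hψ : 2 * th n ^ 2 * η = 3 ^ L * Z) (hs : s + M = L + 2) (hs1 : 1 ≤ s)
    (hl : L + 3 ≤ l) (hr : x + 2 * (M + 1) + r' ≤ r) :
    NB (Ev l G) η ((7 / 3) ^ s / 2 ^ x +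
      (γ + 14 * 12 ^ M * |(Z : ℝ)| / 2 ^ n * (7 / 3) ^ s + (7 / 12) ^ s) * φ r') := by
  obtain ⟨l', rfl⟩ : ∃ l', l = s + (M + 1 + l') := ⟨l - (L + 3), by omega⟩
  have a1 := EW_pow s (2 : ℝ)
  have a2 := EW_pow s (1 / 2 : ℝ)
  norm_num at a1 a2
  have h0 : 0 ≤ φ r' := (ih 0 (by omega) _ r' (lv_ne (d := 0) (s := 0) hη (by omega))).nonneg
  rw [← a2, ← a1, div_eq_mul_inv (EW _ _), ← EW_mul', ← EW_mul, ← EW_const s γ, ← EW_add, ← EW_add,
    ← EW_mul', ← EW_add, Ev_add]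
  refine NB_word fun w hw => ?_
  by_cases e : x ≤ w.sum
  · refine (hG.one _ _).mono (le_add_of_le_of_nonneg ?_ (by positivity))
    rw [← div_eq_mul_inv, one_le_div (by positivity)]
    exact pow_le_pow_right₀ one_le_two e
  cases hA : w.sum with
  | zero =>
    refine (ih _ (by omega) _ r' (lv_ne hη (by omega))).mono
      (le_add_of_nonneg_of_le (by positivity) (le_mul_of_one_le_left h0 ?_))
    rw [pow_zero (1 / 2 : ℝ)]
    exact le_add_of_nonneg_left (by positivity)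
  | succ A =>
    have b1 : 2 ^ (A + 1) * th n ^ s * η = 3 ^ M * ((2 ^ A * Z : ℤ) : R n) := by
      have b2 : (3 : R n) ^ s * 3 ^ M = 3 ^ L * 3 ^ 2 := by rw [← pow_add, ← pow_add, hs]
      push_cast
      linear_combination 2 ^ A * th n ^ s * 3 ^ 2 * hψ - 2 ^ A * th n ^ s * Z * b2 +
        3 ^ M * 2 ^ A * Z * pow_th n s - 2 ^ (A + 1) * th n ^ s * η * pow_th n 2
    have b3 : ¬ 3 ∣ 2 ^ A * Z := fun a => (Int.prime_three.dvd_or_dvd a).elim
      (fun a => absurd (Int.prime_three.dvd_of_dvd_pow a) (by norm_num)) hZ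
    have b4 := coef_block (n := n) hγ hM b3
    rw [← b1] at b4
    rw [Ev_add]
    refine (NB_coef (fun d hd => ih l' (by omega) _ r'
      (lv_ne (lv_ne (r' := d + r') hη (by omega)) le_rfl)) b4).mono
      (le_add_of_nonneg_of_le (by positivity) (mul_le_mul_of_nonneg_right ?_ h0))
    push_cast
    rw [abs_mul, abs_of_pos (by positivity : (0 : ℝ) < 2 ^ A)]
    refine le_add_of_le_of_nonneg (add_le_add le_rfl ?_) (by positivity)
    rw [pow_succ]
    have : 0 ≤ 14 * 12 ^ M * |(Z : ℝ)| / 2 ^ n * 2 ^ A := by positivity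
    calc 14 * 12 ^ M * (2 ^ A * |(Z : ℝ)|) / 2 ^ n = 14 * 12 ^ M * |(Z : ℝ)| / 2 ^ n * 2 ^ A := by
          ring
      _ ≤ _ := by linarith

end

theorem exists_top {r : ℕ} {η : R n} (hη : 2 ^ r * η ≠ 0) :
    ∃ r₁, r ≤ r₁ ∧ r₁ ≤ n ∧ 2 ^ r₁ * η ≠ 0 ∧ 2 ^ (r₁ + 1) * η = 0 := by
  classical
  have h0 : 2 ^ n * η = 0 := by
    rw [show (2 : R n) ^ n = ((2 ^ n : ℕ) : R n) by push_cast; rfl, ZMod.natCast_self, zero_mul]
  have h1 : ∃ k, 2 ^ k * η = 0 := ⟨n, h0⟩
  have h2 : r < Nat.find h1 := by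
    by_contra e
    obtain ⟨c, rfl⟩ := Nat.exists_eq_add_of_le (not_lt.1 e)
    exact hη (by linear_combination 2 ^ c * Nat.find_spec h1)
  have h3 := Nat.find_min' h1 h0
  refine ⟨Nat.find h1 - 1, by omega, by omega, Nat.find_min h1 (by omega), ?_⟩
  rw [Nat.sub_add_cancel (by omega)]
  exact Nat.find_spec h1

theorem three_pow_le {r L : ℕ} {Z : ℤ} (hr : r ≤ n) (h0 : Z ≠ 0) (h1 : Z.natAbs ≤ 2 ^ n)
    (h2 : 2 ^ r * (Z : R n) = 0) (h3 : 3 ^ L ∣ Z) : 3 ^ L ≤ 2 ^ r := by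
  obtain ⟨c, rfl⟩ := Nat.exists_eq_add_of_le hr
  have a1 : ((2 ^ r * Z : ℤ) : R (r + c)) = 0 := by push_cast; exact h2
  rw [ZMod.intCast_zmod_eq_zero_iff_dvd] at a1
  push_cast at a1
  rw [pow_add, mul_dvd_mul_iff_left (by positivity)] at a1
  have a2 : 3 ^ L * 2 ^ c ∣ Z.natAbs :=
    Nat.Coprime.mul_dvd_of_dvd_of_dvd (Nat.Coprime.pow _ _ (by norm_num))
      (Int.natCast_dvd.1 (by exact_mod_cast h3)) (Int.natCast_dvd.1 (by exact_mod_cast a1))
  have a3 := (Nat.le_of_dvd (Int.natAbs_pos.2 h0) a2).trans h1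
  rw [pow_add] at a3
  exact Nat.le_of_mul_le_mul_right a3 (by positivity)

theorem decay (α : ℕ) : ∃ C : ℝ, 0 ≤ C ∧ ∀ (n : ℕ) (G : ℤ → R n → ℂ), Adm G →
    ∀ l η r, 2 ^ r * η ≠ 0 → NB (Ev l G) η (C / (r + 1 : ℕ) ^ α) := by
  obtain ⟨K, hK0, hK⟩ := tailK α
  obtain ⟨γ, hγ, hγ1, hγ2⟩ : ∃ γ : ℝ, 0 < γ ∧ γ ≤ 1 ∧ 6 * γ * 20 ^ α = 1 :=
    ⟨1 / (6 * 20 ^ α), by positivity, by
      rw [div_le_one (by positivity)]
      linarith [one_le_pow₀ (M₀ := ℝ) (a := 20) (n := α) (by norm_num)], by field_simp⟩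
  obtain ⟨M₀, hM₀⟩ := exists_pow_lt_of_lt_one hγ (show (7 / 12 : ℝ) < 1 by norm_num)
  obtain ⟨M₁, hM₁⟩ := exists_nat_ge (8 / γ ^ 2)
  obtain ⟨M, hM2, hM, hM3⟩ : ∃ M : ℕ, 2 ≤ M ∧ 8 / γ ^ 2 ≤ M ∧ (7 / 12 : ℝ) ^ M ≤ γ :=
    ⟨M₀ + M₁ + 2, by omega, hM₁.trans (by push_cast; linarith [M₀.cast_nonneg (α := ℝ)]),
      (pow_le_pow_of_le_one (by norm_num) (by norm_num) (by omega)).trans hM₀.le⟩
  obtain ⟨ε, hε, hε1, hε2⟩ : ∃ ε : ℝ, 0 < ε ∧ ε ≤ 1 / 10 ∧ 14 * 12 ^ M * ε = γ :=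
    ⟨γ / (14 * 12 ^ M), by positivity, by
      rw [div_le_iff₀ (by positivity)]
      linarith [one_le_pow₀ (M₀ := ℝ) (a := 12) (n := M) (by norm_num)], by field_simp⟩
  obtain ⟨κ, hκ, hκ1⟩ : ∃ κ : ℝ, 0 < κ ∧ κ = 4 * ε ^ 2 / 9 * (1 / 3) ^ (2 * M) :=
    ⟨_, by positivity, rfl⟩
  obtain ⟨r₀, hr₀⟩ := exists_nat_ge (α * (4 * M + 4) / κ)
  refine ⟨2 * K + (r₀ + 40 * M + 40 : ℕ) ^ α, by positivity, fun n G hG l => ?_⟩
  generalize hC : 2 * K + ((r₀ + 40 * M + 40 : ℕ) : ℝ) ^ α = C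
  have hC0 : 0 ≤ C := by rw [← hC]; positivity
  have hC1 : 2 * K ≤ C := by rw [← hC]; exact le_add_of_nonneg_right (by positivity)
  induction l using Nat.strong_induction_on with
  | _ l ih =>
  intro η r hη
  obtain ⟨r, h1, hn, hη, h2⟩ := exists_top hη
  refine NB.mono (q := C / (r + 1 : ℕ) ^ α) ?_ (by gcongr)
  clear h1
  by_cases hr : r < r₀ + 40 * M + 40
  · refine (hG.one _ _).mono ?_
    rw [one_le_div (by positivity), ← hC]
    exact le_add_of_nonneg_of_le (by positivity) (pow_le_pow_left₀ (by positivity)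
      (by exact_mod_cast (by omega)) α)
  have hsm : ∀ L, 3 ^ L ≤ 2 ^ r → l ≤ L + 2 → NB (Ev l G) η (C / (r + 1 : ℕ) ^ α) :=
    fun L a b => (hG.small l hη).mono ((hK r l L r a b (by omega)).trans (by
      push_cast
      gcongr
      linarith))
  have hg : ∀ j ≤ 2 * M, j + 2 ≤ l → ‖1 + ee n (th n ^ j * (2 * th n ^ 2 * η))‖ ≤ 2 - 4 * ε ^ 2 →
      NB (Ev l G) η (C / (r + 1 : ℕ) ^ α) := by
    intro j a b c
    obtain ⟨r', rfl⟩ : ∃ r', r = 4 * M + 4 + r' := ⟨r - (4 * M + 4), by omega⟩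
    refine (gain (φ := fun r => C / (r + 1 : ℕ) ^ α) (r' := r') ih hη b (by omega) c).mono ?_
    have d1 : 1 - 4 * ε ^ 2 / 9 * (1 / 3) ^ j ≤ 1 - κ := by
      rw [hκ1]
      gcongr ?_ - _ * ?_
      exact pow_le_pow_of_le_one (by norm_num) (by norm_num) a
    refine (mul_le_mul_of_nonneg_right d1 (by positivity)).trans ?_
    have d2 : (0 : ℝ) < (4 * M + 4 + r' + 1 : ℕ) := by positivity
    have d3 := one_add_mul_le_pow (a := -((4 * M + 4) / (4 * M + 4 + r' + 1 : ℕ) : ℝ)) (by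
      have : ((4 * M + 4) / (4 * M + 4 + r' + 1 : ℕ) : ℝ) ≤ 1 := by
        rw [div_le_one d2]
        push_cast
        linarith [r'.cast_nonneg (α := ℝ)]
      linarith) α
    rw [show (1 : ℝ) + -((4 * M + 4) / (4 * M + 4 + r' + 1 : ℕ)) =
      (r' + 1 : ℕ) / (4 * M + 4 + r' + 1 : ℕ) by field_simp; push_cast; ring, div_pow] at d3
    have d4 : α * ((4 * M + 4) / (4 * M + 4 + r' + 1 : ℕ) : ℝ) ≤ κ := by
      rw [← mul_div_assoc, div_le_iff₀ d2]
      rw [div_le_iff₀ hκ] at hr₀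
      have : (r₀ : ℝ) ≤ (4 * M + 4 + r' + 1 : ℕ) := by exact_mod_cast (by omega)
      nlinarith
    calc (1 - κ) * (C / (r' + 1 : ℕ) ^ α) ≤
          ((r' + 1 : ℕ) ^ α / (4 * M + 4 + r' + 1 : ℕ) ^ α) * (C / (r' + 1 : ℕ) ^ α) := by
          gcongr
          linarith
      _ = _ := by field_simp
  obtain ⟨Z, hZ, hZ1⟩ : ∃ Z : ℤ, 2 * th n ^ 2 * η = Z ∧ Z.natAbs ≤ 2 ^ n / 2 :=
    ⟨_, (ZMod.coe_valMinAbs _).symm, ZMod.natAbs_valMinAbs_le _⟩
  have hZ0 : Z ≠ 0 := by
    rintro rfl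
    have := lv_ne (d := 1) (r' := 0) (s := 2) hη (by omega)
    rw [pow_zero, one_mul, pow_one, hZ, Int.cast_zero] at this
    exact this rfl
  by_cases hw : ε ≤ |(Z : ℝ) / 2 ^ n|
  · by_cases hl : 2 ≤ l
    · refine hg 0 (by omega) hl ?_
      rw [pow_zero, one_mul, hZ, ee_int, mul_div_assoc]
      refine white ?_ hw hε.le
      rw [abs_div, abs_of_pos (by positivity : (0 : ℝ) < 2 ^ n), div_le_iff₀ (by positivity)]
      have : ((2 * Z.natAbs : ℕ) : ℝ) ≤ (2 ^ n : ℕ) := by exact_mod_cast (by omega)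
      push_cast [Nat.cast_natAbs] at this
      linarith
    · exact hsm 0 Nat.one_le_two_pow (by omega)
  obtain ⟨L, Z', hZ', rfl⟩ := WfDvdMonoid.max_power_factor' hZ0 Int.prime_three.not_isUnit
  have hL : 3 ^ L ≤ 2 ^ r := three_pow_le hn hZ0 (hZ1.trans (Nat.div_le_self _ _))
    (by rw [← hZ]; linear_combination th n ^ 2 * h2) (dvd_mul_right _ _)
  rw [abs_div, abs_of_pos (by positivity : (0 : ℝ) < 2 ^ n), not_le] at hw
  push_cast at hw hZ
  rw [abs_mul, abs_of_pos (by positivity : (0 : ℝ) < 3 ^ L)] at hw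
  by_cases hl : l ≤ L + 2
  · exact hsm L hL hl
  by_cases hs : L + 1 ≤ 2 * M
  · refine hg (L + 1) hs (by omega) ?_
    obtain ⟨j, hj, hW⟩ := exists_inv3 n
    have a1 : ¬ 3 ∣ j * Z' := fun a => (Int.prime_three.dvd_or_dvd a).elim hj hZ'
    have a2 : ‖1 + Om (j * Z')‖ = 1 := by
      rw [eq_neg_of_add_eq_zero_left (Om_sum a1), norm_neg, norm_pow, norm_Om, one_pow]
    rw [hZ, show th n ^ (L + 1) * (3 ^ L * Z') = Z' * th n by
      linear_combination Z' * th n * pow_th n L]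
    have a3 := norm_add_le (1 + Om (j * Z')) (ee n (Z' * th n) - Om (j * Z'))
    rw [add_add_sub_cancel, a2] at a3
    have a4 : |(Z' : ℝ)| / 2 ^ n ≤ 3 ^ L * |(Z' : ℝ)| / 2 ^ n := by
      gcongr
      exact le_mul_of_one_le_left (abs_nonneg _) (one_le_pow₀ (by norm_num))
    have a5 : 7 * |(Z' : ℝ)| / (3 * 2 ^ n) = 7 / 3 * (|(Z' : ℝ)| / 2 ^ n) := by ring
    nlinarith [hW Z']
  obtain ⟨s, hs1⟩ : ∃ s, s + M = L + 2 := ⟨L + 2 - M, by omega⟩
  refine (long (φ := fun r => C / (r + 1 : ℕ) ^ α) (r' := r / 10 - 2 * (M + 1)) (x := r - r / 10)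
    hG ih hη hγ hM hZ' hZ hs1 (by omega) (by omega) (by omega)).mono ?_
  have a1 := hK r s L (r - r / 10) hL (by omega) (by omega)
  have a2 : (7 / 12 : ℝ) ^ s ≤ γ :=
    (pow_le_pow_of_le_one (by norm_num) (by norm_num) (by omega)).trans hM3
  have a3 : 14 * 12 ^ M * |(Z' : ℝ)| / 2 ^ n * (7 / 3) ^ s ≤ γ := by
    have : (7 / 3 : ℝ) ^ s ≤ 3 ^ L :=
      (pow_le_pow_left₀ (by norm_num) (by norm_num) s).trans
        (pow_le_pow_right₀ (by norm_num) (by omega))
    calc 14 * 12 ^ M * |(Z' : ℝ)| / 2 ^ n * (7 / 3) ^ s ≤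
          14 * 12 ^ M * |(Z' : ℝ)| / 2 ^ n * 3 ^ L := by gcongr
      _ = 14 * 12 ^ M * (3 ^ L * |(Z' : ℝ)| / 2 ^ n) := by ring
      _ ≤ 14 * 12 ^ M * ε := by gcongr
      _ = γ := hε2
  have a4 : C / ((r / 10 - 2 * (M + 1) + 1 : ℕ) : ℝ) ^ α ≤ 20 ^ α * (C / (r + 1 : ℕ) ^ α) := by
    rw [← mul_div_assoc, div_le_div_iff₀ (by positivity) (by positivity), mul_comm (20 ^ α),
      mul_assoc, ← mul_pow]
    gcongr
    exact_mod_cast (by omega)
  have a5 : K / (r + 1 : ℝ) ^ α ≤ 1 / 2 * (C / (r + 1 : ℕ) ^ α) := by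
    push_cast
    rw [← mul_div_assoc]
    gcongr
    linarith
  have a6 : (γ + 14 * 12 ^ M * |(Z' : ℝ)| / 2 ^ n * (7 / 3) ^ s + (7 / 12) ^ s) *
      (C / ((r / 10 - 2 * (M + 1) + 1 : ℕ) : ℝ) ^ α) ≤
      (3 * γ) * (20 ^ α * (C / (r + 1 : ℕ) ^ α)) := by
    gcongr
    linarith
  rw [← mul_assoc, show 3 * γ * 20 ^ α = 1 / 2 by linarith] at a6
  linarith

end Pool.Agent.MP_2e2529_nt

end

section

/-! Mixing: the joint density of the exponent and the residue modulo `2 ^ n` almost factors. -/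

namespace Pool.Agent.MP_2e2529_nt

open Finset Real

variable {n : ℕ}

noncomputable def U (ζ : R n) : ℂ := (∑ v : R n, ee n (-(ζ * (2 * v + 1)))) / 2 ^ n

noncomputable def U0 (a : ℤ) (η : R n) : ℂ := if a = 0 then U η else 0

noncomputable def Ut (t : ℕ) (a : ℤ) (η : R n) : ℂ := EW t fun v => U0 (a - v.sum) η

noncomputable def den (n H : ℕ) (A : ℤ) (y : R n) : ℝ := EW H fun w =>
  if A - w.sum = 0 then (#{v : R n | 2 ^ w.sum * (2 * v + 1) = 3 ^ H * y + cw w} : ℝ) else 0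

theorem orth (x : R n) : ∑ ξ : R n, ee n (ξ * x) = if x = 0 then 2 ^ n else 0 := by
  rw [ee, AddChar.sum_mulShift _ (ZMod.isPrimitive_stdAddChar _), ZMod.card]
  split_ifs <;> simp

theorem norm_U (ζ : R n) : ‖U ζ‖ ≤ 1 := by
  rw [U, norm_div, norm_pow, Complex.norm_ofNat, div_le_one (by positivity)]
  refine (norm_sum_le _ _).trans ?_
  simp [ZMod.card]

theorem adm_U0 : Adm (U0 (n := n)) := by
  refine ⟨fun η S => ?_, fun a η h => ?_⟩
  · simp only [U0, apply_ite norm, norm_zero, sum_ite_eq']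
    split_ifs
    exacts [norm_U η, zero_le_one]
  · have : ∀ v : R n, ee n (-(η * (2 * v + 1))) = ee n (-η) * ee n (v * (-(2 * η))) := fun v => by
      rw [← ee_add]
      congr 1
      ring
    simp only [U0, U, this, ← mul_sum, orth, neg_eq_zero, if_neg h]
    simp

theorem adm_Ut (t : ℕ) : Adm (Ut (n := n) t) := by
  refine ⟨fun η S => ?_, fun a η h => ?_⟩
  · refine (sum_le_sum fun a _ => norm_EW_le _ _).trans ?_
    rw [← EW_sum, ← EW_const t (1 : ℝ)]
    exact EW_mono fun w _ => (adm_U0.1 η).shift S _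
  · simp only [Ut, adm_U0.2 _ η h, EW_const]

theorem delta (α : ℕ) : ∃ C : ℝ, 0 < C ∧ ∀ n l t (η : R n),
    NB (fun a η => Ev (l + t) U0 a η - Ev l (Ut t) a η) η (C / (l + 1) ^ α) := by
  obtain ⟨C, hC0, hC⟩ := decay α
  obtain ⟨K, hK0, hK⟩ := polyK α (ρ := 7 / 8) (by norm_num) (by norm_num)
  refine ⟨2 * C * 2 ^ α + 2 * K + 1, by positivity, fun n l t η => ?_⟩
  by_cases h : 2 ^ (l / 2) * η = 0
  · simp only [Ev_add, ← Ev_sub]
    have a1 := EW_pow l (1 / 2 : ℝ)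
    norm_num at a1
    refine (NB_word (q := fun w => 2 * 2 ^ (l / 2) * (1 / 2) ^ w.sum) fun w _ => ?_).mono ?_
    · by_cases e : l / 2 ≤ w.sum
      · obtain ⟨c, hc⟩ := Nat.exists_eq_add_of_le e
        rw [show 2 ^ w.sum * th n ^ l * η = 0 by
          rw [hc]; linear_combination 2 ^ c * th n ^ l * h]
        refine (NB_zero fun a => ?_).mono (by positivity)
        simp [Ev, Ut]
      · refine ((adm_U0.one t _).sub ((adm_Ut t).1 _)).mono ?_
        rw [one_div, inv_pow, mul_assoc, ← div_eq_mul_inv]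
        have : (1 : ℝ) ≤ 2 ^ (l / 2) / 2 ^ w.sum := by
          rw [one_le_div (by positivity)]
          exact pow_le_pow_right₀ one_le_two (by omega)
        linarith
    · rw [EW_mul, a1]
      have a2 : (2 : ℝ) ^ (l / 2) ≤ (3 / 2) ^ l :=
        calc (2 : ℝ) ^ (l / 2) ≤ ((3 / 2) ^ 2) ^ (l / 2) := by gcongr; norm_num
          _ ≤ _ := by
            rw [← pow_mul]
            exact pow_le_pow_right₀ (by norm_num) (by omega)
      calc 2 * 2 ^ (l / 2) * (7 / 12 : ℝ) ^ l ≤ 2 * (3 / 2) ^ l * (7 / 12) ^ l := by gcongr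
        _ = 2 * (7 / 8) ^ l := by rw [mul_assoc, ← mul_pow]; norm_num
        _ ≤ 2 * (K / (l + 1) ^ α) := by gcongr; exact hK l
        _ ≤ _ := by
          rw [← mul_div_assoc]
          gcongr
          linarith [show 0 ≤ 2 * C * 2 ^ α by positivity]
  · refine ((hC n _ adm_U0 _ _ _ h).sub (hC n _ (adm_Ut t) _ _ _ h)).mono ?_
    rw [← add_div, div_le_div_iff₀ (by positivity) (by positivity)]
    have : ((l : ℝ) + 1) ^ α ≤ 2 ^ α * (l / 2 + 1 : ℕ) ^ α := by
      rw [← mul_pow]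
      gcongr
      exact_mod_cast (by omega)
    calc (C + C) * ((l : ℝ) + 1) ^ α ≤ (C + C) * (2 ^ α * (l / 2 + 1 : ℕ) ^ α) := by gcongr
      _ = 2 * C * 2 ^ α * (l / 2 + 1 : ℕ) ^ α := by ring
      _ ≤ _ := by gcongr; linarith

theorem parseval {ι : Type} (s : Finset ι) (z : ι → ℂ) (p : ι → R n) :
    ((∑ ξ : R n, ‖∑ i ∈ s, z i * ee n (ξ * p i)‖ ^ 2 : ℝ) : ℂ) =
      2 ^ n * ∑ i ∈ s, ∑ j ∈ s, if p i = p j then z i * starRingEnd ℂ (z j) else 0 := by
  push_cast
  simp only [← Complex.mul_conj', map_sum, map_mul, ← AddChar.map_neg_eq_conj, sum_mul_sum]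
  rw [sum_comm, mul_sum]
  refine sum_congr rfl fun i _ => ?_
  rw [sum_comm, mul_sum]
  refine sum_congr rfl fun j _ => ?_
  have : ∀ ξ : R n, z i * ee n (ξ * p i) * (starRingEnd ℂ (z j) * ee n (-(ξ * p j))) =
      z i * starRingEnd ℂ (z j) * ee n (ξ * (p i - p j)) := fun ξ => by
    rw [mul_sub, sub_eq_add_neg, ee_add]
    ring
  simp only [this, ← mul_sum, orth, sub_eq_zero]
  split_ifs <;> ring

theorem l1_le (D : R n → ℂ) {δ : ℝ} (hδ : 0 < δ) :
    (∑ y : R n, ‖∑ ξ : R n, D ξ * ee n (ξ * y)‖) / 2 ^ n ≤ ((∑ ξ, ‖D ξ‖ ^ 2) / δ + δ) / 2 := by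
  have a1 := parseval univ D id
  simp only [id, sum_ite_eq, mem_univ, if_true, Complex.mul_conj'] at a1
  have a2 : ∑ y : R n, ‖∑ ξ : R n, D ξ * ee n (ξ * y)‖ ^ 2 = 2 ^ n * ∑ ξ, ‖D ξ‖ ^ 2 := by
    simp only [mul_comm _ (_ : R n)]
    exact_mod_cast a1
  rw [div_le_iff₀ (by positivity)]
  calc _ ≤ ∑ y : R n, (‖∑ ξ : R n, D ξ * ee n (ξ * y)‖ ^ 2 / δ + δ) / 2 := by
        refine sum_le_sum fun y _ => ?_
        generalize ‖∑ ξ : R n, D ξ * ee n (ξ * y)‖ = x
        rw [← sub_nonneg, show (x ^ 2 / δ + δ) / 2 - x = (x - δ) ^ 2 / (2 * δ) by field_simp; ring]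
        positivity
    _ = _ := by
      rw [← sum_div, sum_add_distrib, ← sum_div, a2]
      simp [ZMod.card]
      ring

theorem cw_inj (w w' : List ℕ) (h1 : w.length = w'.length) (h2 : ∀ a ∈ w, a < 3)
    (h3 : ∀ a ∈ w', a < 3) (h4 : w.sum = w'.sum) (h5 : cw w = cw w') : w = w' := by
  induction w using List.reverseRecOn generalizing w' with
  | nil => exact (List.length_eq_zero_iff.1 h1.symm).symm
  | append_singleton u b ih =>
    rcases w'.eq_nil_or_concat' with rfl | ⟨u', b', rfl⟩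
    · simp at h1
    have a1 := h2 b (by simp)
    have a2 := h3 b' (by simp)
    simp only [List.length_append, List.sum_append, List.sum_singleton, cw_append, cw,
      List.length_singleton, List.length_nil] at h1 h4 h5
    have a3 : ∀ k, 2 ^ k % 3 ≠ 0 := fun k e =>
      absurd (Nat.prime_three.dvd_of_dvd_pow (Nat.dvd_of_mod_eq_zero e)) (by norm_num)
    have a4 := a3 u.sum
    have a5 := a3 u'.sum
    have a6 : b = b' := by
      by_contra e
      have a7 : u.sum = u'.sum + 1 → 2 ^ u.sum = 2 * 2 ^ u'.sum := fun e => by rw [e, pow_succ']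
      have a8 : u'.sum = u.sum + 1 → 2 ^ u'.sum = 2 * 2 ^ u.sum := fun e => by rw [e, pow_succ']
      interval_cases b <;> interval_cases b' <;> norm_num at h5 e <;> omega
    subst a6
    have a7 : u.sum = u'.sum := by omega
    rw [ih u' (by omega) (fun a ha => h2 a (by simp [ha])) (fun a ha => h3 a (by simp [ha])) a7
      (by rw [a7] at h5; omega)]

theorem card_mod {S : Finset ℕ} {X m : ℕ} (h1 : ∀ x ∈ S, x ≤ X)
    (h2 : ∀ x ∈ S, ∀ y ∈ S, x % m = y % m) : (#S : ℝ) ≤ X / m + 1 := by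
  have : #S ≤ #(range (X / m + 1)) := card_le_card_of_injOn (· / m)
    (fun x hx => mem_coe.2 (mem_range.2 (Nat.lt_succ_of_le (Nat.div_le_div_right (h1 x hx)))))
    fun x hx y hy e => by
      rw [← Nat.div_add_mod x m, ← Nat.div_add_mod y m, h2 x hx y hy]
      exact congrArg (m * · + y % m) e
  rw [card_range] at this
  exact (Nat.cast_le.2 this).trans (by push_cast; gcongr; exact Nat.cast_div_le)

theorem collision {s : ℕ} (hs : 2 ^ n ≤ 3 ^ s) :
    ∑ d ∈ range (2 * s + 1), ∑ ξ : R n, ‖coef s d ξ‖ ^ 2 ≤ 4 := by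
  have a1 : ∀ d, ∑ ξ : R n, ‖coef s d ξ‖ ^ 2 ≤
      ∑ w ∈ wds s with w.sum = d, 2 * 2 ^ n / 3 ^ s / 3 ^ s * ((cw w : ℝ) / (2 ^ n : ℕ) + 1) := by
    intro d
    generalize hS : (wds s).filter (·.sum = d) = S
    have b0 : ∀ w ∈ S, w ∈ wds s ∧ w.sum = d := fun w hw => mem_filter.1 (hS ▸ hw)
    have b2 : ∀ ξ : R n, coef s d ξ = ∑ w ∈ S, 1 / 3 ^ s * ee n (ξ * (th n ^ s * cw w)) := by
      intro ξ
      rw [coef, EW, ← sum_filter, hS, sum_div]
      refine sum_congr rfl fun w _ => ?_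
      rw [mul_assoc]
      ring
    have b3 : ∑ ξ : R n, ‖coef s d ξ‖ ^ 2 = 2 ^ n * ∑ i ∈ S, ∑ j ∈ S,
        if th n ^ s * cw i = th n ^ s * cw j then 1 / 3 ^ s / 3 ^ s else 0 := by
      simp only [b2]
      apply Complex.ofReal_injective
      rw [parseval]
      push_cast [apply_ite Complex.ofReal]
      simp [div_eq_mul_inv, Complex.conj_ofNat]
    obtain ⟨P, hP⟩ : ∃ P : List ℕ → List ℕ → ℝ, ∀ i j,
      P i j = if cw j ≤ cw i ∧ cw j % 2 ^ n = cw i % 2 ^ n then 1 else 0 := ⟨_, fun _ _ => rfl⟩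
    have b4 : ∀ i j, (if th n ^ s * cw i = th n ^ s * cw j then 1 / 3 ^ s / 3 ^ s else 0 : ℝ) ≤
        1 / 3 ^ s / 3 ^ s * (P i j + P j i) := by
      intro i j
      rw [hP, hP]
      split_ifs with e e1 e2 e3 <;> try positivity
      · linarith [show (0 : ℝ) ≤ 1 / 3 ^ s / 3 ^ s by positivity]
      · simp
      · simp
      · have : (cw i : R n) = cw j := by
          linear_combination 3 ^ s * e - (cw i - cw j : R n) * pow_th n s
        rw [ZMod.natCast_eq_natCast_iff'] at this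
        omega
    have b5 : ∀ i ∈ S, ∑ j ∈ S, P i j ≤ (cw i : ℝ) / (2 ^ n : ℕ) + 1 := by
      intro i _
      simp only [hP, sum_boole]
      rw [← card_image_of_injOn (f := cw) fun x hx y hy e => ?_]
      · refine card_mod (fun x hx => ?_) fun x hx y hy => ?_
        · obtain ⟨j, hj, rfl⟩ := mem_image.1 hx
          exact (mem_filter.1 hj).2.1
        · obtain ⟨j, hj, rfl⟩ := mem_image.1 hx
          obtain ⟨k, hk, rfl⟩ := mem_image.1 hy
          rw [(mem_filter.1 hj).2.2, (mem_filter.1 hk).2.2]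
      · obtain ⟨c1, c2⟩ := b0 x (mem_filter.1 hx).1
        obtain ⟨c3, c4⟩ := b0 y (mem_filter.1 hy).1
        rw [mem_wds] at c1 c3
        exact cw_inj x y (c1.1.trans c3.1.symm) c1.2 c3.2 (c2.trans c4.symm) e
    rw [b3, ← mul_sum]
    refine (mul_le_mul_of_nonneg_left (sum_le_sum fun i _ => sum_le_sum fun j _ => b4 i j)
      (by positivity)).trans ?_
    simp only [← mul_sum, sum_add_distrib (f := P _), sum_add_distrib (f := fun i => ∑ j ∈ S, P i j)]
    rw [sum_comm (f := fun i j => P j i)]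
    calc _ = 2 * 2 ^ n / 3 ^ s / 3 ^ s * ∑ i ∈ S, ∑ j ∈ S, P i j := by ring
      _ ≤ _ := by gcongr with i hi; exact b5 i hi
  refine (sum_le_sum fun d _ => a1 d).trans ?_
  rw [sum_fiberwise_of_maps_to fun w hw => mem_range.2 (Nat.lt_succ_of_le (sum_le_of_mem hw)),
    ← mul_sum, sum_add_distrib, ← sum_div]
  have a2 := EW_cw s
  rw [EW, div_le_iff₀ (by positivity)] at a2
  have a3 : (2 : ℝ) ^ n / 3 ^ s ≤ 1 := by
    rw [div_le_one (by positivity)]
    exact_mod_cast hs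
  simp only [sum_const, card_wds, nsmul_eq_mul, mul_one]
  push_cast
  calc _ ≤ 2 * 2 ^ n / 3 ^ s / 3 ^ s * (3 ^ s * 3 ^ s / 2 ^ n + 3 ^ s : ℝ) := by gcongr
    _ = 2 + 2 * (2 ^ n / 3 ^ s) := by field_simp
    _ ≤ 4 := by linarith

theorem phys (H : ℕ) (A : ℤ) (y : R n) :
    ∑ ξ : R n, Ev H U0 A ξ * ee n (ξ * y) = den n H A y := by
  simp only [Ev, ← EW_mul', ← EW_sum, den, ofReal_EW]
  refine EW_congr fun w _ => ?_
  simp only [U0]
  split_ifs
  · have : ∀ ξ : R n, ee n (ξ * th n ^ H * cw w) * U (2 ^ w.sum * th n ^ H * ξ) * ee n (ξ * y) =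
        (∑ v : R n, ee n (ξ * (th n ^ H * (3 ^ H * y + cw w - 2 ^ w.sum * (2 * v + 1))))) /
          2 ^ n := fun ξ => by
      rw [U, mul_right_comm, ← mul_div_assoc, mul_sum]
      congr 1
      refine sum_congr rfl fun v _ => ?_
      rw [← ee_add, ← ee_add]
      congr 1
      linear_combination -ξ * y * pow_th n H
    simp only [this, ← sum_div]
    rw [sum_comm, card_filter, div_eq_iff (pow_ne_zero _ two_ne_zero)]
    push_cast [apply_ite Complex.ofReal]
    rw [sum_mul]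
    refine sum_congr rfl fun v _ => ?_
    rw [orth]
    by_cases e : 2 ^ w.sum * (2 * v + 1) = 3 ^ H * y + cw w
    · rw [if_pos e, if_pos (by rw [e, sub_self, mul_zero]), one_mul]
    · rw [if_neg e, if_neg (th_ne (sub_ne_zero.2 (Ne.symm e))), zero_mul]
  · simp

theorem mix (α : ℕ) : ∃ C : ℝ, 0 ≤ C ∧ ∀ t j, ∑ A ∈ range (14 * t), (∑ y : R (14 * t),
    |den (14 * t) (10 * t + j) A y - EW j fun v => den (14 * t) (10 * t) (A - v.sum) y|) /
      2 ^ (14 * t) ≤ C / (t + 1) ^ α := by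
  obtain ⟨C, hC0, hC⟩ := delta (α + 1)
  refine ⟨43 * C, by positivity, fun t j => ?_⟩
  generalize hn : 14 * t = n
  generalize hδ : C / ((t : ℝ) + 1) ^ (α + 1) = δ
  have hδ0 : 0 < δ := by rw [← hδ]; positivity
  obtain ⟨D, hD⟩ : ∃ D : ℤ → R n → ℂ, D = Ev (9 * t) fun a η => Ev (t + j) U0 a η - Ev t (Ut j) a η :=
    ⟨_, rfl⟩
  have a1 : ∀ (A : ℤ) (y : R n), |den n (10 * t + j) A y - EW j fun v => den n (10 * t) (A - v.sum) y| =
      ‖∑ ξ : R n, D A ξ * ee n (ξ * y)‖ := by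
    intro A y
    rw [← Real.norm_eq_abs, ← Complex.norm_real]
    congr 1
    simp only [hD, Ev_sub, ← Ev_add, sub_mul, sum_sub_distrib]
    rw [show 9 * t + (t + j) = 10 * t + j by ring, show 9 * t + t = 10 * t by ring, phys,
      Complex.ofReal_sub, ofReal_EW]
    simp only [← phys, EW_sum, EW_mul']
    congr 1
    refine sum_congr rfl fun ξ _ => ?_
    congr 1
    simp only [Ev, Ut, ← EW_mul]
    rw [EW_comm]
    simp only [sub_right_comm]
  have a2 : ∀ ξ, ∑ A ∈ range n, ‖D A ξ‖ ^ 2 ≤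
      δ ^ 2 * (18 * t + 1) * ∑ d ∈ range (2 * (9 * t) + 1), ‖coef (9 * t) d ξ‖ ^ 2 := by
    intro ξ
    have b1 := NB_coef (s := 9 * t) (η := ξ) (fun d _ => hC n t j _) le_rfl
      ((range n).image Nat.cast)
    rw [sum_image fun _ _ _ _ e => Nat.cast_injective e, ← hD, hδ] at b1
    have b2 := sq_sum_le_card_mul_sum_sq (s := range (2 * (9 * t) + 1))
      (f := fun d => ‖coef (9 * t) d ξ‖)
    rw [card_range] at b2
    push_cast at b2
    refine (sum_sq_le_sq_sum_of_nonneg fun _ _ => norm_nonneg _).trans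
      ((pow_le_pow_left₀ (sum_nonneg fun _ _ => norm_nonneg _) b1 2).trans ?_)
    rw [mul_pow, mul_comm, mul_assoc]
    gcongr
    linarith
  have a3 := collision (n := n) (s := 9 * t) (by
    rw [← hn, pow_mul, pow_mul]
    exact Nat.pow_le_pow_left (by norm_num) t)
  simp only [a1]
  refine (sum_le_sum fun (A : ℕ) _ => l1_le (D A) hδ0).trans ?_
  rw [← sum_div, sum_add_distrib, ← sum_div, sum_comm]
  rw [sum_comm] at a3
  have a4 := (sum_le_sum (s := univ) fun ξ _ => a2 ξ).trans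
    ((mul_sum _ _ _).symm.le.trans (mul_le_mul_of_nonneg_left a3 (by positivity)))
  simp only [sum_const, card_range, nsmul_eq_mul]
  calc _ ≤ (δ ^ 2 * (18 * t + 1) * 4 / δ + n * δ) / 2 := by gcongr
    _ = δ * (43 * t + 2) := by rw [← hn]; push_cast; field_simp; ring
    _ ≤ δ * (43 * (t + 1)) := by gcongr; linarith
    _ = _ := by rw [← hδ]; field_simp; ring

open Classical in
theorem fiber_card {A m : ℕ} (hA : A < n) :
    #{v : R n | 2 ^ A * (2 * v + 1) = (m : R n)} =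
      if ∃ u, 2 ^ A * (2 * u + 1) = m then 2 ^ (A + 1) else 0 := by
  split_ifs with h
  · obtain ⟨u, rfl⟩ := h
    have := IsAddCyclic.card_nsmulAddMonoidHom_ker (G := R n) (2 ^ (A + 1))
    rw [Nat.card_zmod, Nat.gcd_eq_right (pow_dvd_pow _ hA)] at this
    rw [← this, ← Nat.subtype_card _ fun v => Iff.rfl]
    refine Nat.card_congr (Equiv.subtypeEquiv (Equiv.subRight (u : R n)) fun v => ?_)
    simp only [mem_filter, mem_univ, true_and, AddMonoidHom.mem_ker, nsmulAddMonoidHom_apply,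
      Equiv.subRight_apply, nsmul_eq_mul]
    push_cast
    constructor <;> intro e <;> linear_combination e
  · rw [card_eq_zero, filter_eq_empty_iff]
    intro v _ e
    obtain ⟨v, rfl⟩ := ZMod.natCast_zmod_surjective v
    have a1 : ((2 ^ A * (2 * v + 1) : ℕ) : R n) = m := by push_cast; exact e
    rw [ZMod.natCast_eq_natCast_iff] at a1
    have a2 := a1.of_dvd (pow_dvd_pow 2 hA)
    rw [Nat.ModEq, show 2 ^ A * (2 * v + 1) = 2 ^ A + 2 ^ (A + 1) * v by ring,
      Nat.add_mul_mod_self_left, Nat.mod_eq_of_lt (Nat.pow_lt_pow_right one_lt_two A.lt_succ_self)]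
      at a2
    refine h ⟨m / 2 ^ (A + 1), ?_⟩
    have a3 := Nat.div_add_mod m (2 ^ (A + 1))
    rw [← a2] at a3
    linear_combination a3

end Pool.Agent.MP_2e2529_nt

end

section

/-! The accelerated map on odd numbers, its words, and the counting of orbits that stay large. -/

namespace Pool.Agent.MP_2e2529_nt

open Finset Real Classical

def st (x : ℕ) : ℕ := if x % 3 = 0 then 0 else if x % 3 = 1 then 2 else 1

def T (x : ℕ) : ℕ := (2 ^ st x * x - min (st x) 1) / 3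

def wd : ℕ → ℕ → List ℕ
  | 0, _ => []
  | H + 1, x => st (T^[H] x) :: wd H x

def Bad (N x : ℕ) : Prop := ∀ k, N < T^[k] x

noncomputable def Bd (N X : ℕ) : ℕ := #{x ∈ range (X + 1) | x % 2 = 1 ∧ Bad N x}

noncomputable def Pr (N Y H k A : ℕ) : Finset (ℕ × List ℕ) :=
  {p ∈ range (Y + 1) ×ˢ wds H | Bad N p.1 ∧ p.2.sum + k = A ∧
    ∃ u, 2 ^ p.2.sum * (2 * u + 1) = 3 ^ H * p.1 + cw p.2}

theorem T_spec (x : ℕ) : 3 * T x + min (st x) 1 = 2 ^ st x * x := by
  unfold T st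
  split_ifs <;> norm_num <;> omega

theorem T_uniq {a x y : ℕ} (ha : a < 3) (h : 3 * y + min a 1 = 2 ^ a * x) : st x = a ∧ T x = y := by
  unfold T st
  interval_cases a <;> split_ifs <;> norm_num at h ⊢ <;> omega

theorem wd_mem (H x : ℕ) : wd H x ∈ wds H := by
  induction H with
  | zero => simp [wd, wds]
  | succ H ih =>
    rw [mem_wds] at ih ⊢
    refine ⟨by simp [wd, ih.1], fun a ha => ?_⟩
    rcases List.mem_cons.1 ha with rfl | ha
    · unfold st
      split_ifs <;> norm_num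
    · exact ih.2 a ha

theorem fwd (H x : ℕ) : 3 ^ H * T^[H] x + cw (wd H x) = 2 ^ (wd H x).sum * x := by
  induction H with
  | zero => simp [wd, cw]
  | succ H ih =>
    rw [wd, cw, List.sum_cons, (mem_wds.1 (wd_mem H x)).1, Function.iterate_succ_apply']
    linear_combination 3 ^ H * T_spec (T^[H] x) + 2 ^ st (T^[H] x) * ih

theorem bwd {H x y : ℕ} {w : List ℕ} (hw : w ∈ wds H) (h : 2 ^ w.sum * x = 3 ^ H * y + cw w) :
    wd H x = w ∧ T^[H] x = y := by
  obtain ⟨rfl, h2⟩ := mem_wds.1 hw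
  clear hw
  induction w generalizing y with
  | nil => simpa [wd, cw] using h
  | cons a u ih =>
    simp only [List.sum_cons, List.length_cons, cw] at h
    have a1 : 2 ^ a ∣ 3 ^ u.length * (3 * y + min a 1) :=
      (Nat.dvd_add_left (dvd_mul_right _ (cw u))).1 ⟨2 ^ u.sum * x, by linear_combination -h⟩
    obtain ⟨z, hz⟩ := (Nat.Coprime.pow _ _ (by norm_num)).dvd_of_dvd_mul_left a1
    obtain ⟨b1, b2⟩ := ih (y := z) (fun b hb => h2 b (by simp [hb]))
      (Nat.eq_of_mul_eq_mul_left (Nat.two_pow_pos a) (by linear_combination h + 3 ^ u.length * hz))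
    obtain ⟨c1, c2⟩ := T_uniq (h2 a (by simp)) hz
    rw [List.length_cons, wd, Function.iterate_succ_apply', b1, b2, c1, c2]
    exact ⟨rfl, rfl⟩

theorem T_low (j x : ℕ) : x + 1 ≤ 3 ^ j * (T^[j] x + 1) := by
  induction j with
  | zero => simp
  | succ j ih =>
    rw [Function.iterate_succ_apply', pow_succ, mul_assoc]
    refine ih.trans (Nat.mul_le_mul_left _ ?_)
    have := T_spec (T^[j] x)
    have := Nat.le_mul_of_pos_left (T^[j] x) (Nat.two_pow_pos (st (T^[j] x)))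
    omega

theorem fiber_sum {ι : Type} {S : Finset ι} {p : ℕ → ι} {g : ι → ℝ} (X m : ℕ)
    (hp : ∀ x, p x ∈ S) (hm : ∀ x y, p x = p y → x % m = y % m) (hg : ∀ i, 0 ≤ g i) :
    ∑ x ∈ range (X + 1), g (p x) ≤ (X / m + 1) * ∑ i ∈ S, g i := by
  rw [← sum_fiberwise_of_maps_to' (fun x _ => hp x), mul_sum]
  refine sum_le_sum fun i _ => ?_
  rw [sum_const, nsmul_eq_mul]
  refine mul_le_mul_of_nonneg_right (card_mod (fun x hx => ?_) fun x hx y hy => hm x y ?_) (hg i)
  · exact Nat.le_of_lt_succ (mem_range.1 (mem_filter.1 hx).1)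
  · rw [(mem_filter.1 hx).2, (mem_filter.1 hy).2]

theorem markov (s : ℕ) {B : ℝ} (hB : 0 < B) :
    EW s (fun w => if B ≤ 2 ^ w.sum then (1 : ℝ) else 0) ≤ (7 / 3) ^ s / B := by
  have := EW_pow s (2 : ℝ)
  norm_num at this
  rw [← this, div_eq_mul_inv, ← EW_mul']
  refine EW_mono fun w _ => ?_
  split_ifs with h
  · rwa [← div_eq_mul_inv, one_le_div hB]
  · positivity

theorem cnt (G X : ℕ) {B : ℝ} (hB : 0 < B) :
    (#{x ∈ range (X + 1) | B ≤ 2 ^ (wd G x).sum} : ℝ) ≤ (X + 3 ^ G) * ((7 / 3) ^ G / B) := by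
  have := fiber_sum (S := wds G) (g := fun w => if B ≤ 2 ^ w.sum then (1 : ℝ) else 0) X (3 ^ G)
    (wd_mem G) (fun x y e => ?_) fun w => by positivity
  · rw [sum_boole] at this
    refine this.trans (le_trans (le_of_eq ?_) (mul_le_mul_of_nonneg_left (markov G hB)
      (by positivity)))
    rw [EW]
    push_cast
    field_simp
  · refine Nat.ModEq.cancel_left_of_coprime (c := 2 ^ (wd G y).sum)
      (Nat.Coprime.pow _ _ (by norm_num)) ?_
    rw [← fwd G y, ← e, ← fwd G x, Nat.ModEq, Nat.mul_add_mod, Nat.mul_add_mod]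

theorem base {N X m : ℕ} (h1 : X ≤ 2 ^ m * N) (h2 : 3 ^ (4 * m) ≤ X) :
    (Bd N X : ℝ) ≤ 2 * (14 / 15) ^ m * X := by
  have a1 := cnt (4 * m) X (B := (5 / 2) ^ (4 * m)) (by positivity)
  refine (Nat.cast_le.2 (card_le_card fun x hx => ?_)).trans (a1.trans ?_)
  · obtain ⟨b1, -, b2⟩ := mem_filter.1 hx
    refine mem_filter.2 ⟨b1, ?_⟩
    have b3 : 3 ^ (4 * m) * N ≤ 2 ^ (wd (4 * m) x).sum * (2 ^ m * N) :=
      calc _ ≤ 3 ^ (4 * m) * T^[4 * m] x + cw (wd (4 * m) x) :=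
            (Nat.mul_le_mul_left _ (b2 _).le).trans (Nat.le_add_right _ _)
        _ ≤ _ := (fwd _ _).trans_le
            (Nat.mul_le_mul_left _ ((Nat.le_of_lt_succ (mem_range.1 b1)).trans h1))
    have b4 : 0 < N := Nat.pos_of_mul_pos_left ((Nat.pow_pos (by norm_num)).trans_le (h2.trans h1))
    rw [← mul_assoc] at b3
    have b5 : (3 : ℝ) ^ (4 * m) ≤ 2 ^ (wd (4 * m) x).sum * 2 ^ m := by
      exact_mod_cast Nat.le_of_mul_le_mul_right b3 b4
    refine le_of_mul_le_mul_right (le_trans ?_ b5) (show (0 : ℝ) < 2 ^ m by positivity)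
    rw [pow_mul, pow_mul, ← mul_pow]
    gcongr
    norm_num
  · have b1 : (3 : ℝ) ^ (4 * m) ≤ X := by exact_mod_cast h2
    rw [← div_pow, pow_mul (_ / _ : ℝ)]
    calc _ ≤ ((X : ℝ) + X) * (14 / 15) ^ m := by gcongr; norm_num
      _ = _ := by ring

theorem Pr_card {n N Y H k A : ℕ} (hA : A < n) : (#(Pr N Y H k A) : ℝ) = 3 ^ H * 2 ^ k / 2 ^ (A + 1) *
    ∑ y ∈ range (Y + 1), (if Bad N y then 1 else 0) * den n H (A - k) y := by
  rw [Pr, card_filter, sum_product, mul_sum]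
  push_cast
  refine sum_congr rfl fun y _ => ?_
  by_cases h : Bad N y
  · rw [if_pos h, one_mul, den, ← EW_mul, EW, eq_div_iff (by positivity), sum_mul]
    refine sum_congr rfl fun w _ => ?_
    by_cases e : w.sum + k = A
    · have := fiber_card (n := n) (A := w.sum) (m := 3 ^ H * y + cw w) (by omega)
      push_cast at this
      rw [if_pos (by omega : (A : ℤ) - k - w.sum = 0), this]
      simp only [h, e, true_and]
      split_ifs
      · rw [← e]
        push_cast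
        field_simp
        ring
      · simp
    · rw [if_neg (by omega : ¬ (A : ℤ) - k - w.sum = 0), if_neg fun a => e a.2.1]
      simp
  · simp [h]

theorem Pr_up (N X G A : ℕ) : #{x ∈ range (X + 1) | (x % 2 = 1 ∧ Bad N x) ∧ (wd G x).sum = A} ≤
    #(Pr N (2 ^ A * X / 3 ^ G) G 0 A) := by
  refine card_le_card_of_injOn (fun x => (T^[G] x, wd G x)) (fun x hx => ?_) fun x _ y _ e => ?_
  · obtain ⟨b1, ⟨b2, b3⟩, rfl⟩ := mem_filter.1 (mem_coe.1 hx)
    refine mem_coe.2 (mem_filter.2 ⟨mem_product.2 ⟨mem_range.2 (Nat.lt_succ_of_le ?_), wd_mem _ _⟩,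
      fun k => ?_, rfl, x / 2, ?_⟩)
    · rw [Nat.le_div_iff_mul_le (by positivity), mul_comm]
      exact (Nat.le_add_right _ _).trans ((fwd _ _).trans_le
        (Nat.mul_le_mul_left _ (Nat.le_of_lt_succ (mem_range.1 b1))))
    · rw [← Function.iterate_add_apply]
      exact b3 _
    · rw [fwd, show 2 * (x / 2) + 1 = x by omega]
  · obtain ⟨e1, e2⟩ := Prod.mk.inj e
    refine Nat.eq_of_mul_eq_mul_left (Nat.two_pow_pos (wd G y).sum) ?_
    rw [← fwd G y, ← e1, ← e2, fwd]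

theorem Pr_low (N X H t k n : ℕ) : ∑ A ∈ range n, #(Pr N (2 ^ A * X / 3 ^ (H + t)) H k A) ≤
    Bd N (2 ^ k * X / 3 ^ t) + 3 ^ H * (N + 2) := by
  generalize hX : 2 ^ k * X / 3 ^ t = X'
  obtain ⟨S, hS⟩ : ∃ S, S = {x ∈ range (X' + 3 ^ H + 1) | x % 2 = 1 ∧ Bad N (T^[H] x)} := ⟨_, rfl⟩
  calc _ ≤ ∑ A ∈ range n, #{x ∈ S | (wd H x).sum + k = A} := by
        refine sum_le_sum fun A _ => card_le_card_of_surjOn (fun x => (T^[H] x, wd H x)) ?_
        rintro ⟨y, w⟩ hp
        obtain ⟨b1, b2, rfl, u, b3⟩ := mem_filter.1 (mem_coe.1 hp)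
        obtain ⟨b4, b5⟩ := mem_product.1 b1
        obtain ⟨c1, c2⟩ := bwd b5 b3
        refine ⟨2 * u + 1, mem_coe.2 (mem_filter.2 ⟨hS ▸ mem_filter.2 ⟨mem_range.2 ?_, by omega,
          c2 ▸ b2⟩, by rw [c1]⟩), Prod.ext c2 c1⟩
        have c3 := (Nat.le_div_iff_mul_le (by positivity)).1 (Nat.le_of_lt_succ (mem_range.1 b4))
        have c4 := cw_le w
        rw [(mem_wds.1 b5).1] at c4
        have c5 : 2 * u + 1 - 3 ^ H ≤ X' := by
          rw [← hX, Nat.le_div_iff_mul_le (by positivity)]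
          refine Nat.le_of_mul_le_mul_left ?_ (Nat.two_pow_pos w.sum)
          rw [← mul_assoc, Nat.mul_sub, b3, ← mul_assoc, ← pow_add]
          refine le_trans (Nat.mul_le_mul_right _ (show _ ≤ 3 ^ H * y by dsimp only; omega))
            (le_trans (le_of_eq ?_) c3)
          ring
        omega
    _ ≤ #S := (sum_card_fiberwise_eq_card_filter _ _ _).trans_le (card_filter_le _ _)
    _ ≤ #({x ∈ range (X' + 1) | x % 2 = 1 ∧ Bad N x} ∪ Ioc X' (X' + 3 ^ H) ∪
          range (3 ^ H * (N + 1))) := by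
        refine card_le_card fun x hx => ?_
        obtain ⟨b1, b2, b3⟩ := mem_filter.1 (hS ▸ hx)
        simp only [mem_union, mem_filter, mem_range, mem_Ioc] at b1 ⊢
        by_cases e : Bad N x
        · simp only [b2, e, and_true]
          omega
        · obtain ⟨j, hj⟩ := not_forall.1 e
          refine Or.inr ((T_low j x).trans (Nat.mul_le_mul (Nat.pow_le_pow_right (by norm_num) ?_)
            (by omega)))
          by_contra a
          obtain ⟨c, rfl⟩ := Nat.exists_eq_add_of_le' (not_le.1 a).le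
          exact hj (by rw [Function.iterate_add_apply]; exact b3 c)
    _ ≤ _ := by
        refine (card_union_le _ _).trans ((Nat.add_le_add_right (card_union_le _ _) _).trans ?_)
        rw [card_range, Nat.card_Ioc, Nat.add_sub_cancel_left, Bd]
        exact le_of_eq (by ring)

end Pool.Agent.MP_2e2529_nt

end

section

/-! The renewal inequality and the recursion over scales. -/

namespace Pool.Agent.MP_2e2529_nt

open Finset Real Classical

theorem step (α : ℕ) : ∃ C : ℝ, 0 ≤ C ∧ ∀ (N X t : ℕ) (β : ℝ), 4 ≤ t → 0 ≤ β → 2 ^ (32 * t) ≤ X →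
    2 ^ (19 * t) * (N + 2) ≤ X → (∀ X', 2 * X' ≤ X → (Bd N X' : ℝ) ≤ β * X') →
    (Bd N X : ℝ) ≤ (β + C / (t + 1) ^ α) * X := by
  obtain ⟨C, hC0, hC⟩ := mix α
  obtain ⟨K, hK0, hK⟩ := polyK α (ρ := 14 / 15) (by norm_num) (by norm_num)
  refine ⟨2 * C + 4 * K, by positivity, fun N X t β ht hβ h1 h2 ih => ?_⟩
  have hm := hC t t
  generalize hn : 14 * t = n at hm
  generalize hH : 10 * t = H at hm
  have h3 : (3 : ℝ) ^ (H + t) ≤ 2 ^ (18 * t) := by
    rw [← hH, show 10 * t + t = 11 * t by ring, pow_mul, pow_mul]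
    gcongr
    norm_num
  have h4 : (3 : ℝ) ^ (H + t) * 2 ^ n ≤ X :=
    calc (3 : ℝ) ^ (H + t) * 2 ^ n ≤ 2 ^ (18 * t) * 2 ^ n := by gcongr
      _ = 2 ^ (32 * t) := by rw [← hn]; ring
      _ ≤ _ := by exact_mod_cast h1
  have h5 : (3 : ℝ) ^ (H + t) * (N + 2) ≤ (14 / 15) ^ t * X :=
    calc (3 : ℝ) ^ (H + t) * (N + 2) ≤ 1 * 2 ^ (18 * t) * (N + 2) := by rw [one_mul]; gcongr
      _ ≤ (14 / 15 * 2) ^ t * 2 ^ (18 * t) * (N + 2) := by gcongr; exact one_le_pow₀ (by norm_num)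
      _ = (14 / 15) ^ t * (2 ^ (19 * t) * (N + 2)) := by rw [mul_pow]; ring
      _ ≤ _ := by gcongr; exact_mod_cast h2
  have a1 : Bd N X ≤ #{x ∈ range (X + 1) | (2 : ℝ) ^ n ≤ 2 ^ (wd (H + t) x).sum} +
      ∑ A ∈ range n, #(Pr N (2 ^ A * X / 3 ^ (H + t)) (H + t) 0 A) := by
    refine le_trans ?_ (Nat.add_le_add_left (sum_le_sum fun A _ => Pr_up N X (H + t) A) _)
    simp only [← filter_filter (fun x => x % 2 = 1 ∧ Bad N x)]
    rw [sum_card_fiberwise_eq_card_filter]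
    refine (card_le_card fun x hx => ?_).trans (card_union_le _ _)
    by_cases e : (wd (H + t) x).sum < n
    · exact mem_union_right _ (mem_filter.2 ⟨hx, mem_range.2 e⟩)
    · exact mem_union_left _ (mem_filter.2 ⟨(mem_filter.1 hx).1,
        pow_le_pow_right₀ one_le_two (not_lt.1 e)⟩)
  have a2 : ∀ A ∈ range n, (#(Pr N (2 ^ A * X / 3 ^ (H + t)) (H + t) 0 A) : ℝ) ≤
      EW t (fun v => 3 ^ t / 2 ^ v.sum * (#(Pr N (2 ^ A * X / 3 ^ (H + t)) H v.sum A) : ℝ)) +
      2 * X * ((∑ y : R n, |den n (H + t) A y - EW t fun v => den n H (A - v.sum) y|) / 2 ^ n) := by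
    intro A hA
    have b0 : ((2 ^ A * X / 3 ^ (H + t) : ℕ) : ℝ) ≤ 2 ^ A * X / 3 ^ (H + t) :=
      Nat.cast_div_le.trans_eq (by push_cast; rfl)
    generalize 2 ^ A * X / 3 ^ (H + t) = Y at b0
    have b1 : ∀ (k : ℕ) (x : ℝ), 3 ^ t / 2 ^ k * (3 ^ H * 2 ^ k / 2 ^ (A + 1) * x) =
        3 ^ (H + t) * 2 ^ 0 / 2 ^ (A + 1) * x := fun k x => by field_simp; ring
    simp only [Pr_card (mem_range.1 hA), b1, EW_mul, EW_sum, Nat.cast_zero, sub_zero]
    rw [← sub_le_iff_le_add', ← mul_sub, ← sum_sub_distrib]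
    have b2 := fiber_sum (S := univ) (p := fun y => (y : R n))
      (g := fun y => |den n (H + t) A y - EW t fun v => den n H (A - v.sum) y|) Y (2 ^ n)
      (fun _ => mem_univ _) (fun x y e => (ZMod.natCast_eq_natCast_iff' _ _ _).1 e)
      fun _ => abs_nonneg _
    refine (mul_le_mul_of_nonneg_left ((sum_le_sum fun y _ => ?_).trans b2) (by positivity)).trans ?_
    · rw [← mul_sub]
      split_ifs
      · rw [one_mul]
        exact le_abs_self _
      · rw [zero_mul]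
        exact abs_nonneg _
    · rw [← mul_assoc, ← mul_div_assoc (2 * X : ℝ), mul_div_right_comm (2 * X : ℝ)]
      refine mul_le_mul_of_nonneg_right ?_ (sum_nonneg fun _ _ => abs_nonneg _)
      have b3 : (1 : ℝ) ≤ 2 ^ A := one_le_pow₀ one_le_two
      rw [le_div_iff₀ (by positivity)] at b0 ⊢
      push_cast
      rw [show (3 : ℝ) ^ (H + t) * 2 ^ 0 / 2 ^ (A + 1) * (Y / 2 ^ n + 1) * 2 ^ n =
        (Y * 3 ^ (H + t) + 3 ^ (H + t) * 2 ^ n) / 2 ^ (A + 1) by field_simp,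
        div_le_iff₀ (by positivity), pow_succ]
      nlinarith [X.cast_nonneg (α := ℝ)]
  have a3 : ∀ k : ℕ, ∑ A ∈ range n, 3 ^ t / 2 ^ k * (#(Pr N (2 ^ A * X / 3 ^ (H + t)) H k A) : ℝ) ≤
      β * X + (14 / 15) ^ t * X + X * if (5 / 2 : ℝ) ^ t ≤ 2 ^ k then 1 else 0 := by
    intro k
    have b0 : ((2 ^ k * X / 3 ^ t : ℕ) : ℝ) ≤ 2 ^ k * X / 3 ^ t :=
      Nat.cast_div_le.trans_eq (by push_cast; rfl)
    have b1 := (Nat.cast_le (α := ℝ)).2 (Pr_low N X H t k n)
    generalize 2 ^ k * X / 3 ^ t = X' at b0 b1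
    push_cast at b1
    rw [← mul_sum]
    refine (mul_le_mul_of_nonneg_left b1 (by positivity)).trans ?_
    have b2 : (3 : ℝ) ^ t / 2 ^ k * (3 ^ H * (N + 2)) ≤ (14 / 15) ^ t * X := by
      refine le_trans ?_ h5
      rw [pow_add, mul_comm (3 ^ H : ℝ) (3 ^ t), mul_assoc]
      gcongr
      exact div_le_self (by positivity) (one_le_pow₀ one_le_two)
    have b3 : (3 : ℝ) ^ t / 2 ^ k * X' ≤ X :=
      (mul_le_mul_of_nonneg_left b0 (by positivity)).trans_eq (by field_simp)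
    rw [mul_add]
    split_ifs with e
    · have b4 : Bd N X' ≤ X' := by
        rw [Bd]
        refine (card_le_card (t := Icc 1 X') fun x hx => ?_).trans (by simp)
        simp only [mem_filter, mem_range, mem_Icc] at hx ⊢
        omega
      have b5 : (3 : ℝ) ^ t / 2 ^ k * Bd N X' ≤ 3 ^ t / 2 ^ k * X' := by gcongr
      linarith [mul_nonneg hβ (X.cast_nonneg (α := ℝ))]
    · have b4 : (2 : ℝ) * X' ≤ X := by
        obtain ⟨c, rfl⟩ := Nat.exists_eq_add_of_le ht
        calc (2 : ℝ) * X' ≤ 2 * ((5 / 2) ^ (4 + c) * X / 3 ^ (4 + c)) := by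
              refine mul_le_mul_of_nonneg_left (b0.trans ?_) zero_le_two
              gcongr
              exact (not_le.1 e).le
          _ = 2 * (5 / 6) ^ 4 * (5 / 6) ^ c * X := by
              rw [show (5 / 6 : ℝ) = 5 / 2 / 3 by norm_num, div_pow _ 3 c]
              field_simp
              ring
          _ ≤ 1 * 1 * X := by
              gcongr
              · norm_num
              · exact pow_le_one₀ (by norm_num) (by norm_num)
          _ = X := by ring
      have b5 : (3 : ℝ) ^ t / 2 ^ k * Bd N X' ≤ 3 ^ t / 2 ^ k * (β * X') := by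
        gcongr
        exact ih X' (by exact_mod_cast b4)
      have b6 := mul_le_mul_of_nonneg_left b3 hβ
      linarith
  have a4 := cnt (H + t) X (B := 2 ^ n) (by positivity)
  have a5 : ((X : ℝ) + 3 ^ (H + t)) * ((7 / 3) ^ (H + t) / 2 ^ n) ≤ (X + X) * (14 / 15) ^ t := by
    refine mul_le_mul (add_le_add le_rfl ?_) ?_ (by positivity) (by positivity)
    · exact (le_mul_of_one_le_right (by positivity) (one_le_pow₀ one_le_two)).trans h4
    · rw [← hH, ← hn, show 10 * t + t = 11 * t by ring, pow_mul, pow_mul, ← div_pow]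
      exact pow_le_pow_left₀ (by positivity) (by norm_num) t
  have a6 := sum_le_sum a2
  rw [sum_add_distrib, ← mul_sum, ← EW_sum] at a6
  have a7 := EW_mono (H := t) fun v _ => a3 v.sum
  rw [EW_add, EW_const, EW_mul] at a7
  have a8 := markov t (B := (5 / 2) ^ t) (by positivity)
  rw [← div_pow, show (7 / 3 / (5 / 2) : ℝ) = 14 / 15 by norm_num] at a8
  have a9 := (Nat.cast_le (α := ℝ)).2 a1
  push_cast at a9
  have hX := X.cast_nonneg (α := ℝ)
  have a10 := mul_le_mul_of_nonneg_left a8 hX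
  have a11 := mul_le_mul_of_nonneg_left hm hX
  have a12 := mul_le_mul_of_nonneg_left (hK t) hX
  rw [add_div, mul_div_assoc, mul_div_assoc]
  linarith

theorem odd_bound (α : ℕ) : ∃ K : ℝ, 0 ≤ K ∧ ∀ N X : ℕ, 1600 ≤ Nat.log 2 N →
    (Bd N X : ℝ) ≤ K / (Nat.log 2 N + 1) ^ α * X := by
  obtain ⟨C, hC0, hC⟩ := step (α + 2)
  obtain ⟨K, hK0, hK⟩ := polyK α (ρ := 14 / 15) (by norm_num) (by norm_num)
  obtain ⟨L, hL0, hL1, hL2⟩ : ∃ L : ℝ, 0 ≤ L ∧ 2 * K * 8 ^ α ≤ L ∧ C * 400 ^ (α + 2) ≤ L :=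
    ⟨2 * K * 8 ^ α + C * 400 ^ (α + 2), by positivity, le_add_of_nonneg_right (by positivity),
      le_add_of_nonneg_left (by positivity)⟩
  refine ⟨2 * L, by positivity, fun N X hN => ?_⟩
  generalize hν : Nat.log 2 N = ν at hN
  generalize hb : L / ((ν : ℝ) + 1) ^ α = b
  have hb0 : 0 ≤ b := by rw [← hb]; positivity
  have hN0 : N ≠ 0 := by rintro rfl; simp at hν; omega
  have n1 := Nat.pow_log_le_self 2 hN0
  have n2 := Nat.lt_pow_succ_log_self one_lt_two N
  rw [hν] at n1 n2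
  have key : ∀ s X : ℕ, X < 2 ^ (s + 1) → (Bd N X : ℝ) ≤ b * (2 - 1 / (s + 1)) * X := by
    have mono : ∀ s : ℕ, (1 : ℝ) / (s + 1) ≤ 1 := fun s =>
      (div_le_one (by positivity)).2 (by linarith [s.cast_nonneg (α := ℝ)])
    have small : ∀ s X : ℕ, X ≤ N → (Bd N X : ℝ) ≤ b * (2 - 1 / (s + 1)) * X := by
      intro s X h
      rw [Bd, card_eq_zero.2 (filter_eq_empty_iff.2 fun x hx e => ?_), Nat.cast_zero]
      · have := mono s
        exact mul_nonneg (mul_nonneg hb0 (by linarith)) X.cast_nonneg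
      · have := e.2 0
        rw [mem_range] at hx
        simp only [Function.iterate_zero, id] at this
        omega
    intro s
    induction s with
    | zero => exact fun X h => small 0 X (by omega)
    | succ s ih =>
      intro X hX
      have hX0 := X.cast_nonneg (α := ℝ)
      by_cases h1 : X < 2 ^ (s + 1)
      · refine (ih X h1).trans ?_
        push_cast
        gcongr
        linarith
      by_cases h2 : X ≤ N
      · exact small _ X h2
      have h3 : ν ≤ s + 1 := by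
        have := (Nat.pow_lt_pow_iff_right one_lt_two).1 (n1.trans_lt ((not_le.1 h2).trans hX))
        omega
      have h4 : ∀ j, j ≤ s + 1 → 2 ^ j ≤ X := fun j hj =>
        (Nat.pow_le_pow_right two_pos hj).trans (not_lt.1 h1)
      by_cases h5 : 10 * (s + 1) ≤ 11 * ν
      · have a1 := base (N := N) (X := X) (m := (s + 1) / 8) (hX.le.trans ((Nat.pow_le_pow_right
          two_pos (by omega)).trans ((pow_add _ _ _).trans_le (Nat.mul_le_mul_left _ n1))))
          (le_trans (by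
            rw [pow_mul, pow_mul]
            exact Nat.pow_le_pow_left (by norm_num) _) (h4 (8 * ((s + 1) / 8)) (by omega)))
        refine a1.trans (mul_le_mul_of_nonneg_right ?_ hX0)
        have a2 : K / (((s + 1) / 8 : ℕ) + 1 : ℝ) ^ α ≤ K * 8 ^ α / (ν + 1) ^ α := by
          rw [div_le_div_iff₀ (by positivity) (by positivity), mul_assoc, ← mul_pow]
          gcongr
          exact_mod_cast (by omega)
        have a3 : 2 * K * 8 ^ α / (ν + 1) ^ α ≤ b := by rw [← hb]; gcongr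
        have a4 := hK ((s + 1) / 8)
        have a5 := mul_le_mul_of_nonneg_left (mono (s + 1)) hb0
        rw [mul_assoc, mul_div_assoc] at a3
        linarith
      · have a1 := hC N X ((s + 1) / 400) (b * (2 - 1 / (s + 1))) (by omega)
          (mul_nonneg hb0 (by linarith [mono s])) (h4 _ (by omega))
          ((Nat.mul_le_mul_left _ (show N + 2 ≤ 2 ^ (ν + 2) by rw [pow_succ]; omega)).trans
            ((pow_add _ _ _).symm.trans_le (h4 _ (by omega)))) fun X' h => ih X' (by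
              rw [pow_succ] at hX
              omega)
        refine a1.trans (mul_le_mul_of_nonneg_right ?_ hX0)
        have a2 : C / (((s + 1) / 400 : ℕ) + 1 : ℝ) ^ (α + 2) ≤ L / (s + 2) ^ (α + 2) := by
          refine le_trans ?_ (div_le_div_of_nonneg_right hL2 (by positivity))
          rw [div_le_div_iff₀ (by positivity) (by positivity), mul_assoc, ← mul_pow]
          gcongr
          exact_mod_cast (by omega)
        have a3 : L / (s + 2) ^ (α + 2) ≤ b / ((s + 1) * (s + 2)) := by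
          rw [← hb, div_div, pow_add, sq]
          have : (ν : ℝ) ≤ s + 1 := by exact_mod_cast h3
          gcongr <;> linarith
        push_cast
        rw [show b * (2 - 1 / (s + 1 + 1)) = b * (2 - 1 / (s + 1)) + b / ((s + 1) * (s + 2)) by
          field_simp; ring]
        linarith
  refine (key X X (X.lt_two_pow_self.trans (Nat.pow_lt_pow_right one_lt_two X.lt_succ_self))).trans ?_
  rw [mul_div_assoc, hb, mul_comm 2 b]
  gcongr
  exact sub_le_self _ (by positivity)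

end Pool.Agent.MP_2e2529_nt

end

section

/-! Transfer from the accelerated map on odd numbers to the map of the problem. -/

namespace Pool.Agent.MP_2e2529_nt

open Finset Real Classical

theorem T_iter (i : ℕ → ℕ) (hi : ∀ x, i x = if x % 2 = 0 then x / 2 else 4 * x / 3) :
    ∀ k x, x % 2 = 1 → ∃ j, i^[j] x = T^[k] x := by
  have hT : ∀ x, x % 2 = 1 → T x % 2 = 1 ∧ ∃ j, i^[j] x = T x := by
    intro x hx
    have a := T_spec x
    unfold st at a
    split_ifs at a <;> norm_num at a <;> refine ⟨by omega, ?_⟩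
    · refine ⟨3, ?_⟩
      simp only [Function.iterate_succ_apply', Function.iterate_zero, id, hi]
      split_ifs <;> omega
    · refine ⟨1, ?_⟩
      simp only [Function.iterate_succ_apply', Function.iterate_zero, id, hi]
      split_ifs <;> omega
    · refine ⟨2, ?_⟩
      simp only [Function.iterate_succ_apply', Function.iterate_zero, id, hi]
      split_ifs <;> omega
  intro k
  induction k with
  | zero => exact fun x _ => ⟨0, rfl⟩
  | succ k ih =>
    intro x hx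
    obtain ⟨a, j, hj⟩ := hT x hx
    obtain ⟨l, hl⟩ := ih _ a
    exact ⟨l + j, by rw [Function.iterate_add_apply, hj, hl, Function.iterate_succ_apply]⟩

theorem final (i : ℕ → ℕ) (hi : ∀ x, i x = if x % 2 = 0 then x / 2 else 4 * x / 3) (α : ℕ) :
    ∃ C : ℝ, ∀ N : ℕ, 2 ≤ N → ∀ X : ℕ,
      (#{x ∈ Icc 1 X | ∀ k, N < i^[k] x} : ℝ) ≤ C * X / Real.log N ^ α := by
  obtain ⟨K, hK0, hK⟩ := odd_bound α
  refine ⟨2 * K + 1600 ^ α, fun N hN X => ?_⟩
  have h1 : 0 < Real.log N := Real.log_pos (by exact_mod_cast hN)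
  have h2 : Real.log N ≤ Nat.log 2 N + 1 := by
    have a : (N : ℝ) ≤ 2 ^ (Nat.log 2 N + 1) := by
      exact_mod_cast (Nat.lt_pow_succ_log_self one_lt_two N).le
    refine (Real.log_le_log (by positivity) a).trans ?_
    rw [Real.log_pow]
    push_cast
    exact mul_le_of_le_one_right (by positivity) (by linarith [Real.log_two_lt_d9])
  refine le_trans (b := (2 * K + 1600 ^ α) * X / (Nat.log 2 N + 1) ^ α) ?_ (by gcongr)
  by_cases hν : 1600 ≤ Nat.log 2 N
  swap
  · rw [le_div_iff₀ (by positivity), mul_comm]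
    gcongr
    · exact le_add_of_nonneg_of_le (by positivity) (pow_le_pow_left₀ (by positivity)
        (by exact_mod_cast (by omega)) α)
    · exact (card_filter_le _ _).trans (by simp)
  have hT2 := T_iter i hi
  have key : ∀ X : ℕ, (#{x ∈ Icc 1 X | ∀ k, N < i^[k] x} : ℝ) ≤
      2 * (K / (Nat.log 2 N + 1) ^ α) * X := by
    intro X
    induction X using Nat.strong_induction_on with
    | _ X ih =>
    rcases X.eq_zero_or_pos with rfl | hX
    · simp
    have a1 : #{x ∈ Icc 1 X | ∀ k, N < i^[k] x} ≤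
        Bd N X + #{x ∈ Icc 1 (X / 2) | ∀ k, N < i^[k] x} := by
      refine le_trans (card_le_card fun x hx => ?_) ((card_union_le _ _).trans
        (Nat.add_le_add_left (card_image_le (f := fun y => 2 * y)) _))
      simp only [mem_union, mem_image, mem_filter, mem_Icc, mem_range] at hx ⊢
      by_cases e : x % 2 = 1
      · refine Or.inl ⟨by omega, e, fun k => ?_⟩
        obtain ⟨j, hj⟩ := hT2 k x e
        exact hj ▸ hx.2 j
      · refine Or.inr ⟨x / 2, ⟨by omega, fun k => ?_⟩, by omega⟩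
        have := hx.2 (k + 1)
        rwa [Function.iterate_succ_apply, hi, if_pos (by omega)] at this
    have a2 := (Nat.cast_le (α := ℝ)).2 a1
    have a3 := ih (X / 2) (by omega)
    have a4 := hK N X hν
    have a5 : ((X / 2 : ℕ) : ℝ) ≤ X / 2 := Nat.cast_div_le
    have a6 := mul_le_mul_of_nonneg_left a5
      (show 0 ≤ K / ((Nat.log 2 N : ℝ) + 1) ^ α by positivity)
    push_cast at a2
    linarith
  refine (key X).trans ?_
  rw [← mul_div_assoc, div_mul_eq_mul_div]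
  gcongr
  exact le_add_of_nonneg_right (by positivity)

end Pool.Agent.MP_2e2529_nt

end
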