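import Pool.Agent.Mg.F2e2529.G3b853b

section

/-! Predecessors of a seed along good words, and their distribution in residue classes. -/

namespace Pool.Agent.MP_2e2529_nt

open Finset Real Classical

noncomputable def Rw (w : List ℕ) : ℝ := 3 ^ w.length / 2 ^ w.sum

def Good (K : ℕ) (w : List ℕ) : Prop :=
  (6 / 5 : ℝ) ^ w.length ≤ Rw w ∧ (cw w : ℝ) ≤ (K - 1 / (w.length + 1)) * 3 ^ w.length

def V (z : ℕ) (u : List ℕ) : Prop := ∃ v, 2 ^ u.sum * (2 * v + 1) = 3 ^ u.length * z + cw u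

def QP (y K G n : ℕ) (Z : ℝ) (p : ℕ × ℕ) : Prop :=
  p.2 % 2 = 1 ∧ T^[p.1] (T^[G] p.2) = y ∧ Good K (wd p.1 (T^[G] p.2)) ∧ (wd G p.2).sum < n ∧
    Rw (wd p.1 (T^[G] p.2)) * Rw (wd G p.2) ≤ Z

theorem len_wd (H x : ℕ) : (wd H x).length = H := (mem_wds.1 (wd_mem H x)).1

theorem Rw_pos (w : List ℕ) : 0 < Rw w := by unfold Rw; positivity

theorem Rw_append (w u : List ℕ) : Rw (w ++ u) = Rw w * Rw u := by
  simp only [Rw, List.length_append, List.sum_append]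
  ring

theorem wd_add (L G x : ℕ) : wd (L + G) x = wd L (T^[G] x) ++ wd G x := by
  induction L with
  | zero => simp [wd]
  | succ L ih => rw [Nat.add_right_comm, wd, wd, ih, Function.iterate_add_apply, List.cons_append]

theorem T_odd (k : ℕ) {x : ℕ} (hx : x % 2 = 1) : T^[k] x % 2 = 1 := by
  induction k with
  | zero => exact hx
  | succ k ih =>
    rw [Function.iterate_succ_apply']
    have a := T_spec (T^[k] x)
    unfold st at a
    split_ifs at a <;> norm_num at a <;> omega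

theorem Good.cw_bd {K : ℕ} {w : List ℕ} (h : Good K w) : cw w ≤ K * 3 ^ w.length := by
  have : (cw w : ℝ) ≤ K * 3 ^ w.length :=
    h.2.trans (mul_le_mul_of_nonneg_right (sub_le_self _ (by positivity)) (by positivity))
  exact_mod_cast this

theorem Good.ext {K : ℕ} {w u : List ℕ} (h : Good K w) (h1 : (6 / 5 : ℝ) ^ u.length ≤ Rw u)
    (h2 : (5 / 2 : ℝ) ^ u.length * (w.length + u.length + 1) ^ 2 ≤ Rw w) (h3 : 1 ≤ u.length) :
    Good K (w ++ u) := by
  refine ⟨?_, ?_⟩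
  · rw [List.length_append, pow_add, Rw_append]
    exact mul_le_mul h.1 h1 (by positivity) (Rw_pos _).le
  have a1 : (cw u : ℝ) ≤ 2 ^ u.sum * 3 ^ u.length := by exact_mod_cast cw_le u
  have a2 := h.2
  rw [cw_append, List.length_append, pow_add]
  push_cast
  rw [Rw, le_div_iff₀ (by positivity)] at h1 h2
  have a3 : (1 : ℝ) ≤ u.length := by exact_mod_cast h3
  have a4 : (2 : ℝ) ^ u.sum ≤ (5 / 2) ^ u.length := by
    refine le_of_mul_le_mul_left (h1.trans_eq ?_) (show (0 : ℝ) < (6 / 5) ^ u.length by positivity)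
    rw [← mul_pow]
    norm_num
  generalize u.length = d at *
  generalize w.length = L at *
  have a5 : (2 : ℝ) ^ w.sum * 2 ^ u.sum ≤ (1 / (L + 1) - 1 / (L + d + 1)) * 3 ^ L := by
    rw [show (1 : ℝ) / (L + 1) - 1 / (L + d + 1) = d / ((L + 1) * (L + d + 1)) by field_simp; ring,
      div_mul_eq_mul_div, le_div_iff₀ (by positivity)]
    calc _ ≤ (2 : ℝ) ^ w.sum * (5 / 2) ^ d * ((L + d + 1) * (L + d + 1)) := by gcongr; linarith
      _ = 1 * ((5 / 2) ^ d * (L + d + 1) ^ 2 * 2 ^ w.sum) := by ring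
      _ ≤ _ := by gcongr
  have a6 := mul_le_mul_of_nonneg_left a1 (show (0 : ℝ) ≤ 2 ^ w.sum by positivity)
  have a7 := mul_le_mul_of_nonneg_left a2 (show (0 : ℝ) ≤ 3 ^ d by positivity)
  have a8 := mul_le_mul_of_nonneg_left a5 (show (0 : ℝ) ≤ 3 ^ d by positivity)
  linarith

variable {y K G n : ℕ} {Z : ℝ}

theorem QP.le {p : ℕ × ℕ} (h : QP y K G n Z p) : (p.2 : ℝ) ≤ (y + K) * Z + 3 ^ G := by
  obtain ⟨-, h2, h3, -, h5⟩ := h
  have a1 := fwd p.1 (T^[G] p.2)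
  have a2 := fwd G p.2
  have a3 := h3.cw_bd
  have a4 := cw_le (wd G p.2)
  simp only [Rw, len_wd] at h5 a3 a4
  rw [h2] at a1
  generalize T^[G] p.2 = z at *
  have b1 : (z : ℝ) ≤ (y + K) * (3 ^ p.1 / 2 ^ (wd p.1 z).sum) := by
    rw [← mul_div_assoc, le_div_iff₀ (by positivity)]
    exact_mod_cast (by nlinarith)
  have b2 : (p.2 : ℝ) ≤ z * (3 ^ G / 2 ^ (wd G p.2).sum) + 3 ^ G := by
    rw [← mul_div_assoc, div_add' _ _ _ (by positivity), le_div_iff₀ (by positivity)]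
    exact_mod_cast (by nlinarith)
  refine b2.trans (add_le_add ((mul_le_mul_of_nonneg_right b1 (by positivity)).trans ?_) le_rfl)
  rw [mul_assoc]
  gcongr

theorem QP_fin (y K G n : ℕ) (Z : ℝ) : {p | QP y K G n Z p}.Finite := by
  refine (Set.finite_Iic (⌈5 * Z * 2 ^ n⌉₊, ⌈(y + K) * Z + 3 ^ G⌉₊)).subset fun p hp => ⟨?_, ?_⟩
  · obtain ⟨-, -, h3, h4, h5⟩ := hp
    have a1 := (one_add_mul_le_pow (a := (1 / 5 : ℝ)) (by norm_num) p.1).trans
      (show (1 + 1 / 5 : ℝ) ^ p.1 ≤ _ by simpa [len_wd, show (1 + 5⁻¹ : ℝ) = 6 / 5 by norm_num]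
        using h3.1)
    have a2 : 1 ≤ Rw (wd G p.2) * 2 ^ n := by
      rw [Rw, div_mul_eq_mul_div, one_le_div (by positivity)]
      exact (pow_le_pow_right₀ one_le_two h4.le).trans
        (le_mul_of_one_le_left (by positivity) (one_le_pow₀ (by norm_num)))
    have a3 := mul_le_mul_of_nonneg_right h5 (show (0 : ℝ) ≤ 2 ^ n by positivity)
    have a4 := mul_le_mul_of_nonneg_left a2 (Rw_pos (wd p.1 (T^[G] p.2))).le
    exact Nat.cast_le.1 (le_trans (by linarith) (Nat.le_ceil (5 * Z * 2 ^ n)))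
  · exact Nat.cast_le.1 ((QP.le hp).trans (Nat.le_ceil _))

noncomputable def Q (y K G n : ℕ) (Z : ℝ) : Finset (ℕ × ℕ) := (QP_fin y K G n Z).toFinset

theorem mem_Q {p : ℕ × ℕ} : p ∈ Q y K G n Z ↔ QP y K G n Z p := Set.Finite.mem_toFinset _

theorem mem_PS {p : ℕ × ℕ} : p ∈ Q y K 0 1 Z ↔
    p.2 % 2 = 1 ∧ T^[p.1] p.2 = y ∧ Good K (wd p.1 p.2) ∧ Rw (wd p.1 p.2) ≤ Z := by
  simp [mem_Q, QP, wd, Rw]

theorem depth_le {L σ : ℕ} (h : (6 / 5 : ℝ) ^ L ≤ 2 ^ σ) : L ≤ 4 * σ := by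
  refine (pow_le_pow_iff_right₀ (show (1 : ℝ) < 6 / 5 by norm_num)).1 (h.trans ?_)
  rw [pow_mul]
  gcongr
  norm_num

theorem CC {S : Finset (ℕ × ℕ)} {σ m : ℕ} (hS : S ⊆ Q y K 0 1 Z) (h0 : 0 ≤ Z) (hZ : Z ≤ 2 ^ σ)
    (hm : ∀ p ∈ S, ∀ q ∈ S, p.2 % 2 ^ m = q.2 % 2 ^ m) :
    (#S : ℝ) ≤ 32 * (σ + 1) ^ 2 * (K * Z / 2 ^ m + 1) := by
  rw [card_eq_sum_card_fiberwise (f := fun p => (p.1, (wd p.1 p.2).sum))
    (t := range (4 * σ + 1) ×ˢ range (8 * σ + 1)) fun p hp => ?_]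
  · push_cast
    refine (sum_le_card_nsmul _ _ (K * Z / 2 ^ m + 1) ?_).trans ?_
    · rintro ⟨L, A⟩ -
      generalize hF : {p ∈ S | (p.1, (wd p.1 p.2).sum) = (L, A)} = F
      have hF' : ∀ p ∈ F, p ∈ S ∧ 3 ^ L * y + cw (wd p.1 p.2) = 2 ^ A * p.2 ∧ p.1 = L ∧
          cw (wd p.1 p.2) ≤ K * 3 ^ L ∧ (3 : ℝ) ^ L / 2 ^ A ≤ Z := by
        intro p hp
        obtain ⟨a1, a2⟩ := mem_filter.1 (hF ▸ hp)
        obtain ⟨rfl, rfl⟩ := Prod.mk.inj a2
        obtain ⟨-, b2, b3, b4⟩ := mem_PS.1 (hS a1)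
        have := b3.cw_bd
        rw [Rw, len_wd] at b4
        rw [len_wd] at this
        exact ⟨a1, by rw [← fwd, b2], rfl, this, b4⟩
      rcases F.eq_empty_or_nonempty with rfl | ⟨p₀, hp₀⟩
      · simp only [card_empty, Nat.cast_zero]
        positivity
      rw [← card_image_of_injOn (f := fun p => cw (wd p.1 p.2)) fun p hp q hq e => ?_]
      · refine (card_mod (X := K * 3 ^ L) (m := 2 ^ (A + m)) (fun x hx => ?_)
          fun x hx x' hx' => ?_).trans (add_le_add ?_ le_rfl)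
        · obtain ⟨p, hp, rfl⟩ := mem_image.1 hx
          exact (hF' p hp).2.2.2.1
        · obtain ⟨p, hp, rfl⟩ := mem_image.1 hx
          obtain ⟨q, hq, rfl⟩ := mem_image.1 hx'
          refine Nat.ModEq.add_left_cancel' (3 ^ L * y) ?_
          rw [(hF' p hp).2.1, (hF' q hq).2.1, pow_add]
          exact Nat.ModEq.mul_left' _ (hm p (hF' p hp).1 q (hF' q hq).1)
        · push_cast
          rw [pow_add, ← div_div, mul_div_assoc]
          gcongr
          exact (hF' p₀ hp₀).2.2.2.2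
      · obtain ⟨-, a1, a2, -⟩ := hF' p hp
        obtain ⟨-, a3, a4, -⟩ := hF' q hq
        exact Prod.ext (a2.trans a4.symm) (Nat.eq_of_mul_eq_mul_left (Nat.two_pow_pos A)
          (by rw [← a1, ← a3]; exact congrArg _ e))
    · rw [card_product, card_range, card_range, nsmul_eq_mul]
      push_cast
      exact mul_le_mul_of_nonneg_right (by nlinarith [σ.cast_nonneg (α := ℝ)]) (by positivity)
  · obtain ⟨-, -, b3, b4⟩ := mem_PS.1 (hS hp)
    have a1 := depth_le (b3.1.trans (b4.trans hZ))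
    have a2 := sum_le_of_mem (wd_mem p.1 p.2)
    rw [len_wd] at a1
    exact mem_coe.2 (mem_product.2 ⟨mem_range.2 (by dsimp only; omega),
      mem_range.2 (by dsimp only; omega)⟩)

theorem CS {σ m : ℕ} (h0 : 0 ≤ Z) (hZ : Z ≤ 2 ^ σ) {g : R m → ℝ} (hg : ∀ z, 0 ≤ g z) :
    ∑ p ∈ Q y K 0 1 Z, g p.2 ≤ 32 * (σ + 1) ^ 2 * (K * Z / 2 ^ m + 1) * ∑ z, g z := by
  rw [← sum_fiberwise_of_maps_to' (g := fun p : ℕ × ℕ => (p.2 : R m)) (fun _ _ => mem_univ _),
    mul_sum]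
  refine sum_le_sum fun z _ => ?_
  rw [sum_const, nsmul_eq_mul]
  refine mul_le_mul_of_nonneg_right (CC (filter_subset _ _) h0 hZ fun p hp q hq => ?_) (hg z)
  rw [← ZMod.natCast_eq_natCast_iff', (mem_filter.1 hp).2, (mem_filter.1 hq).2]

theorem cV_den {H k A : ℕ} (hA : A < n) (z : ℕ) :
    (#{u ∈ wds H | u.sum + k = A ∧ V z u} : ℝ) =
      3 ^ H * 2 ^ k / 2 ^ (A + 1) * den n H (A - k) z := by
  rw [card_filter]
  push_cast
  rw [den, ← EW_mul, EW, eq_div_iff (by positivity), sum_mul]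
  refine sum_congr rfl fun w hw => ?_
  by_cases e : w.sum + k = A
  · have := fiber_card (n := n) (A := w.sum) (m := 3 ^ H * z + cw w) (by omega)
    push_cast at this
    rw [if_pos (by omega : (A : ℤ) - k - w.sum = 0), this]
    simp only [e, true_and, V, (mem_wds.1 hw).1]
    split_ifs
    · rw [← e]
      push_cast
      field_simp
      ring
    · simp
  · rw [if_neg (by omega : ¬ (A : ℤ) - k - w.sum = 0), if_neg fun a => e a.1]
    simp

theorem card_fp {α β : Type} (s : Finset α) (t : Finset β) (P : α → β → Prop)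
    [∀ a b, Decidable (P a b)] :
    ∑ a ∈ s, #{b ∈ t | P a b} = #{r ∈ s ×ˢ t | P r.1 r.2} := by
  simp only [card_filter, sum_product]

theorem V_wd (G : ℕ) {x : ℕ} (hx : x % 2 = 1) : V (T^[G] x) (wd G x) :=
  ⟨x / 2, by rw [len_wd, fwd, show 2 * (x / 2) + 1 = x by omega]⟩

theorem wd_inj {G x x' : ℕ} (e1 : T^[G] x = T^[G] x') (e2 : wd G x = wd G x') : x = x' :=
  Nat.eq_of_mul_eq_mul_left (Nat.two_pow_pos (wd G x').sum) (by rw [← fwd G x', ← e1, ← e2, fwd])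

theorem Q_ge : ∑ A ∈ range n, ∑ q ∈ Q y K 0 1 (Z * 2 ^ A / 3 ^ G),
    #{u ∈ wds G | u.sum + 0 = A ∧ V q.2 u} ≤ #(Q y K G n Z) := by
  refine le_trans (sum_le_sum fun A hA => ?_) ((sum_card_fiberwise_eq_card_filter _ (range n)
    fun p : ℕ × ℕ => (wd G p.2).sum).trans_le (card_filter_le _ _))
  rw [card_fp _ _ fun (q : ℕ × ℕ) u => u.sum + 0 = A ∧ V q.2 u]
  refine card_le_card_of_surjOn (fun p => ((p.1, T^[G] p.2), wd G p.2)) ?_
  rintro ⟨⟨L, z⟩, u⟩ hp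
  obtain ⟨b1, rfl, v, b3⟩ := mem_filter.1 (mem_coe.1 hp)
  obtain ⟨b4, b5⟩ := mem_product.1 b1
  rw [(mem_wds.1 b5).1] at b3
  obtain ⟨c1, c2⟩ := bwd b5 b3
  obtain ⟨-, d2, d3, d4⟩ := mem_PS.1 b4
  refine ⟨(L, 2 * v + 1), mem_coe.2 (mem_filter.2 ⟨mem_Q.2 ?_, by rw [c1]; rfl⟩),
    by simp only [c1, c2]⟩
  simp only [QP, c1, c2]
  refine ⟨by omega, d2, d3, mem_range.1 hA, ?_⟩
  rw [le_div_iff₀ (by positivity)] at d4
  rw [Rw.eq_1 u, (mem_wds.1 b5).1, ← mul_div_assoc, div_le_iff₀ (by positivity)]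
  exact d4

theorem Q_le (H t k : ℕ) : #(Q y K H (n - k) (Z * 2 ^ k / 3 ^ t)) ≤ ∑ A ∈ range n,
    ∑ q ∈ Q y K 0 1 (Z * 2 ^ A / 3 ^ (H + t)), #{u ∈ wds H | u.sum + k = A ∧ V q.2 u} := by
  rw [card_eq_sum_card_fiberwise (f := fun p => (wd H p.2).sum + k) (t := range n) fun p hp => ?_]
  · refine sum_le_sum fun A _ => ?_
    rw [card_fp _ _ fun (q : ℕ × ℕ) u => u.sum + k = A ∧ V q.2 u]
    refine card_le_card_of_injOn (fun p => ((p.1, T^[H] p.2), wd H p.2)) (fun p hp => ?_)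
      fun p _ q _ e => ?_
    · obtain ⟨b1, rfl⟩ := mem_filter.1 (mem_coe.1 hp)
      obtain ⟨c1, c2, c3, -, c5⟩ := mem_Q.1 b1
      refine mem_coe.2 (mem_filter.2 ⟨mem_product.2 ⟨mem_PS.2 ⟨T_odd H c1, c2, c3, ?_⟩,
        wd_mem _ _⟩, rfl, V_wd H c1⟩)
      rw [Rw.eq_1 (wd H p.2), len_wd, ← mul_div_assoc, div_le_div_iff₀ (by positivity)
        (by positivity)] at c5
      rw [le_div_iff₀ (by positivity)]
      calc _ = Rw (wd p.1 (T^[H] p.2)) * 3 ^ H * 3 ^ t := by ring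
        _ ≤ _ := c5
        _ = _ := by ring
    · simp only [Prod.mk.injEq] at e
      exact Prod.ext e.1.1 (wd_inj e.1.2 e.2)
  · have := (mem_Q.1 hp).2.2.2.1
    exact mem_coe.2 (mem_range.2 (by dsimp only; omega))

theorem Q_bad {σ : ℕ} (B : List ℕ → Prop) (h0 : 0 ≤ Z) (hZ : Z ≤ 2 ^ σ) (hn : 2 ^ n ≤ 3 ^ G) :
    (#{p ∈ Q y K G n Z | B (wd G p.2)} : ℝ) ≤
      32 * (σ + 1) ^ 2 * (K * Z * EW G (fun u => if B u then 1 else 0) + 3 ^ G) := by
  rw [card_eq_sum_card_fiberwise (f := fun p : ℕ × ℕ => wd G p.2) (t := {u ∈ wds G | B u}) fun p hp =>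
    mem_coe.2 (mem_filter.2 ⟨wd_mem _ _, (mem_filter.1 (mem_coe.1 hp)).2⟩)]
  push_cast
  refine (sum_le_card_nsmul _ _ (32 * (σ + 1) ^ 2 * (K * Z / 3 ^ G + 1)) fun u hu => ?_).trans ?_
  · generalize hF : {p ∈ {p ∈ Q y K G n Z | B (wd G p.2)} | wd G p.2 = u} = F
    have hF' : ∀ p ∈ F, QP y K G n Z p ∧ wd G p.2 = u := fun p hp => by
      rw [← hF, mem_filter, mem_filter] at hp
      exact ⟨mem_Q.1 hp.1.1, hp.2⟩
    rcases F.eq_empty_or_nonempty with rfl | ⟨p₀, hp₀⟩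
    · simp only [card_empty, Nat.cast_zero]
      positivity
    have a1 : (2 : ℝ) ^ u.sum ≤ 3 ^ G := by
      obtain ⟨⟨-, -, -, a, -⟩, rfl⟩ := hF' p₀ hp₀
      exact_mod_cast (Nat.pow_le_pow_right two_pos a.le).trans hn
    rw [← card_image_of_injOn (f := fun p => (p.1, T^[G] p.2)) fun p hp q hq e => ?_]
    · refine (CC (y := y) (K := K) (Z := Z * 2 ^ u.sum / 3 ^ G) (σ := σ) (m := u.sum + 1)
        (fun q hq => ?_) (by positivity) (le_trans ?_ hZ) fun q hq q' hq' => ?_).trans ?_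
      · obtain ⟨p, hp, rfl⟩ := mem_image.1 hq
        obtain ⟨⟨c1, c2, c3, -, c5⟩, rfl⟩ := hF' p hp
        refine mem_PS.2 ⟨T_odd G c1, c2, c3, ?_⟩
        rw [Rw.eq_1 (wd G p.2), len_wd, ← mul_div_assoc, div_le_iff₀ (by positivity)] at c5
        rwa [le_div_iff₀ (by positivity)]
      · rw [div_le_iff₀ (by positivity)]
        gcongr
      · obtain ⟨p, hp, rfl⟩ := mem_image.1 hq
        obtain ⟨p', hp', rfl⟩ := mem_image.1 hq'
        obtain ⟨⟨c1, -⟩, c2⟩ := hF' p hp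
        obtain ⟨⟨c3, -⟩, c4⟩ := hF' p' hp'
        refine Nat.ModEq.cancel_left_of_coprime (c := 3 ^ G) (Nat.Coprime.pow _ _ (by norm_num))
          (Nat.ModEq.add_right_cancel' (cw u) ?_)
        have d1 := fwd G p.2
        have d2 := fwd G p'.2
        rw [c2] at d1
        rw [c4] at d2
        rw [d1, d2, pow_succ]
        exact Nat.ModEq.mul_left' _ (c1.trans c3.symm)
      · gcongr _ * (?_ + _)
        rw [div_le_div_iff₀ (by positivity) (by positivity), pow_succ]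
        calc _ = K * Z * (2 ^ u.sum * 1) := by field_simp
          _ ≤ _ := by gcongr; norm_num
    · obtain ⟨e1, e2⟩ := Prod.mk.inj e
      exact Prod.ext e1 (wd_inj e2 ((hF' p hp).2.trans (hF' q hq).2.symm))
  · rw [nsmul_eq_mul, EW, sum_boole, mul_left_comm, mul_add (#_ : ℝ), mul_one]
    refine mul_le_mul_of_nonneg_left (add_le_add (le_of_eq (by ring)) ?_) (by positivity)
    exact_mod_cast (card_filter_le _ _).trans (card_wds G).le

theorem Q_small {σ : ℕ} {Z₁ : ℝ} (h0 : 0 ≤ Z₁) (hZ : Z₁ ≤ 2 ^ σ) :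
    (#{p ∈ Q y K G n Z | Rw (wd p.1 (T^[G] p.2)) ≤ Z₁} : ℝ) ≤
      32 * (σ + 1) ^ 2 * (K * Z₁ + 1) * 3 ^ G := by
  have a1 := CC (y := y) (K := K) (m := 0) subset_rfl h0 hZ fun _ _ _ _ => by simp [Nat.mod_one]
  have a2 : #{p ∈ Q y K G n Z | Rw (wd p.1 (T^[G] p.2)) ≤ Z₁} ≤ #(Q y K 0 1 Z₁ ×ˢ wds G) := by
    refine card_le_card_of_injOn (fun p => ((p.1, T^[G] p.2), wd G p.2)) (fun p hp => ?_)
      fun p _ q _ e => ?_
    · obtain ⟨b1, b2⟩ := mem_filter.1 (mem_coe.1 hp)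
      obtain ⟨c1, c2, c3, -⟩ := mem_Q.1 b1
      exact mem_coe.2 (mem_product.2 ⟨mem_PS.2 ⟨T_odd G c1, c2, c3, b2⟩, wd_mem _ _⟩)
    · simp only [Prod.mk.injEq] at e
      exact Prod.ext e.1.1 (wd_inj e.1.2 e.2)
  rw [card_product, card_wds] at a2
  rw [pow_zero, div_one] at a1
  refine (Nat.cast_le.2 a2).trans ?_
  push_cast
  gcongr

end Pool.Agent.MP_2e2529_nt

end

section

/-! The renewal inequality for predecessors, and the recursion over scales. -/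

namespace Pool.Agent.MP_2e2529_nt

open Finset Real Classical

theorem typ {d A : ℕ} (h : ¬ (5 / 2 : ℝ) ^ d ≤ 2 ^ A) : (6 / 5 : ℝ) ^ d ≤ 3 ^ d / 2 ^ A := by
  rw [le_div_iff₀ (by positivity), show (3 : ℝ) = 6 / 5 * (5 / 2) by norm_num, mul_pow]
  gcongr
  exact (not_le.1 h).le

theorem markov' (d : ℕ) :
    EW d (fun w => if (5 / 2 : ℝ) ^ d ≤ 2 ^ w.sum then (1 : ℝ) else 0) ≤ (14 / 15) ^ d := by
  have := markov d (B := (5 / 2) ^ d) (by positivity)
  rwa [← div_pow, show (7 / 3 / (5 / 2) : ℝ) = 14 / 15 by norm_num] at this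

theorem EW_split (d H : ℕ) (f g : List ℕ → ℝ) :
    EW (d + H) (fun W => f (W.take d) + g (W.drop d)) = EW d f + EW H g := by
  rw [EW_append, ← EW_const d (EW H g), ← EW_add]
  refine EW_congr fun w hw => ?_
  simp only [List.take_left' (mem_wds.1 hw).1, List.drop_left' (mem_wds.1 hw).1, EW_add, EW_const]

theorem descend {y K σ d H n m : ℕ} {Z Z₁ : ℝ} (h0 : 0 ≤ Z) (hZ : Z ≤ 2 ^ σ)
    (hn : 2 ^ n ≤ 3 ^ (d + H)) (hd : 1 ≤ d) (h1 : (5 / 2) ^ d * (4 * σ + d + 1) ^ 2 ≤ Z₁)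
    (h2 : Z₁ ≤ 2 ^ σ) : (#(Q y K (d + H) n Z) : ℝ) ≤ #(Q y K H m Z) +
      32 * (σ + 1) ^ 2 * (K * Z * ((14 / 15) ^ d + (7 / 3) ^ H / 2 ^ m) + 3 ^ (d + H)) +
      32 * (σ + 1) ^ 2 * (K * Z₁ + 1) * 3 ^ (d + H) := by
  obtain ⟨B, hB⟩ : ∃ B : List ℕ → Prop, ∀ W, B W ↔
    ((5 / 2 : ℝ) ^ d ≤ 2 ^ (W.take d).sum ∨ (2 : ℝ) ^ m ≤ 2 ^ (W.drop d).sum) := ⟨_, fun _ => Iff.rfl⟩
  have a1 := Q_bad (y := y) (K := K) B h0 hZ hn
  have a2 := Q_small (y := y) (K := K) (G := d + H) (n := n) (Z := Z)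
    (le_trans (by positivity) h1) h2
  have a3 : EW (d + H) (fun u => if B u then (1 : ℝ) else 0) ≤
      (14 / 15) ^ d + (7 / 3) ^ H / 2 ^ m := by
    refine le_trans (EW_mono fun W _ => ?_) ((EW_split _ _ _ _).trans_le
      (add_le_add (markov' d) (markov H (by positivity))))
    simp only [hB]
    split_ifs <;> first | tauto | norm_num
  have a4 : #{p ∈ Q y K (d + H) n Z | ¬ B (wd (d + H) p.2) ∧
      ¬ Rw (wd p.1 (T^[d + H] p.2)) ≤ Z₁} ≤ #(Q y K H m Z) := by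
    refine card_le_card_of_injOn (fun p => (p.1 + d, p.2)) (fun p hp => ?_) fun p _ q _ e => ?_
    · obtain ⟨b1, b2, b3⟩ := mem_filter.1 (mem_coe.1 hp)
      obtain ⟨c1, c2, c3, c4, c5⟩ := mem_Q.1 b1
      have b4 : (1 : ℝ) ≤ Rw (wd (d + H) p.2) := by
        rw [Rw, len_wd, one_le_div (by positivity)]
        exact_mod_cast (Nat.pow_le_pow_right two_pos c4.le).trans hn
      have b5 := depth_le (c3.1.trans (((le_mul_of_one_le_right (Rw_pos _).le b4).trans c5).trans hZ))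
      rw [hB, wd_add, List.take_left' (len_wd _ _), List.drop_left' (len_wd _ _), not_or] at b2
      rw [Function.iterate_add_apply] at c2 c3 c5 b3 b5
      refine mem_coe.2 (mem_Q.2 ⟨c1, ?_, ?_, ?_, ?_⟩)
      · rwa [Function.iterate_add_apply]
      · rw [wd_add]
        refine c3.ext ?_ (le_trans ?_ (h1.trans (not_le.1 b3).le)) (by rwa [len_wd])
        · rw [Rw, len_wd]
          exact typ b2.1
        · rw [len_wd d]
          gcongr
          exact_mod_cast b5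
      · exact (pow_lt_pow_iff_right₀ one_lt_two).1 (not_le.1 b2.2)
      · rwa [wd_add, Rw_append, mul_assoc, ← Rw_append (wd d _), ← wd_add]
    · obtain ⟨e1, e2⟩ := Prod.mk.inj e
      exact Prod.ext (by omega) e2
  have a5 : #(Q y K (d + H) n Z) ≤ #(Q y K H m Z) + #{p ∈ Q y K (d + H) n Z | B (wd (d + H) p.2)} +
      #{p ∈ Q y K (d + H) n Z | Rw (wd p.1 (T^[d + H] p.2)) ≤ Z₁} := by
    refine le_trans (card_le_card fun p hp => ?_) ((card_union_le _ _).trans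
      (Nat.add_le_add_right ((card_union_le _ _).trans (Nat.add_le_add_right a4 _)) _))
    simp only [mem_union, mem_filter, hp, true_and]
    tauto
  have a6 := (Nat.cast_le (α := ℝ)).2 a5
  push_cast at a6
  refine a6.trans (add_le_add (add_le_add le_rfl (a1.trans ?_)) a2)
  gcongr

theorem pstep (α : ℕ) : ∃ C : ℝ, 0 ≤ C ∧ ∀ (y K t σ : ℕ) (Z β : ℝ), 1 ≤ K → 25 ≤ t →
    σ ≤ 400 * t + 400 → 2 ^ (400 * t) ≤ Z → Z ≤ 2 ^ σ → β ≤ 1 →
    (∀ Z', Z / 3 ^ t ≤ Z' → 2 * Z' ≤ Z → ∃ d t', d + 10 * t = 11 * t' ∧ t ≤ 2 * d ∧ d ≤ t ∧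
      β * Z' ≤ #(Q y K (11 * t') (14 * t') Z')) →
    (β - K * C / (t + 1) ^ α) * Z ≤ #(Q y K (11 * t) (14 * t) Z) := by
  obtain ⟨C, hC0, hC⟩ := mix (α + 2)
  obtain ⟨E, hE0, hE⟩ := polyK (α + 2) (ρ := 29 / 30) (by norm_num) (by norm_num)
  refine ⟨32 * 401 ^ 2 * (C + 5 * E), by positivity, fun y K t σ Z β hK ht hσ h1 h2 hβ ih => ?_⟩
  have hm := hC t t
  rw [show 11 * t = 10 * t + t by ring]
  generalize hn : 14 * t = n at hm ⊢
  generalize hH : 10 * t = H at hm ih ⊢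
  have hZ : 0 < Z := lt_of_lt_of_le (by positivity) h1
  have hK' : (1 : ℝ) ≤ K := by exact_mod_cast hK
  have h3 : (3 : ℝ) ^ (H + t) ≤ 2 ^ (18 * t) := by
    rw [← hH, show 10 * t + t = 11 * t by ring, pow_mul, pow_mul]
    gcongr
    norm_num
  have h4 : (3 : ℝ) ^ (H + t) * 2 ^ n ≤ Z :=
    calc (3 : ℝ) ^ (H + t) * 2 ^ n ≤ 2 ^ (18 * t) * 2 ^ n := by gcongr
      _ ≤ 2 ^ (400 * t) := by rw [← pow_add]; exact pow_le_pow_right₀ one_le_two (by omega)
      _ ≤ _ := h1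
  have h5 : (2 : ℝ) ^ n ≤ 3 ^ (H + t) := by
    rw [← hn, ← hH, show 10 * t + t = 11 * t by ring, pow_mul, pow_mul]
    gcongr
    norm_num
  generalize hP : 32 * ((σ : ℝ) + 1) ^ 2 = P
  have hP1 : 1 ≤ P := by rw [← hP]; nlinarith [σ.cast_nonneg (α := ℝ)]
  have hP2 : P ≤ 32 * 401 ^ 2 * (t + 1) ^ 2 := by
    rw [← hP, mul_assoc, ← mul_pow]
    gcongr
    exact_mod_cast (by omega)
  have a1 := (Nat.cast_le (α := ℝ)).2 (Q_ge (y := y) (K := K) (G := H + t) (n := n) (Z := Z))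
  have a2 : ∀ A ∈ range n, EW t (fun v => 3 ^ t / 2 ^ v.sum *
      ∑ q ∈ Q y K 0 1 (Z * 2 ^ A / 3 ^ (H + t)), (#{u ∈ wds H | u.sum + v.sum = A ∧ V q.2 u} : ℝ)) ≤
      ∑ q ∈ Q y K 0 1 (Z * 2 ^ A / 3 ^ (H + t)),
        (#{u ∈ wds (H + t) | u.sum + 0 = A ∧ V q.2 u} : ℝ) + P * K * Z *
      ((∑ y : R n, |den n (H + t) A y - EW t fun v => den n H (A - v.sum) y|) / 2 ^ n) := by
    intro A hA
    have b1 : ∀ (k : ℕ) (x : ℝ), 3 ^ t / 2 ^ k * (3 ^ H * 2 ^ k / 2 ^ (A + 1) * x) =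
        3 ^ (H + t) * 2 ^ 0 / 2 ^ (A + 1) * x := fun k x => by field_simp; ring
    simp only [cV_den (mem_range.1 hA), ← mul_sum, b1, EW_mul, EW_sum, Nat.cast_zero, sub_zero]
    rw [← sub_le_iff_le_add', ← mul_sub, ← sum_sub_distrib]
    have b2 := CS (y := y) (K := K) (Z := Z * 2 ^ A / 3 ^ (H + t)) (σ := σ)
      (g := fun y : R n => |den n (H + t) A y - EW t fun v => den n H (A - v.sum) y|)
      (by positivity) (le_trans (by
        rw [div_le_iff₀ (by positivity)]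
        gcongr
        exact (pow_le_pow_right₀ one_le_two (mem_range.1 hA).le).trans h5) h2) fun _ => abs_nonneg _
    refine (mul_le_mul_of_nonneg_left ((sum_le_sum fun q _ => ?_).trans b2) (by positivity)).trans ?_
    · rw [abs_sub_comm]
      exact le_abs_self _
    · rw [hP, ← mul_assoc, ← mul_div_assoc (P * K * Z : ℝ), mul_div_right_comm (P * K * Z : ℝ)]
      refine mul_le_mul_of_nonneg_right ?_ (sum_nonneg fun _ _ => abs_nonneg _)
      have b3 : (1 : ℝ) ≤ 2 ^ A := one_le_pow₀ one_le_two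
      rw [le_div_iff₀ (by positivity), show (3 : ℝ) ^ (H + t) * 2 ^ 0 / 2 ^ (A + 1) *
        (P * (K * (Z * 2 ^ A / 3 ^ (H + t)) / 2 ^ n + 1)) * 2 ^ n =
        P * (K * Z / 2 + 3 ^ (H + t) * 2 ^ n / 2 ^ A / 2) by field_simp; ring, mul_assoc]
      have b4 := (div_le_self (by positivity) b3).trans (h4.trans (le_mul_of_one_le_left hZ.le hK'))
      gcongr
      linarith
  have a3 : ∀ k : ℕ, β * Z - 4 * P * K * Z * (29 / 30) ^ t -
      Z * (if (5 / 2 : ℝ) ^ t ≤ 2 ^ k then 1 else 0) ≤ ∑ A ∈ range n, 3 ^ t / 2 ^ k *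
      ∑ q ∈ Q y K 0 1 (Z * 2 ^ A / 3 ^ (H + t)), (#{u ∈ wds H | u.sum + k = A ∧ V q.2 u} : ℝ) := by
    intro k
    have b0 := (Nat.cast_le (α := ℝ)).2 (Q_le (y := y) (K := K) (n := n) (Z := Z) H t k)
    push_cast at b0
    rw [← mul_sum]
    refine le_trans ?_ (mul_le_mul_of_nonneg_left b0 (by positivity))
    split_ifs with e
    · refine le_trans ?_ (show (0 : ℝ) ≤ _ by positivity)
      nlinarith [show 0 ≤ 4 * P * K * Z * (29 / 30) ^ t by positivity]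
    have b1 : (2 : ℝ) ≤ 3 ^ t / 2 ^ k := le_trans (le_trans (by norm_num)
      (pow_le_pow_right₀ (by norm_num) (show 4 ≤ t by omega))) (typ e)
    have b2 : (1 : ℝ) ≤ 2 ^ k := one_le_pow₀ one_le_two
    generalize hZ' : Z * 2 ^ k / 3 ^ t = Z'
    have b3 : 3 ^ t / 2 ^ k * Z' = Z := by rw [← hZ']; field_simp
    have b4 : 0 < Z' := by rw [← hZ']; positivity
    have b5 : 2 * Z' ≤ Z := by rw [← b3]; gcongr
    obtain ⟨d, t', c1, c2, c3, c4⟩ := ih Z' (by
      rw [← hZ']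
      gcongr
      exact le_mul_of_one_le_right hZ.le b2) b5
    have c5 := descend (y := y) (K := K) (σ := σ) (d := d) (H := H) (n := 14 * t') (m := n - k)
      (Z := Z') (Z₁ := 2 ^ (5 * t)) b4.le (by linarith) (by
        rw [c1, pow_mul, pow_mul]
        exact Nat.pow_le_pow_left (by norm_num) _) (by omega) ?_
      ((pow_le_pow_right₀ one_le_two (by omega)).trans (h1.trans h2))
    swap
    · have d1 : 4 * σ + d + 1 ≤ 2 ^ (t + 11) := by
        have := t.lt_two_pow_self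
        rw [pow_add]
        omega
      calc (5 / 2 : ℝ) ^ d * (4 * σ + d + 1) ^ 2 ≤ (2 ^ 2) ^ d * (2 ^ (t + 11)) ^ 2 := by
            gcongr
            · norm_num
            · exact_mod_cast d1
        _ ≤ _ := by
            rw [← pow_mul, ← pow_mul, ← pow_add]
            exact pow_le_pow_right₀ one_le_two (by omega)
    have d1 : (14 / 15 : ℝ) ^ d ≤ (29 / 30) ^ t :=
      calc (14 / 15 : ℝ) ^ d ≤ ((29 / 30) ^ 2) ^ d := by gcongr; norm_num
        _ ≤ _ := by rw [← pow_mul]; exact pow_le_pow_of_le_one (by norm_num) (by norm_num) c2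
    have d2 : (7 / 3 : ℝ) ^ H / 2 ^ (n - k) ≤ (29 / 30) ^ t := by
      have : (2 : ℝ) ^ n ≤ 2 ^ (n - k) * (5 / 2) ^ t :=
        (pow_le_pow_right₀ one_le_two le_tsub_add).trans ((pow_add _ _ _).trans_le
          (mul_le_mul_of_nonneg_left (not_le.1 e).le (by positivity)))
      rw [div_le_iff₀ (by positivity)]
      refine le_of_mul_le_mul_right ?_ (show (0 : ℝ) < (5 / 2) ^ t by positivity)
      refine le_trans ?_ ((mul_le_mul_of_nonneg_left this (by positivity)).trans_eq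
        (mul_assoc _ _ _).symm)
      rw [← hH, ← hn, pow_mul, pow_mul, ← mul_pow, ← mul_pow]
      exact pow_le_pow_left₀ (by positivity) (by norm_num) t
    have d3 : (3 : ℝ) ^ t / 2 ^ k * (3 ^ (d + H) * (K * 2 ^ (5 * t) + 2)) ≤
        2 * K * Z * (29 / 30) ^ t :=
      calc (3 : ℝ) ^ t / 2 ^ k * (3 ^ (d + H) * (K * 2 ^ (5 * t) + 2)) ≤
            3 ^ t * (3 ^ (11 * t) * (K * 2 ^ (5 * t) + K * 2 ^ (5 * t))) := by
            gcongr
            · exact div_le_self (by positivity) b2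
            · norm_num
            · omega
            · exact le_trans (by norm_num) (mul_le_mul hK' (pow_le_pow_right₀ one_le_two
                (show 1 ≤ 5 * t by omega)) (by norm_num) (by positivity))
        _ = 2 * K * (3 * 3 ^ 11 * 2 ^ 5) ^ t := by rw [mul_pow, mul_pow, pow_mul, pow_mul]; ring
        _ ≤ 2 * K * (2 ^ 30 * (29 / 30)) ^ t := mul_le_mul_of_nonneg_left
            (pow_le_pow_left₀ (by norm_num) (by norm_num) t) (by positivity)
        _ ≤ _ := by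
            rw [mul_pow, ← pow_mul, ← mul_assoc]
            gcongr
            exact (pow_le_pow_right₀ one_le_two (by omega)).trans h1
    rw [c1, hP] at c5
    rw [c1] at d3
    have d4 : β * Z' - P * (K * Z' * (2 * (29 / 30) ^ t)) -
        P * (3 ^ (11 * t') * (K * 2 ^ (5 * t) + 2)) ≤ #(Q y K H (n - k) Z') := by
      have : P * (K * Z' * ((14 / 15) ^ d + (7 / 3) ^ H / 2 ^ (n - k))) ≤
          P * (K * Z' * (2 * (29 / 30) ^ t)) := by
        gcongr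
        linarith
      linarith
    refine le_trans ?_ (mul_le_mul_of_nonneg_left d4 (by positivity))
    have d5 := mul_le_mul_of_nonneg_left d3 (zero_le_one.trans hP1)
    rw [← b3] at d5 ⊢
    linarith
  have a4 := sum_le_sum a2
  rw [sum_add_distrib, ← mul_sum, ← EW_sum] at a4
  have a5 := EW_mono (H := t) fun v _ => a3 v.sum
  rw [EW_sub, EW_const, EW_mul] at a5
  push_cast at a1
  have a6 : (14 / 15 : ℝ) ^ t ≤ P * K * (29 / 30) ^ t :=
    (pow_le_pow_left₀ (by norm_num) (by norm_num) t).trans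
      (le_mul_of_one_le_left (by positivity) (one_le_mul_of_one_le_of_one_le hP1 hK'))
  have a7 := mul_le_mul_of_nonneg_left ((markov' t).trans a6) hZ.le
  have a8 := mul_le_mul_of_nonneg_left hm (show 0 ≤ P * K * Z by positivity)
  have a9 := mul_le_mul_of_nonneg_left (hE t) (show 0 ≤ P * K * Z by positivity)
  have a10 : P * K * Z * (C / (t + 1) ^ (α + 2) + 5 * (E / (t + 1) ^ (α + 2))) ≤
      K * (32 * 401 ^ 2 * (C + 5 * E)) / (t + 1) ^ α * Z :=
    calc _ ≤ 32 * 401 ^ 2 * (t + 1) ^ 2 * K * Z *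
          (C / (t + 1) ^ (α + 2) + 5 * (E / (t + 1) ^ (α + 2))) := by gcongr
      _ = _ := by field_simp; ring
  linarith

theorem prec : ∃ C : ℝ, 0 ≤ C ∧ ∀ (y K s₀ : ℕ) (β Z₀ : ℝ), 1 ≤ K → 0 ≤ β → β ≤ 1 → 40000 ≤ s₀ →
    2 ^ s₀ ≤ Z₀ → K * C ≤ β * s₀ ^ 4 →
    (∀ (s : ℕ) (Z : ℝ), 2 ^ s ≤ Z → Z < 2 ^ (s + 1) → Z₀ ≤ Z → Z < Z₀ * 3 ^ (s / 400) →
      ∃ t, 400 * t ≤ s ∧ s ≤ 404 * t + 1000 ∧ β * Z ≤ #(Q y K (11 * t) (14 * t) Z)) →
    ∀ (s : ℕ) (Z : ℝ), 2 ^ s ≤ Z → Z < 2 ^ (s + 1) → Z₀ ≤ Z →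
      ∃ t, 400 * t ≤ s ∧ s ≤ 404 * t + 1000 ∧
        β / 2 * (1 + s₀ / s) * Z ≤ #(Q y K (11 * t) (14 * t) Z) := by
  obtain ⟨C, hC0, hC⟩ := pstep 5
  refine ⟨2 * C * 400 ^ 5, by positivity, fun y K s₀ β Z₀ hK h0 h1 h2 h3 h4 hb s => ?_⟩
  have hs : ∀ (s : ℕ) (Z : ℝ), Z < 2 ^ (s + 1) → Z₀ ≤ Z → s₀ ≤ s := fun s Z a b =>
    Nat.le_of_lt_succ ((pow_lt_pow_iff_right₀ one_lt_two).1 ((h3.trans b).trans_lt a))
  have hle : ∀ s : ℕ, s₀ ≤ s → β / 2 * (1 + s₀ / s) ≤ β := fun s a => by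
    have : (s₀ : ℝ) / s ≤ 1 := div_le_one_of_le₀ (by exact_mod_cast a) s.cast_nonneg
    nlinarith
  induction s using Nat.strong_induction_on with
  | _ s ih =>
  intro Z a1 a2 a3
  have a4 := hs s Z a2 a3
  have hZ : 0 < Z := lt_of_lt_of_le (by positivity) a1
  by_cases a5 : Z < Z₀ * 3 ^ (s / 400)
  · obtain ⟨t, b1, b2, b3⟩ := hb s Z a1 a2 a3 a5
    exact ⟨t, b1, b2, (mul_le_mul_of_nonneg_right (hle s a4) hZ.le).trans b3⟩
  have key : ∀ Z', Z / 3 ^ (s / 400) ≤ Z' → 2 * Z' ≤ Z →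
      ∃ s', s₀ ≤ s' ∧ s' < s ∧ s ≤ s' + 2 * (s / 400) ∧ 2 ^ s' ≤ Z' ∧ Z' < 2 ^ (s' + 1) ∧ Z₀ ≤ Z' := by
    intro Z' b1 b2
    have b3 : Z₀ ≤ Z' := ((le_div_iff₀ (by positivity)).2 (not_lt.1 a5)).trans b1
    obtain ⟨s', c1, c2⟩ := exists_nat_pow_near ((one_le_pow₀ one_le_two).trans (h3.trans b3))
      one_lt_two
    refine ⟨s', hs s' Z' c2 b3, ?_, ?_, c1, c2, b3⟩
    · have : (2 : ℝ) ^ (s' + 1) < 2 ^ (s + 1) := by rw [pow_succ]; linarith
      exact Nat.lt_of_succ_lt_succ ((pow_lt_pow_iff_right₀ one_lt_two).1 this)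
    · rw [div_le_iff₀ (by positivity)] at b1
      have : (2 : ℝ) ^ s < 2 ^ (s' + 1 + 2 * (s / 400)) := by
        rw [pow_add, pow_mul]
        exact (a1.trans b1).trans_lt (mul_lt_mul c2 (pow_le_pow_left₀ (by norm_num) (by norm_num) _)
          (by positivity) (by positivity))
      have := (pow_lt_pow_iff_right₀ one_lt_two).1 this
      omega
  obtain ⟨s₁, rfl⟩ : ∃ s₁, s = s₁ + 1 := ⟨s - 1, by omega⟩
  have a6 : s₀ ≤ s₁ := by
    obtain ⟨s', c1, c2, -⟩ := key (Z / 2) (by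
      gcongr
      exact le_trans (by norm_num) (pow_le_pow_right₀ (by norm_num)
        (show 1 ≤ (s₁ + 1) / 400 by omega))) (by linarith)
    omega
  refine ⟨(s₁ + 1) / 400, by omega, by omega, le_trans (mul_le_mul_of_nonneg_right ?_ hZ.le)
    (hC y K _ (s₁ + 1 + 1) Z (β / 2 * (1 + s₀ / s₁)) hK (by omega) (by omega)
      ((pow_le_pow_right₀ one_le_two (by omega)).trans a1) a2.le ((hle s₁ a6).trans h1)
      fun Z' b1 b2 => ?_)⟩
  · have b0 : (0 : ℝ) < s₁ := by exact_mod_cast (by omega)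
    have b1 : (s₀ : ℝ) ≤ s₁ + 1 := by exact_mod_cast a4
    have b2 : K * C / ((((s₁ + 1) / 400 : ℕ) : ℝ) + 1) ^ 5 ≤ K * C * 400 ^ 5 / (s₁ + 1) ^ 5 := by
      rw [div_le_div_iff₀ (by positivity) (by positivity), mul_assoc (K * C), ← mul_pow]
      gcongr
      exact_mod_cast (by omega)
    have b3 : K * C * 400 ^ 5 / (s₁ + 1) ^ 5 ≤ β / 2 * (s₀ / (s₁ * (s₁ + 1))) :=
      calc K * C * 400 ^ 5 / (s₁ + 1) ^ 5 ≤ β / 2 * (s₀ * s₀ ^ 3) / (s₁ + 1) ^ 5 :=
            div_le_div_of_nonneg_right (by linarith) (by positivity)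
        _ ≤ β / 2 * (s₀ * (s₁ + 1) ^ 3) / (s₁ + 1) ^ 5 := by gcongr
        _ = β / 2 * (s₀ / ((s₁ + 1) * (s₁ + 1))) := by field_simp
        _ ≤ _ := by gcongr; linarith
    push_cast
    rw [show β / 2 * (1 + s₀ / (s₁ + 1)) =
      β / 2 * (1 + s₀ / s₁) - β / 2 * (s₀ / (s₁ * (s₁ + 1))) by field_simp; ring]
    linarith
  · obtain ⟨s', c1, c2, c3, c4, c5, c6⟩ := key Z' b1 b2
    obtain ⟨t', d1, d2, d3⟩ := ih s' c2 Z' c4 c5 c6
    refine ⟨11 * t' - 10 * ((s₁ + 1) / 400), t', by omega, by omega, by omega, le_trans ?_ d3⟩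
    have : (0 : ℝ) < s' := by exact_mod_cast (by omega)
    have : 0 ≤ Z' := le_trans (by positivity) c4
    gcongr
    omega

end Pool.Agent.MP_2e2529_nt

end

section

/-! The choice of the residue class of the seed. -/

namespace Pool.Agent.MP_2e2529_nt

open Finset Real Classical

theorem passage (J : ℕ) {Z r : ℝ} (h0 : 0 < r) (h1 : r ≤ Z) :
    Z / 3 * EW J (fun u => if Z < r * Rw u then 1 else 0) ≤
      ∑ j ∈ range J, EW j fun u => if r * Rw u ≤ Z then r * Rw u else 0 := by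
  induction J generalizing r with
  | zero => simp [EW_zero, Rw, h1.not_gt]
  | succ J ih =>
    rw [sum_range_succ', EW_zero, show r * Rw [] = r by simp [Rw], if_pos h1]
    by_cases e : Z / 3 ≤ r
    · refine le_add_of_nonneg_of_le (sum_nonneg fun j _ => EW_nonneg fun u _ => ?_)
        ((mul_le_of_le_one_right (by linarith) ?_).trans e)
      · have := Rw_pos u
        positivity
      · exact (EW_mono fun u _ => by split_ifs <;> norm_num).trans_eq (EW_const _ (1 : ℝ))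
    have a : ∀ (a : ℕ) (u : List ℕ), r * Rw (a :: u) = r * 3 / 2 ^ a * Rw u := fun a u => by
      simp only [Rw, List.length_cons, List.sum_cons]
      ring
    have b : ∀ a : ℕ, r * 3 / 2 ^ a ≤ Z := fun a =>
      (div_le_self (by positivity) (one_le_pow₀ one_le_two)).trans (by linarith)
    simp only [EW_succ, a, ← sum_div, sum_add_distrib]
    linarith [ih (by positivity) (b 0), ih (by positivity) (b 1), ih (by positivity) (b 2)]

noncomputable def dnf (n H : ℕ) (f : List ℕ → ℝ) (y : R n) : ℝ := EW H fun w =>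
  f w * (#{v : R n | 2 ^ w.sum * (2 * v + 1) = 3 ^ H * y + cw w} : ℝ)

theorem sum_dnf (n H : ℕ) (f : List ℕ → ℝ) : ∑ y, dnf n H f y = 2 ^ n * EW H f := by
  simp only [dnf, ← EW_sum, ← EW_mul, ← mul_sum]
  refine EW_congr fun w _ => ?_
  have : ∀ v y : R n, 2 ^ w.sum * (2 * v + 1) = 3 ^ H * y + cw w ↔
      y = th n ^ H * (2 ^ w.sum * (2 * v + 1) - cw w) := fun v y =>
    ⟨fun e => by linear_combination -th n ^ H * e - y * pow_th n H, fun e => by
      linear_combination -3 ^ H * e - (2 ^ w.sum * (2 * v + 1) - cw w) * pow_th n H⟩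
  simp only [card_filter, this]
  push_cast
  rw [sum_comm]
  simp [ZMod.card, mul_comm]

theorem den_nonneg (n H : ℕ) (A : ℤ) (y : R n) : 0 ≤ den n H A y :=
  EW_nonneg fun _ _ => by positivity

theorem level (y K L G m n : ℕ) {Z : ℝ} (hZ : 0 ≤ Z) :
    ∑ A ∈ range n, (if 3 ^ (L + G) / 2 ^ A ≤ Z then 3 ^ (L + G) / 2 ^ A / 2 else 0) *
      den n (L + G) A y - Z / 2 * dnf n (L + G)
        (fun W => if Good K (W.take L) ∧ (W.drop L).sum < m then 0 else 1) y ≤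
      #{p ∈ Q y K G m Z | p.1 = L} := by
  have a1 : #{W ∈ wds (L + G) | Rw W ≤ Z ∧ (Good K (W.take L) ∧ (W.drop L).sum < m) ∧ V y W} ≤
      #{p ∈ Q y K G m Z | p.1 = L} := by
    refine card_le_card_of_surjOn (fun p => wd (L + G) p.2) fun W hW => ?_
    obtain ⟨b1, b2, ⟨b3, b4⟩, v, b5⟩ := mem_filter.1 (mem_coe.1 hW)
    rw [(mem_wds.1 b1).1] at b5
    obtain ⟨c1, c2⟩ := bwd b1 b5
    refine ⟨(L, 2 * v + 1), mem_coe.2 (mem_filter.2 ⟨mem_Q.2 ?_, rfl⟩), c1⟩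
    rw [← c1, wd_add] at b2 b3 b4
    rw [List.take_left' (len_wd _ _)] at b3
    rw [List.drop_left' (len_wd _ _)] at b4
    exact ⟨by omega, by rw [← Function.iterate_add_apply, c2], b3, b4, by rwa [← Rw_append]⟩
  refine le_trans ?_ (Nat.cast_le.2 a1)
  generalize L + G = M
  rw [card_filter]
  push_cast
  simp only [den, dnf, ← EW_mul, ← EW_sum, ← EW_sub]
  rw [EW, div_le_iff₀ (by positivity), sum_mul]
  refine sum_le_sum fun W hW => ?_
  by_cases e : W.sum < n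
  · have := fiber_card (n := n) (m := 3 ^ M * y + cw W) e
    push_cast at this
    rw [sum_eq_single_of_mem W.sum (mem_range.2 e) fun A _ hA => by
      rw [if_neg (by omega : ¬ (A : ℤ) - W.sum = 0), mul_zero], if_pos (sub_self _), this]
    simp only [V, Rw, (mem_wds.1 hW).1]
    by_cases e1 : ∃ u, 2 ^ W.sum * (2 * u + 1) = 3 ^ M * y + cw W
    · have b : (3 : ℝ) ^ M / 2 ^ W.sum / 2 * (2 ^ (W.sum + 1) : ℕ) = 3 ^ M := by
        push_cast
        field_simp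
        ring
      simp only [e1, if_true, and_true]
      by_cases e2 : (3 : ℝ) ^ M / 2 ^ W.sum ≤ Z
      · simp only [e2, if_true, true_and, b]
        split_ifs
        · simp
        · rw [← b, one_mul, zero_mul, sub_nonpos]
          gcongr
      · simp only [e2, if_false, false_and, zero_mul, zero_sub, neg_nonpos]
        positivity
    · simp [e1]
  · rw [sum_eq_zero fun A hA => by
      rw [if_neg (by rw [mem_range] at hA; omega : ¬ (A : ℤ) - W.sum = 0), mul_zero], zero_sub]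
    exact le_trans (neg_nonpos.2 (by positivity)) (by positivity)

theorem not_nice {K L t : ℕ} (hK : 0 < K) (hL : t ≤ L) : EW (L + 11 * t)
    (fun W => if Good (K + 1) (W.take L) ∧ (W.drop L).sum < 14 * t then (0 : ℝ) else 1) ≤
      2 * (14 / 15) ^ t + 1 / K := by
  have a1 : EW L (fun w => (if (5 / 2 : ℝ) ^ L ≤ 2 ^ w.sum then (1 : ℝ) else 0) +
      1 / K / 3 ^ L * cw w) ≤ (14 / 15) ^ t + 1 / K := by
    rw [EW_add, EW_mul]
    exact add_le_add ((markov' L).trans (pow_le_pow_of_le_one (by norm_num) (by norm_num) hL))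
      ((mul_le_mul_of_nonneg_left (EW_cw L) (by positivity)).trans_eq (by field_simp))
  have a2 := markov (11 * t) (B := 2 ^ (14 * t)) (by positivity)
  have a3 : (7 / 3 : ℝ) ^ (11 * t) / 2 ^ (14 * t) ≤ (14 / 15) ^ t := by
    rw [pow_mul, pow_mul, ← div_pow]
    exact pow_le_pow_left₀ (by positivity) (by norm_num) t
  refine le_trans (EW_mono fun W hW => ?_) ((EW_split _ _ _ _).trans_le
    ((add_le_add a1 (a2.trans a3)).trans_eq (by ring)))
  have b1 : (W.take L).length = L := by simp [(mem_wds.1 hW).1]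
  generalize W.take L = w at *
  generalize (W.drop L).sum = B
  have b2 : (0 : ℝ) ≤ 1 / K / 3 ^ L * cw w := by positivity
  split_ifs with e1 e2 e3 e4 e5 e6 e7 <;> try linarith
  rw [zero_add, add_zero, div_div, one_div, ← div_eq_inv_mul, one_le_div (by positivity)]
  by_contra e
  refine e1 ⟨⟨by rw [Rw, b1]; exact typ e5, (not_le.1 e).le.trans ?_⟩,
    (pow_lt_pow_iff_right₀ one_lt_two).1 (not_le.1 e7)⟩
  rw [b1]
  push_cast
  gcongr
  have : (1 : ℝ) / (L + 1) ≤ 1 := div_le_one_of_le₀ (by linarith [L.cast_nonneg (α := ℝ)])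
    (by positivity)
  linarith

theorem half {J : ℕ} (hJ : 11 ≤ J) :
    1 / 2 ≤ EW J (fun w => if (5 / 2 : ℝ) ^ J ≤ 2 ^ w.sum then (0 : ℝ) else 1) := by
  have a1 := (markov' J).trans (pow_le_pow_of_le_one (by norm_num) (by norm_num) hJ)
  have a2 : EW J (fun w => if (5 / 2 : ℝ) ^ J ≤ 2 ^ w.sum then (0 : ℝ) else 1) =
      1 - EW J fun w => if (5 / 2 : ℝ) ^ J ≤ 2 ^ w.sum then (1 : ℝ) else 0 := by
    rw [← EW_const J (1 : ℝ), ← EW_sub, EW_const]
    exact EW_congr fun w _ => by split_ifs <;> norm_num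
  norm_num at a1
  linarith

theorem mode {H : ℕ} (hH : 11 ≤ H) : ∃ A : ℕ, ¬ (5 / 2 : ℝ) ^ H ≤ 2 ^ A ∧
    1 / (2 * (2 * H + 1)) ≤ EW H fun w => if (A : ℤ) - w.sum = 0 then (1 : ℝ) else 0 := by
  obtain ⟨A, -, hA⟩ := exists_le_of_sum_le (s := range (2 * H + 1)) (by simp)
    (f := fun _ => (1 / (2 * (2 * H + 1)) : ℝ)) (g := fun A => EW H fun w =>
      if A = w.sum then (if (5 / 2 : ℝ) ^ H ≤ 2 ^ A then 0 else 1) else 0) (by
    rw [← EW_sum, sum_const, card_range, nsmul_eq_mul]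
    refine le_trans (le_of_eq (by push_cast; field_simp)) ((half hH).trans_eq
      (EW_congr fun w hw => ?_))
    rw [sum_ite_eq', if_pos (mem_range.2 (Nat.lt_succ_of_le (sum_le_of_mem hw)))])
  refine ⟨A, fun e => ?_, hA.trans (EW_mono fun w _ => ?_)⟩
  · simp only [e, if_true, ite_self, EW_const] at hA
    exact absurd hA (not_le.2 (by positivity))
  · split_ifs <;> first | omega | norm_num

theorem pbase (C : ℝ) (hC : 0 ≤ C) : ∃ (K s₀ n r : ℕ) (β Z₀ : ℝ), 1 ≤ K ∧ 0 < β ∧ β ≤ 1 ∧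
    40000 ≤ s₀ ∧ 2 ^ s₀ ≤ Z₀ ∧ K * C ≤ β * s₀ ^ 4 ∧ r % 2 = 1 ∧ ∀ y : ℕ, y % 2 ^ n = r % 2 ^ n →
    ∀ (s : ℕ) (Z : ℝ), 2 ^ s ≤ Z → Z < 2 ^ (s + 1) → Z₀ ≤ Z → Z < Z₀ * 3 ^ (s / 400) →
      ∃ t, 400 * t ≤ s ∧ s ≤ 404 * t + 1000 ∧ β * Z ≤ #(Q y K (11 * t) (14 * t) Z) := by
  obtain ⟨D, hD0, hD⟩ := mix 3
  obtain ⟨E, hE0, hE⟩ := polyK 3 (ρ := 14 / 15) (by norm_num) (by norm_num)
  obtain ⟨J, hJ⟩ := exists_nat_ge (6000 + 6000 * D + 6000 * 60 ^ 3 * E + 8000 * C)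
  have hJ1 : 6000 ≤ J := by
    have : (6000 : ℝ) ≤ J := by nlinarith
    exact_mod_cast this
  have hJ0 : (0 : ℝ) < J := by exact_mod_cast (by omega)
  have hm := hD (3 * J)
  generalize hn : 14 * (3 * J) = n at hm
  generalize hH : 10 * (3 * J) = H at hm
  obtain ⟨A₀, hA1, hA2⟩ := mode (H := H) (by omega)
  have hA3 := typ hA1
  have hA4 : A₀ ≤ 40 * J := by
    refine (pow_le_pow_iff_right₀ one_lt_two).1 ((not_le.1 hA1).le.trans ?_)
    rw [show H = 3 * (10 * J) by omega, show 40 * J = 4 * (10 * J) by ring, pow_mul,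
      pow_mul _ 4]
    exact pow_le_pow_left₀ (by norm_num) (by norm_num) (10 * J)
  generalize hZ₀ : (3 : ℝ) ^ H / 2 ^ A₀ = Z₀ at hA3
  obtain ⟨s₀, hs1, hs2⟩ := exists_nat_pow_near ((one_le_pow₀ (by norm_num)).trans hA3) one_lt_two
  have hs3 := depth_le (hA3.trans hs2.le)
  have hs4 : s₀ ≤ 2 * H := by
    refine (pow_le_pow_iff_right₀ one_lt_two).1 (hs1.trans ?_)
    rw [← hZ₀, pow_mul]
    exact (div_le_self (by positivity) (one_le_pow₀ one_le_two)).trans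
      (pow_le_pow_left₀ (by norm_num) (by norm_num) _)
  have hs5 : 5 * s₀ ≤ 8 * H := by
    refine (pow_le_pow_iff_right₀ (one_lt_two (α := ℝ))).1 ?_
    rw [mul_comm 5, pow_mul, pow_mul]
    refine (pow_le_pow_left₀ (by positivity) (hs1.trans (hZ₀.symm.le.trans
      (div_le_self (by positivity) (one_le_pow₀ one_le_two)))) 5).trans ?_
    rw [← pow_mul, mul_comm, pow_mul]
    exact pow_le_pow_left₀ (by norm_num) (by norm_num) _
  generalize ht : s₀ / 400 = t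
  obtain ⟨g, hg⟩ : ∃ g : ℕ → List ℕ → ℝ, ∀ j, g j = fun W => if Good (6000 * J ^ 2 + 1)
    (W.take (H + j - 11 * t)) ∧ (W.drop (H + j - 11 * t)).sum < 14 * t then 0 else 1 :=
    ⟨_, fun _ => rfl⟩
  obtain ⟨r, -, hr⟩ := exists_le_of_sum_le (s := univ) univ_nonempty
    (f := fun _ => (1 / (3000 * J) : ℝ)) (g := fun y : R n => den n H A₀ y / 12 -
      (∑ j ∈ range J, ∑ A ∈ range n, |den n (H + j) A y - EW j fun v => den n H (A - v.sum) y|) / 2 -
      (∑ j ∈ range J, dnf n (H + j) (g j) y) / 2) (by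
    have a1 : ∑ y, den n H A₀ y = 2 ^ n * EW H fun w => if (A₀ : ℤ) - w.sum = 0 then 1 else 0 := by
      rw [← sum_dnf]
      simp only [den, dnf, ite_mul, one_mul, zero_mul]
    have a2 : ∀ j ∈ range J, ∑ y, ∑ A ∈ range n, |den n (H + j) A y -
        EW j fun v => den n H (A - v.sum) y| ≤ 2 ^ n * (1 / (6000 * J ^ 2)) := fun j _ => by
      have := hm j
      rw [← sum_div, div_le_iff₀' (by positivity), sum_comm] at this
      refine this.trans (mul_le_mul_of_nonneg_left ?_ (by positivity))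
      rw [div_le_div_iff₀ (by positivity) (by positivity)]
      push_cast
      calc D * (6000 * J ^ 2) = (6000 * D) * J ^ 2 := by ring
        _ ≤ (J : ℝ) * J ^ 2 := by gcongr; nlinarith
        _ = 1 * (J : ℝ) ^ 3 := by ring
        _ ≤ _ := by gcongr; linarith
    have a3 : ∀ j ∈ range J, ∑ y, dnf n (H + j) (g j) y ≤ 2 ^ n * (3 / (6000 * J ^ 2)) :=
      fun j _ => by
        have := not_nice (K := 6000 * J ^ 2) (L := H + j - 11 * t) (t := t) (by positivity)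
          (by omega)
        rw [Nat.sub_add_cancel (by omega), ← hg] at this
        rw [sum_dnf]
        refine mul_le_mul_of_nonneg_left (this.trans ?_) (by positivity)
        have b : E / (t + 1) ^ 3 ≤ 1 / (6000 * J ^ 2) := by
          rw [div_le_div_iff₀ (by positivity) (by positivity)]
          have : (J : ℝ) ≤ 60 * (t + 1) := by exact_mod_cast (by omega)
          refine le_of_mul_le_mul_left ?_ (show (0 : ℝ) < 60 ^ 3 by norm_num)
          calc 60 ^ 3 * (E * (6000 * J ^ 2)) = (6000 * 60 ^ 3 * E) * J ^ 2 := by ring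
            _ ≤ (J : ℝ) * J ^ 2 := by gcongr; nlinarith
            _ = (J : ℝ) ^ 3 := by ring
            _ ≤ (60 * (t + 1 : ℝ)) ^ 3 := by gcongr
            _ = _ := by ring
        push_cast
        have := hE t
        rw [show (3 : ℝ) / (6000 * J ^ 2) = 3 * (1 / (6000 * J ^ 2)) by ring]
        linarith
    have a4 := sum_le_card_nsmul _ _ _ a2
    have a5 := sum_le_card_nsmul _ _ _ a3
    rw [sum_comm, card_range, nsmul_eq_mul] at a4 a5
    have a6 : (1 : ℝ) / (122 * J) ≤ 1 / (2 * (2 * H + 1)) := by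
      rw [div_le_div_iff₀ (by positivity) (by positivity)]
      exact_mod_cast (by omega)
    have a7 := mul_le_mul_of_nonneg_left (a6.trans hA2) (show (0 : ℝ) ≤ 2 ^ n by positivity)
    rw [sum_const, card_univ, ZMod.card, nsmul_eq_mul, Nat.cast_pow, Nat.cast_ofNat,
      sum_sub_distrib, sum_sub_distrib, ← sum_div, ← sum_div, ← sum_div, a1]
    have a8 : ∀ c : ℝ, J * (2 ^ n * (c / (6000 * J ^ 2))) = c / 6000 * (2 ^ n / J) := fun c => by
      field_simp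
    have a9 : ∀ c : ℝ, 2 ^ n * (1 / (c * J)) = 1 / c * (2 ^ n / J) := fun c => by ring
    rw [a8] at a4 a5
    rw [a9] at a7 ⊢
    linarith [show (0 : ℝ) ≤ 2 ^ n / J by positivity])
  have hg0 : ∀ j (y : R n), 0 ≤ dnf n (H + j) (g j) y := fun j y => EW_nonneg fun W _ => by
    rw [hg]
    positivity
  refine ⟨6000 * J ^ 2 + 1, s₀, n, r.val, 1 / (3000 * J), Z₀, by omega, by positivity, ?_, by omega,
    hs1, ?_, ?_, fun y hy s Z h1 h2 h3 h4 => ?_⟩
  · rw [div_le_one (by positivity)]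
    exact_mod_cast (by omega)
  · have a1 : (7 * J : ℝ) ≤ s₀ := by exact_mod_cast (by omega)
    have a2 : (1 : ℝ) ≤ J ^ 2 := one_le_pow₀ (by exact_mod_cast (by omega))
    push_cast
    calc (6000 * J ^ 2 + 1) * C ≤ (6400 * J ^ 2) * (J / 8000 : ℝ) := by
          gcongr
          · linarith
          · nlinarith
      _ ≤ 1 / (3000 * J) * (7 * J : ℝ) ^ 4 := by
          rw [show 1 / (3000 * J) * (7 * J : ℝ) ^ 4 = 2401 / 3000 * J ^ 3 by field_simp; ring]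
          nlinarith [show (0 : ℝ) ≤ J ^ 3 by positivity]
      _ ≤ _ := by gcongr
  · have a1 : 0 < den n H A₀ r := by
      have := sum_nonneg (s := range J) fun j _ => hg0 j r
      have := sum_nonneg (s := range J) fun j _ => sum_nonneg (s := range n) fun A _ =>
        abs_nonneg (den n (H + j) A r - EW j fun v => den n H (A - v.sum) r)
      have : (0 : ℝ) < 1 / (3000 * J) := by positivity
      linarith
    have a2 := cV_den (n := n) (H := H) (k := 0) (A := A₀) (by omega) r.val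
    rw [ZMod.natCast_zmod_val, Nat.cast_zero, sub_zero] at a2
    obtain ⟨u, hu⟩ := card_pos.1 (Nat.cast_pos.1 (lt_of_lt_of_eq (by positivity) a2.symm))
    obtain ⟨b1, -, v, b2⟩ := mem_filter.1 hu
    rw [(mem_wds.1 b1).1] at b2
    rw [← (bwd b1 b2).2]
    exact T_odd H (by omega)
  rw [← ZMod.natCast_eq_natCast_iff', ZMod.natCast_zmod_val] at hy
  subst hy
  have hZ0 : 0 < Z₀ := lt_of_lt_of_le (by positivity) hs1
  have hZ : 0 < Z := hZ0.trans_le h3
  have b1 : s₀ < s + 1 := (pow_lt_pow_iff_right₀ one_lt_two).1 ((hs1.trans h3).trans_lt h2)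
  have b2 : s < s₀ + 1 + 2 * (s / 400) := by
    refine (pow_lt_pow_iff_right₀ (one_lt_two (α := ℝ))).1 (h1.trans_lt (h4.trans ?_))
    rw [pow_add _ (s₀ + 1), pow_mul]
    exact mul_lt_mul hs2 (pow_le_pow_left₀ (by norm_num) (by norm_num) _) (by positivity)
      (by positivity)
  refine ⟨t, by omega, by omega, (mul_le_mul_of_nonneg_right hr hZ.le).trans ?_⟩
  have c1 : ∀ j ∈ range J, (EW j fun u => if Z₀ * Rw u ≤ Z then Z₀ * Rw u else 0) *
      (den n H A₀ y / 2) - Z / 2 * ∑ A ∈ range n, |den n (H + j) A y -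
        EW j fun v => den n H (A - v.sum) y| - Z / 2 * dnf n (H + j) (g j) y ≤
      #{p ∈ Q y (6000 * J ^ 2 + 1) (11 * t) (14 * t) Z | p.1 + 11 * t - H = j} := by
    intro j hj
    rw [mem_range] at hj
    have d1 := level y (6000 * J ^ 2 + 1) (H + j - 11 * t) (11 * t) (14 * t) n hZ.le
    rw [Nat.sub_add_cancel (by omega), ← hg] at d1
    refine le_trans (sub_le_sub_right ?_ _) (d1.trans (Nat.cast_le.2 (card_le_card fun p hp => ?_)))
    swap
    · rw [mem_filter] at hp ⊢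
      exact ⟨hp.1, by omega⟩
    obtain ⟨c, hc⟩ : ∃ c : ℕ → ℝ, ∀ A, c A =
      if 3 ^ (H + j) / 2 ^ A ≤ Z then 3 ^ (H + j) / 2 ^ A / 2 else 0 := ⟨_, fun _ => rfl⟩
    have d2 : ∀ A, 0 ≤ c A ∧ c A ≤ Z / 2 := fun A => by
      rw [hc]
      split_ifs
      · exact ⟨by positivity, by linarith⟩
      · exact ⟨le_rfl, by positivity⟩
    simp only [← hc]
    rw [sub_le_iff_le_add, mul_sum, ← sum_add_distrib, ← EW_mul']
    refine le_trans (EW_mono (g := fun v => ∑ A ∈ range n, c A * den n H (A - v.sum) y)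
      fun v hv => ?_) ?_
    · have d3 := sum_le_of_mem hv
      refine le_trans (le_of_eq ?_) (single_le_sum (f := fun A : ℕ => c A * den n H (A - v.sum) y)
        (fun A _ => mul_nonneg (d2 A).1 (den_nonneg _ _ _ _))
        (mem_range.2 (show A₀ + v.sum < n by omega)))
      have d4 : Z₀ * Rw v = 3 ^ (H + j) / 2 ^ (A₀ + v.sum) := by
        rw [← hZ₀, Rw, (mem_wds.1 hv).1]
        ring
      simp only [hc, d4, Nat.cast_add, add_sub_cancel_right]
      split_ifs <;> ring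
    · rw [EW_sum]
      refine sum_le_sum fun A _ => ?_
      rw [EW_mul, ← sub_le_iff_le_add', ← mul_sub, abs_sub_comm]
      exact (mul_le_mul_of_nonneg_left (le_abs_self _) (d2 A).1).trans
        (mul_le_mul_of_nonneg_right (d2 A).2 (abs_nonneg _))
  have c2 := sum_le_sum c1
  rw [← Nat.cast_sum, sum_card_fiberwise_eq_card_filter, sum_sub_distrib, sum_sub_distrib,
    ← sum_mul, ← mul_sum, ← mul_sum] at c2
  refine le_trans ?_ (c2.trans (Nat.cast_le.2 (card_filter_le _ _)))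
  have c3 : 1 / 2 ≤ EW J fun u => if Z < Z₀ * Rw u then (1 : ℝ) else 0 := by
    refine (half (by omega)).trans (EW_mono fun u hu => ?_)
    split_ifs with e1 e2 e3 <;> norm_num
    refine e3 (h4.trans_le (mul_le_mul_of_nonneg_left (le_trans ?_ ((typ e1).trans_eq ?_)) hZ0.le))
    · calc (3 : ℝ) ^ (s / 400) ≤ ((6 / 5) ^ 7) ^ (s / 400) := by gcongr; norm_num
        _ ≤ _ := by rw [← pow_mul]; exact pow_le_pow_right₀ (by norm_num) (by omega)
    · rw [Rw, (mem_wds.1 hu).1]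
  have c4 := mul_le_mul_of_nonneg_right ((mul_le_mul_of_nonneg_left c3 (by positivity)).trans
    (passage J hZ0 h3)) (den_nonneg n H A₀ y)
  linarith

end Pool.Agent.MP_2e2529_nt

end

section

/-! Seeds in every odd residue class, and the positive lower density of predecessors. -/

namespace Pool.Agent.MP_2e2529_nt

open Finset Real Classical

theorem nine_pow (n : ℕ) : ∃ c, 9 ^ 2 ^ n = 1 + 2 ^ (n + 3) * (2 * c + 1) := by
  induction n with
  | zero => exact ⟨0, by norm_num⟩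
  | succ n ih =>
    obtain ⟨c, hc⟩ := ih
    exact ⟨c + 2 ^ (n + 1) * (2 * c + 1) ^ 2, by rw [pow_succ, pow_mul, hc]; ring⟩

theorem nine_cover {z r : ℕ} (hz : z % 2 = 1) (h : z % 8 = r % 8) (n : ℕ) :
    ∃ j, 9 ^ j * z ≡ r [MOD 2 ^ (n + 3)] := by
  induction n with
  | zero => exact ⟨0, by simpa [Nat.ModEq] using h⟩
  | succ n ih =>
    obtain ⟨j, hj⟩ := ih
    obtain ⟨q, hq⟩ := hj.dvd
    obtain ⟨c, hc⟩ := nine_pow n
    obtain ⟨e, he⟩ : Odd (9 ^ j * z) := (Odd.pow (by decide)).mul (Nat.odd_iff.2 hz)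
    rcases Int.even_or_odd' q with ⟨k, rfl | rfl⟩
    · exact ⟨j, Nat.modEq_of_dvd ⟨k, by rw [hq]; push_cast; ring⟩⟩
    · refine ⟨2 ^ n + j, Nat.modEq_of_dvd ⟨k - c - e - 2 * c * e, ?_⟩⟩
      rw [pow_add, mul_assoc, hc]
      rw [he] at hq ⊢
      push_cast at hq ⊢
      linear_combination hq

theorem T_three (d z : ℕ) : T^[d] (3 ^ d * z) = z := by
  induction d with
  | zero => simp
  | succ d ih =>
    rw [Function.iterate_succ_apply, (T_uniq (a := 0) (y := 3 ^ d * z) (by norm_num)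
      (by norm_num; ring)).2, ih]

theorem aperiodic {z : ℕ} (hz : 0 < z) :
    ∃ D, ∀ d, D ≤ d → ∀ m, 0 < m → T^[m] (3 ^ d * z) ≠ 3 ^ d * z := by
  by_contra h
  push Not at h
  obtain ⟨d₀, -, p, hp, h0⟩ := h 0
  have h1 : Function.IsPeriodicPt T p z := by
    have := Function.IsPeriodicPt.apply_iterate h0 d₀
    rwa [T_three] at this
  obtain ⟨d, hd, m, hm, h2⟩ := h (∑ i ∈ range p, T^[i] z)
  have h3 : T^[m * d] (3 ^ d * z) = 3 ^ d * z := Function.IsPeriodicPt.mul_const h2 d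
  obtain ⟨c, hc⟩ := Nat.exists_eq_add_of_le' (Nat.le_mul_of_pos_left d hm)
  rw [hc, Function.iterate_add_apply, T_three, ← h1.iterate_mod_apply] at h3
  have h4 := single_le_sum (f := fun i => T^[i] z) (fun _ _ => Nat.zero_le _)
    (mem_range.2 (Nat.mod_lt c hp))
  have h5 := Nat.lt_pow_self (n := d) (show 1 < 3 by norm_num)
  have h6 := Nat.le_mul_of_pos_right (3 ^ d) hz
  simp only [h3] at h4
  omega

theorem seed {b r : ℕ} (hb : b % 2 = 1) (hr : r % 2 = 1) (n : ℕ) : ∃ y, y % 2 ^ n = r % 2 ^ n ∧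
    (∃ k, T^[k] y = b) ∧ ∀ m, 0 < m → T^[m] y ≠ y := by
  obtain ⟨P, hP⟩ : ∃ P : ℕ → Prop, ∀ z, P z ↔ ∃ k, T^[k] z = b := ⟨_, fun _ => Iff.rfl⟩
  have h3 : ∀ d z, P z → P (3 ^ d * z) := fun d z h => by
    obtain ⟨k, hk⟩ := (hP z).1 h
    exact (hP _).2 ⟨k + d, by rw [Function.iterate_add_apply, T_three, hk]⟩
  have h2 : ∀ z, P z → z % 2 = 1 → P ((3 * z + 1) / 2) := fun z h e => by
    obtain ⟨k, hk⟩ := (hP z).1 h
    exact (hP _).2 ⟨k + 1, by
      rw [Function.iterate_succ_apply, (T_uniq (a := 1) (y := z) (by norm_num) (by omega)).2, hk]⟩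
  have h0 : P b := (hP b).2 ⟨0, rfl⟩
  obtain ⟨z₀, a1, a2⟩ : ∃ z, P z ∧ (z % 16 = 3 ∨ z % 16 = 7) := by
    by_contra e
    push Not at e
    have := e _ (h3 0 b h0)
    have := e _ (h3 1 b h0)
    have := e _ (h3 2 b h0)
    have := e _ (h3 3 b h0)
    have : b % 16 < 16 := Nat.mod_lt _ (by norm_num)
    interval_cases h : b % 16 <;> omega
  obtain ⟨z, a3, a4⟩ : ∃ z, P z ∧ z % 8 = r % 8 := by
    by_contra e
    push Not at e
    have := e _ a1
    have := e _ (h3 1 _ a1)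
    have := e _ (h2 _ a1 (by omega))
    have := e _ (h3 1 _ (h2 _ a1 (by omega)))
    omega
  obtain ⟨j, hj⟩ := nine_cover (by omega) a4 n
  obtain ⟨D, hD⟩ := aperiodic (z := z) (by omega)
  obtain ⟨c, hc⟩ := nine_pow n
  refine ⟨3 ^ (2 * (2 ^ n * D + j)) * z, ?_, (hP _).1 (h3 _ _ a3), hD _ ?_⟩
  · refine Nat.ModEq.of_dvd (pow_dvd_pow 2 (Nat.le_add_right n 3)) (Nat.ModEq.trans ?_ hj)
    rw [pow_mul, pow_add _ _ j, pow_mul, mul_assoc]
    have : 9 ^ 2 ^ n ≡ 1 [MOD 2 ^ (n + 3)] := by rw [hc]; exact Nat.add_mul_mod_self_left _ _ _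
    simpa using (this.pow D).mul_right (9 ^ j * z)
  · have := Nat.le_mul_of_pos_left D (Nat.two_pow_pos n)
    omega

theorem pos_odd {b : ℕ} (hb : b % 2 = 1) : ∃ c : ℝ, 0 < c ∧ ∃ X₀ : ℕ, ∀ X : ℕ, X₀ ≤ X →
    c * X ≤ #{x ∈ Icc 1 X | x % 2 = 1 ∧ ∃ k, T^[k] x = b} := by
  obtain ⟨C, hC0, hC⟩ := prec
  obtain ⟨K, s₀, n, r, β, Z₀, h1, h2, h3, h4, h5, h6, h7, h8⟩ := pbase C hC0
  obtain ⟨y, a1, ⟨k, a2⟩, a3⟩ := seed hb h7 n
  refine ⟨β / 2 / (y + K + 1), by positivity, ⌈Z₀ * (y + K + 1)⌉₊, fun X hX => ?_⟩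
  generalize hZ : (X : ℝ) / (y + K + 1) = Z
  have b1 : Z₀ ≤ Z := by rw [← hZ, le_div_iff₀ (by positivity)]; exact Nat.ceil_le.1 hX
  obtain ⟨s, b2, b3⟩ := exists_nat_pow_near ((one_le_pow₀ one_le_two).trans (h5.trans b1))
    one_lt_two
  obtain ⟨t, c1, -, c2⟩ := hC y K s₀ β Z₀ h1 h2.le h3 h4 h5 h6 (h8 y a1) s Z b2 b3 b1
  have b4 : 0 ≤ Z := le_trans (by positivity) b2
  refine le_trans ?_ (c2.trans (Nat.cast_le.2 (card_le_card_of_injOn Prod.snd (fun p hp => ?_)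
    fun p hp q hq e => ?_)))
  · rw [div_mul_eq_mul_div, mul_div_assoc, hZ]
    gcongr
    exact le_mul_of_one_le_right (by positivity) (le_add_of_nonneg_right (by positivity))
  · have d1 := mem_Q.1 hp
    have d2 : (3 : ℝ) ^ (11 * t) ≤ Z := by
      refine le_trans ?_ ((pow_le_pow_right₀ one_le_two (show 20 * t ≤ s by omega)).trans b2)
      rw [pow_mul, pow_mul]
      exact pow_le_pow_left₀ (by norm_num) (by norm_num) t
    have d3 : (p.2 : ℝ) ≤ X := d1.le.trans ((add_le_add le_rfl d2).trans_eq (by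
      rw [← hZ]
      field_simp))
    refine mem_coe.2 (mem_filter.2 ⟨mem_Icc.2 ⟨by have := d1.1; omega, by exact_mod_cast d3⟩, d1.1,
      k + (p.1 + 11 * t), ?_⟩)
    rw [Function.iterate_add_apply, Function.iterate_add_apply, d1.2.1, a2]
  · have d1 := (mem_Q.1 hp).2.1
    have d2 := (mem_Q.1 hq).2.1
    rw [e] at d1
    have d3 : ∀ i j z, T^[i] z = y → T^[j] z = y → ¬ i < j := fun i j z e1 e2 h => by
      obtain ⟨c, rfl⟩ := Nat.exists_eq_add_of_le' h.le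
      rw [Function.iterate_add_apply, e1] at e2
      exact a3 c (by omega) e2
    exact Prod.ext (le_antisymm (not_lt.1 (d3 _ _ _ d2 d1)) (not_lt.1 (d3 _ _ _ d1 d2))) e

theorem pos_final (i : ℕ → ℕ) (hi : ∀ x, i x = if x % 2 = 0 then x / 2 else 4 * x / 3) {a : ℕ}
    (ha : ¬ 8 ∣ a) : ∃ c : ℝ, 0 < c ∧ ∃ X₀ : ℕ, ∀ X : ℕ, X₀ ≤ X →
      c * X ≤ #{x ∈ Icc 1 X | ∃ k, i^[k] x = a} := by
  obtain ⟨m, j, hm, hj⟩ : ∃ m j, m % 2 = 1 ∧ i^[j] (3 * m) = a := by
    have : a % 2 = 1 ∨ a % 4 = 2 ∨ a % 8 = 4 := by omega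
    rcases this with h | h | h
    · refine ⟨a, 3, h, ?_⟩
      simp only [Function.iterate_succ_apply', Function.iterate_zero, id, hi]
      split_ifs <;> omega
    · refine ⟨a / 2, 2, by omega, ?_⟩
      simp only [Function.iterate_succ_apply', Function.iterate_zero, id, hi]
      split_ifs <;> omega
    · refine ⟨a / 4, 1, by omega, ?_⟩
      simp only [Function.iterate_succ_apply', Function.iterate_zero, id, hi]
      split_ifs <;> omega
  obtain ⟨c, hc, X₀, h⟩ := pos_odd (b := 3 * m) (by omega)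
  refine ⟨c, hc, X₀, fun X hX => (h X hX).trans (Nat.cast_le.2 (card_le_card fun x hx => ?_))⟩
  obtain ⟨b1, b2, k, b3⟩ := mem_filter.1 hx
  obtain ⟨l, hl⟩ := T_iter i hi k x b2
  exact mem_filter.2 ⟨b1, j + l, by rw [Function.iterate_add_apply, hl, b3, hj]⟩

end Pool.Agent.MP_2e2529_nt

end
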